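import Pool.Agent.TH709.GG.Split

set_option autoImplicit false
set_option linter.unusedSectionVars false
set_option linter.unusedVariables false

/-! # Total monotonicity in rank at most four -/

namespace Pool.Agent.TH709.GG

open Polynomial
open Pool.Agent.W497.FS

/-- `W` carries a flag Eulerian complex of rank `d`: every face lies in a face with exactly `d`
vertices, and the Euler relations hold -/
structure EP {α : Type*} (H : SimpleGraph α) (d : ℕ) (W : Finset α) : Prop where
  pure : ∀ σ ∈ cl H W, ∃ τ ∈ cl H W, σ ⊆ τ ∧ τ.card = d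
  eul : Eul H d W

variable {α : Type*} {H : SimpleGraph α} [DecidableEq α]

theorem EP.card_le {d : ℕ} {W σ : Finset α} (h : EP H d W) (hσ : σ ∈ cl H W) : σ.card ≤ d := by
  obtain ⟨τ, -, h1, h2⟩ := h.pure σ hσ
  rw [← h2]
  exact Finset.card_le_card h1

theorem EP.link {d e : ℕ} {W κ : Finset α} (h : EP H d W) (hκ : κ ∈ cl H W)
    (he : e + κ.card = d) : EP H e (lkF H W κ) := by
  refine ⟨fun σ hσ => ?_, h.eul.lkF_rank hκ he⟩
  obtain ⟨τ, hτ, h1, h2⟩ := h.pure _ (union_mem_cl hκ hσ)
  have hκτ : κ ⊆ τ := Finset.subset_union_left.trans h1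
  have hστ : σ ⊆ τ := Finset.subset_union_right.trans h1
  have hd := disjoint_of_mem_cl_lkF hσ
  rw [mem_cl] at hτ
  refine ⟨τ \ κ, ?_, ?_, ?_⟩
  · rw [mem_cl]
    refine ⟨fun x hx => ?_, fun x hx z hz => hτ.2 x (Finset.mem_sdiff.1 hx).1 z
      (Finset.mem_sdiff.1 hz).1⟩
    obtain ⟨hx1, hx2⟩ := Finset.mem_sdiff.1 hx
    exact mem_lkF.2 ⟨hτ.1 hx1, fun z hz => hτ.2 z (hκτ hz) x hx1 (fun h' => hx2 (h' ▸ hz))⟩
  · intro x hx
    exact Finset.mem_sdiff.2 ⟨hστ hx, fun h' => (Finset.disjoint_left.1 hd h') hx⟩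
  · rw [Finset.card_sdiff_of_subset hκτ]; omega

theorem EP.lk {d : ℕ} {W : Finset α} {v : α} (h : EP H (d + 1) W) (hv : v ∈ W) :
    EP H d (W497.FS.lk H W v) := by
  have := h.link (e := d) (singleton_mem_cl hv) (by rw [Finset.card_singleton])
  rwa [lkF_singleton] at this

theorem EP.zero {W : Finset α} (h : EP H 0 W) : W = ∅ := by
  apply Finset.eq_empty_of_forall_notMem
  intro v hv
  have := h.card_le (singleton_mem_cl hv)
  rw [Finset.card_singleton] at this
  omega

theorem EP.nonempty {d : ℕ} {W : Finset α} (h : EP H (d + 1) W) : W.Nonempty := by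
  obtain ⟨τ, hτ, -, h2⟩ := h.pure ∅ empty_mem_cl
  have : τ.Nonempty := by rw [← Finset.card_pos]; omega
  exact this.mono (mem_cl.1 hτ).1

theorem EP.nn_nonempty {d : ℕ} {W : Finset α} (h : EP H d W) {v : α} (hv : v ∈ W) :
    (nn H W v).Nonempty := by
  by_contra hcon
  rw [Finset.not_nonempty_iff_eq_empty] at hcon
  have := euler_nn h.eul hv
  rw [hcon, cl_empty, Finset.sum_singleton] at this
  simp at this

theorem EP.two_mul_le {d : ℕ} {W : Finset α} (h : EP H d W) : 2 * d ≤ W.card := by
  induction d generalizing W with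
  | zero => simp
  | succ d ih =>
    obtain ⟨v, hv⟩ := h.nonempty
    have h1 := ih (h.lk hv)
    have h2 := card_eq_lk_nn (H := H) hv
    have h3 := Finset.card_pos.2 (h.nn_nonempty hv)
    omega

theorem EP.FP_mem {d : ℕ} {W : Finset α} (h : EP H d W) : FP H W ∈ GT 0 d := by
  induction hn : W.card using Nat.strong_induction_on generalizing d W with
  | _ n ih =>
    subst hn
    rcases d with _ | d
    · rw [h.zero, FP_eq, fe_empty]
      exact one_mem_GT 0
    obtain ⟨v, hv⟩ := h.nonempty
    have hlt : (W497.FS.lk H W v).card < W.card := by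
      have := card_eq_lk_nn (H := H) hv
      omega
    have h1 := ih _ hlt (h.lk hv) rfl
    rw [FP_vertex h.eul hv]
    refine add_mem (GT_y h1) ?_
    rcases d with _ | d
    · have hB : Bk H W v = 0 := by
        rw [Bk]
        refine Finset.sum_eq_zero (fun κ hκ => ?_)
        have h2 := h.card_le (cl_mono nn_subset hκ)
        have : κ.card - 1 = 0 := by omega
        rw [this, sj_zero]; ring
      rw [hB, mul_zero]; exact zero_mem _
    refine GT_w0 ?_
    rw [Bk]
    refine sum_mem (fun κ hκ => ?_)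
    have h2 := h.card_le (cl_mono nn_subset hκ)
    rw [mul_assoc]
    refine neg_one_pow_mem ?_
    rcases hc : κ.card with _ | _ | k
    · simp [sj_zero]
    · simp [sj_zero]
    · obtain ⟨e, he⟩ : ∃ e, e + κ.card = d + 1 + 1 := ⟨d + 1 + 1 - κ.card, by omega⟩
      have hne : κ.Nonempty := by rw [← Finset.card_pos]; omega
      obtain ⟨z, hz⟩ := hne
      have hlt' : (lkF H W κ).card < W.card := by
        refine Finset.card_lt_card ⟨fun x hx => (mem_lkF.1 hx).1, fun hcon => ?_⟩
        have hzW : z ∈ W := (mem_cl.1 (cl_mono nn_subset hκ)).1 hz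
        exact ((mem_lkF.1 (hcon hzW)).2 z hz).ne rfl
      have h3 := ih _ hlt' (h.link (cl_mono nn_subset hκ) he) rfl
      have h4 := GT_mul (sj_mem k) h3
      have h5 : k + e = d := by omega
      rw [h5] at h4
      have h6 : k + 1 + 1 - 1 = k + 1 := by omega
      rw [h6]
      exact h4

theorem GT_ypow {t : ℕ∞} {d : ℕ} {p : ℤ[X]} (hp : p ∈ GT t d) (n : ℕ) :
    y ^ n * p ∈ GT t (d + n) := by
  induction n with
  | zero => simpa using hp
  | succ n ih =>
    rw [pow_succ', mul_assoc, ← add_assoc]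
    exact GT_y ih

/-! ### Values and derivatives at zero -/

theorem deriv_FP (W : Finset α) : (derivative (FP H W)).eval 0 = W.card := by
  rw [FP, derivative_sum, eval_finsetSum]
  have h1 : ∀ σ ∈ cl H W, (derivative ((X : ℤ[X]) ^ σ.card)).eval 0 =
      if σ.card = 1 then 1 else 0 := by
    intro σ _
    rw [derivative_X_pow, eval_mul, eval_pow, eval_X]
    rcases σ.card with _ | _ | n
    · simp
    · simp
    · simp
  rw [Finset.sum_congr rfl h1, Finset.sum_ite, Finset.sum_const_zero, add_zero]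
  have h4 : ((cl H W).filter (fun κ => κ.card = 1)).card = W.card := by
    symm
    refine Finset.card_bij (fun a _ => {a}) ?_ ?_ ?_
    · intro a ha
      exact Finset.mem_filter.2 ⟨singleton_mem_cl ha, Finset.card_singleton a⟩
    · intro a _ b _ hab
      exact Finset.singleton_injective hab
    · intro κ hκ
      obtain ⟨h5, h6⟩ := Finset.mem_filter.1 hκ
      obtain ⟨a, rfl⟩ := Finset.card_eq_one.1 h6
      exact ⟨a, (mem_cl.1 h5).1 (Finset.mem_singleton_self a), rfl⟩
  rw [Finset.sum_const, h4]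
  simp

theorem eval_y0 : y.eval 0 = 1 := y_eval_zero
theorem eval_dy : (derivative y).eval 0 = 2 := by simp [y]
theorem eval_dw : (derivative w).eval 0 = 1 := by simp [w]

theorem eval_neg_y_pow (n : ℕ) (p : ℤ[X]) : ((-y) ^ n * p).eval 0 = (-1) ^ n * p.eval 0 := by
  rw [eval_mul, eval_pow, eval_neg, eval_y0]

theorem deriv_neg_y_pow (n : ℕ) (p : ℤ[X]) : (derivative ((-y) ^ n * p)).eval 0 =
    (-1) ^ n * (2 * n * p.eval 0 + (derivative p).eval 0) := by
  rw [derivative_mul, eval_add, eval_mul, eval_mul, eval_pow, eval_neg, eval_y0, derivative_pow,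
    eval_mul, eval_mul, eval_pow, derivative_neg, eval_neg, eval_neg, eval_y0, eval_dy, eval_C]
  rcases n with _ | n
  · simp
  · rw [Nat.add_sub_cancel, pow_succ]
    push_cast
    ring

theorem sum_neg_one_pow (κ : Finset α) :
    ∑ G ∈ κ.powerset, (-1 : ℤ) ^ G.card = if κ = ∅ then 1 else 0 := by
  have := Finset.sum_pow_mul_eq_add_pow (-1 : ℤ) 1 κ
  simp only [one_pow, mul_one, neg_add_cancel] at this
  rw [this]
  split_ifs with h
  · rw [h]; simp
  · rw [zero_pow]
    exact fun h' => h (Finset.card_eq_zero.1 h')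

theorem D_eval_zero (W κ : Finset α) :
    (D H W ∅ κ).eval 0 = if κ = ∅ then 1 else 0 := by
  rw [D, eval_finsetSum, ← sum_neg_one_pow]
  refine Finset.sum_congr rfl (fun G _ => ?_)
  rw [eval_neg_y_pow, FP_eval_zero, mul_one]

/-- the vertices of `W` without a neighbour in `κ` -/
theorem sum_card_lkF (κ : Finset α) : ∀ W : Finset α,
    ∃ s : Finset α, s ⊆ W ∧ (∀ x, x ∈ s ↔ x ∈ W ∧ ∀ z ∈ κ, ¬ H.Adj z x) ∧
      ∑ G ∈ κ.powerset, (-1 : ℤ) ^ G.card * ((lkF H W G).card : ℤ) = s.card := by
  classical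
  induction κ using Finset.induction_on with
  | empty =>
    intro W
    refine ⟨W, Finset.Subset.refl _, fun x => by simp, ?_⟩
    simp [lkF_empty]
  | insert v κ hv ih =>
    intro W
    obtain ⟨s, hs, hs1, hs2⟩ := ih W
    obtain ⟨t, ht, ht1, ht2⟩ := ih (W497.FS.lk H W v)
    have hts : t ⊆ s := by
      intro x hx
      rw [ht1, mem_lk] at hx
      rw [hs1]
      exact ⟨hx.1.1, hx.2⟩
    refine ⟨s \ t, Finset.sdiff_subset.trans hs, fun x => ?_, ?_⟩
    · rw [Finset.mem_sdiff, hs1, ht1, mem_lk]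
      simp only [Finset.mem_insert, forall_eq_or_imp]
      tauto
    · rw [Finset.sum_powerset_insert hv, hs2, Finset.card_sdiff_of_subset hts,
        Nat.cast_sub (Finset.card_le_card hts), ← ht2, sub_eq_add_neg, ← Finset.sum_neg_distrib]
      congr 1
      refine Finset.sum_congr rfl (fun G hG => ?_)
      have hvG : v ∉ G := fun h => hv (Finset.mem_powerset.1 hG h)
      have e1 : lkF H W (insert v G) = lkF H (W497.FS.lk H W v) G := by
        rw [← lkF_singleton, lkF_lkF, ← Finset.insert_eq]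
      rw [Finset.card_insert_of_notMem hvG, pow_succ, e1]
      ring

theorem sum_card (κ : Finset α) (v : α) (hv : v ∉ κ) :
    ∑ G ∈ (insert v κ).powerset, (-1 : ℤ) ^ G.card * (G.card : ℤ) =
      - if κ = ∅ then 1 else 0 := by
  rw [Finset.sum_powerset_insert hv, ← sum_neg_one_pow, ← Finset.sum_neg_distrib,
    ← Finset.sum_add_distrib]
  refine Finset.sum_congr rfl (fun G hG => ?_)
  have hvG : v ∉ G := fun h => hv (Finset.mem_powerset.1 hG h)
  rw [Finset.card_insert_of_notMem hvG, pow_succ]
  push_cast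
  ring

theorem D_deriv (W κ : Finset α) : (derivative (D H W ∅ κ)).eval 0 =
    2 * ∑ G ∈ κ.powerset, (-1 : ℤ) ^ G.card * (G.card : ℤ) +
      ∑ G ∈ κ.powerset, (-1 : ℤ) ^ G.card * ((lkF H W G).card : ℤ) := by
  rw [D, derivative_sum, eval_finsetSum, Finset.mul_sum, ← Finset.sum_add_distrib]
  refine Finset.sum_congr rfl (fun G _ => ?_)
  rw [deriv_neg_y_pow, FP_eval_zero, deriv_FP, Finset.empty_union]
  ring

theorem EP.D_deriv_ge {d : ℕ} {W κ : Finset α} (h : EP H d W) (hκ : κ ∈ cl H W) :
    2 * d * (D H W ∅ κ).eval 0 ≤ (derivative (D H W ∅ κ)).eval 0 := by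
  rw [D_eval_zero, D_deriv]
  induction κ using Finset.induction_on with
  | empty =>
    have := h.two_mul_le
    simp [lkF_empty]
    exact_mod_cast this
  | insert v κ hv _ =>
    rw [if_neg (Finset.insert_ne_empty v κ), mul_zero, sum_card κ v hv]
    have hvW : v ∈ W := (mem_cl.1 hκ).1 (Finset.mem_insert_self v κ)
    by_cases hκ0 : κ = ∅
    · subst hκ0
      have h2 := card_eq_lk_nn (H := H) hvW
      have h3 := Finset.card_pos.2 (h.nn_nonempty hvW)
      have h4 : ∑ G ∈ (insert v (∅ : Finset α)).powerset,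
          (-1 : ℤ) ^ G.card * ((lkF H W G).card : ℤ) = W.card - (W497.FS.lk H W v).card := by
        rw [Finset.sum_powerset_insert hv]
        simp [lkF_empty, lkF_singleton]
        ring
      rw [h4, if_pos rfl]
      have h5 : (W.card : ℤ) ≥ (W497.FS.lk H W v).card + 2 := by exact_mod_cast (by omega)
      linarith
    · obtain ⟨s, -, -, hs⟩ := sum_card_lkF (H := H) (insert v κ) W
      rw [hs, if_neg hκ0]
      positivity

/-! ### The cone in low ranks -/

theorem low {e : ℕ} (he : e ≤ 3) {p : ℤ[X]} (hp : p ∈ GT 0 e) (h0 : 0 ≤ p.eval 0)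
    (h1 : 2 * e * p.eval 0 ≤ (derivative p).eval 0) : p ∈ GT ⊤ e := by
  obtain ⟨a, ha, -⟩ := GT_coeffs hp
  have hC : ∀ c : ℤ, 0 ≤ c → ∀ q ∈ GT ⊤ e, C c * q ∈ GT ⊤ e := by
    intro c hc q hq
    obtain ⟨n, rfl⟩ := Int.eq_ofNat_of_zero_le hc
    have : C ((n : ℕ) : ℤ) * q = n • q := by simp
    rw [this]
    exact AddSubmonoid.nsmul_mem _ hq n
  have hcase : e < 2 ∨ e = 2 ∨ e = 3 := by omega
  rcases hcase with he2 | rfl | rfl
  · have : e / 2 + 1 = 1 := by omega
    rw [this, Finset.sum_range_one] at ha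
    simp only [pow_zero, mul_one, mul_zero, Nat.sub_zero] at ha
    rw [ha, eval_mul, eval_C, eval_pow, eval_y0, one_pow, mul_one] at h0
    rw [ha]
    refine hC _ h0 _ ?_
    have := gen_mem ⊤ (i := 0) (j := e) (d := e) (by omega)
    simpa using this
  · simp only [show 2 / 2 + 1 = 2 from rfl, Finset.sum_range_succ, Finset.sum_range_zero, zero_add,
      pow_zero, mul_one, mul_zero, Nat.sub_zero, pow_one, Nat.sub_self] at ha
    have e0 : p.eval 0 = a 0 := by
      rw [ha]; simp [y_eval_zero, w_eval_zero]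
    have e1 : (derivative p).eval 0 = 4 * a 0 + a 1 := by
      rw [ha]; simp [y, w, derivative_pow]; try ring
    rw [e0] at h0 h1
    rw [e1] at h1
    rw [ha]
    refine add_mem (hC _ h0 _ ?_) (hC _ ?_ _ ?_)
    · have := gen_mem ⊤ (i := 0) (j := 2) (d := 2) (by omega)
      simpa using this
    · push_cast at h1; linarith
    · have := gen_mem ⊤ (i := 1) (j := 0) (d := 2) (by omega)
      simpa using this
  · simp only [show 3 / 2 + 1 = 2 from rfl, Finset.sum_range_succ, Finset.sum_range_zero, zero_add,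
      pow_zero, mul_one, mul_zero, Nat.sub_zero, pow_one, show 3 - 2 = 1 from rfl] at ha
    have e0 : p.eval 0 = a 0 := by
      rw [ha]; simp [y_eval_zero, w_eval_zero]
    have e1 : (derivative p).eval 0 = 6 * a 0 + a 1 := by
      rw [ha]; simp [y, w, derivative_pow]; try ring
    rw [e0] at h0 h1
    rw [e1] at h1
    rw [ha]
    refine add_mem (hC _ h0 _ ?_) ?_
    · have := gen_mem ⊤ (i := 0) (j := 3) (d := 3) (by omega)
      simpa using this
    · rw [mul_assoc]
      refine hC _ ?_ _ ?_
      · push_cast at h1; linarith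
      · have := gen_mem ⊤ (i := 1) (j := 1) (d := 3) (by omega)
        simpa using this

theorem EP.D_mem {d : ℕ} {W κ : Finset α} (h : EP H d W) (hκ : κ ∈ cl H W) :
    D H W ∅ κ ∈ GT 0 d := by
  rw [D]
  refine sum_mem (fun G hG => ?_)
  have hGcl : G ∈ cl H W := cl_of_subset hκ (Finset.mem_powerset.1 hG)
  have hc := h.card_le hGcl
  have h1 := (h.link (e := d - G.card) hGcl (by omega)).FP_mem
  have h2 := GT_ypow h1 G.card
  rw [Nat.sub_add_cancel hc] at h2
  rw [Finset.empty_union, neg_pow, mul_assoc]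
  exact neg_one_pow_mem h2

theorem EP.D_low {d : ℕ} (hd : d ≤ 3) {W κ : Finset α} (h : EP H d W) (hκ : κ ∈ cl H W) :
    D H W ∅ κ ∈ GT ⊤ d := by
  refine low hd (h.D_mem hκ) ?_ (h.D_deriv_ge hκ)
  rw [D_eval_zero]
  split_ifs <;> norm_num

theorem D_eq_link (W σ κ : Finset α) : D H W σ κ = D H (lkF H W σ) ∅ κ := by
  rw [D_link, Finset.union_empty]

theorem mem_cl_link {W σ κ : Finset α} (hdis : Disjoint σ κ) (hcl : σ ∪ κ ∈ cl H W) :
    κ ∈ cl H (lkF H W σ) := by
  rw [mem_cl] at hcl ⊢
  refine ⟨fun x hx => mem_lkF.2 ⟨hcl.1 (Finset.mem_union_right _ hx), fun z hz => ?_⟩,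
    fun x hx z hz => hcl.2 x (Finset.mem_union_right _ hx) z (Finset.mem_union_right _ hz)⟩
  exact hcl.2 z (Finset.mem_union_left _ hz) x (Finset.mem_union_right _ hx)
    (fun h => (Finset.disjoint_left.1 hdis hz) (h ▸ hx))

/-- **rank at most three** -/
theorem EP.tm {d : ℕ} (hd : d ≤ 3) {W : Finset α} (h : EP H d W) : TM H d W := by
  refine ⟨fun σ hσ => h.card_le hσ, fun σ κ hdis hcl e he => ?_⟩
  rw [D_eq_link]
  exact (h.link (mem_cl_union hcl).1 he).D_low (by omega) (mem_cl_link hdis hcl)

theorem coeff_two_FP (W : Finset α) :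
    (FP H W).coeff 2 = (((cl H W).filter (fun σ => σ.card = 2)).card : ℤ) := by
  rw [FP, finsetSum_coeff, Finset.card_filter]
  push_cast
  refine Finset.sum_congr rfl (fun σ _ => ?_)
  rw [coeff_X_pow]
  by_cases h : σ.card = 2
  · rw [if_pos h, if_pos h.symm]
  · rw [if_neg h, if_neg (fun h' => h h'.symm)]

/-- the expansion in rank four -/
theorem EP.four {W : Finset α} (h : EP H 4 W)
    (h2 : 5 * W.card ≤ ((cl H W).filter (fun σ => σ.card = 2)).card + 16) :
    ∃ (n : ℕ) (q : ℤ[X]), q ∈ GT 0 3 ∧ FP H W = (n : ℤ[X]) * w ^ 2 + y * q := by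
  obtain ⟨a, ha, -⟩ := GT_coeffs h.FP_mem
  simp only [show 4 / 2 + 1 = 3 from rfl, Finset.sum_range_succ, Finset.sum_range_zero, zero_add,
    pow_zero, mul_one, mul_zero, Nat.sub_zero, pow_one, show 4 - 2 = 2 from rfl,
    show 2 * 2 = 4 from rfl, Nat.sub_self] at ha
  have e0 := FP_eval_zero (H := H) W
  have e1 := deriv_FP (H := H) W
  have e2 := coeff_two_FP (H := H) W
  have f0 : (FP H W).eval 0 = a 0 := by
    rw [ha]; simp [y_eval_zero, w_eval_zero]
  have f1 : (derivative (FP H W)).eval 0 = 8 * a 0 + a 1 := by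
    rw [ha]; simp [y, w, derivative_pow]; try ring
  have f2 : (FP H W).coeff 2 = 24 * a 0 + 5 * a 1 + a 2 := by
    have : C (a 0) * y ^ 4 + C (a 1) * w * y ^ 2 + C (a 2) * w ^ 2 =
        C (a 0) + C (8 * a 0 + a 1) * X + C (24 * a 0 + 5 * a 1 + a 2) * X ^ 2 +
        C (32 * a 0 + 8 * a 1 + 2 * a 2) * X ^ 3 + C (16 * a 0 + 4 * a 1 + a 2) * X ^ 4 := by
      simp only [y, w, C_add, C_mul]
      have c8 : (C 8 : ℤ[X]) = 8 := rfl
      have c24 : (C 24 : ℤ[X]) = 24 := rfl
      have c5 : (C 5 : ℤ[X]) = 5 := rfl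
      have c32 : (C 32 : ℤ[X]) = 32 := rfl
      have c2 : (C 2 : ℤ[X]) = 2 := rfl
      have c16 : (C 16 : ℤ[X]) = 16 := rfl
      have c4 : (C 4 : ℤ[X]) = 4 := rfl
      rw [c8, c24, c5, c32, c2, c16, c4]
      ring
    rw [ha, this]
    simp only [coeff_add, coeff_C_mul, coeff_X_pow, coeff_X, coeff_C]
    norm_num
  have hW : (5 : ℤ) * W.card ≤ ((cl H W).filter (fun σ => σ.card = 2)).card + 16 := by
    exact_mod_cast h2
  have ha2 : 0 ≤ a 2 := by
    rw [f0] at e0
    rw [f1] at e1
    rw [f2] at e2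
    linarith
  obtain ⟨n, hn⟩ := Int.eq_ofNat_of_zero_le ha2
  refine ⟨n, C (a 0) * y ^ 3 + C (a 1) * (w * y), ?_, ?_⟩
  · have hC : ∀ c : ℤ, ∀ q ∈ GT 0 3, C c * q ∈ GT 0 3 := by
      intro c q hq
      rcases Int.eq_nat_or_neg c with ⟨n, rfl | rfl⟩
      · have : C ((n : ℕ) : ℤ) * q = n • q := by simp
        rw [this]
        exact AddSubmonoid.nsmul_mem _ hq n
      · have : C (-((n : ℕ) : ℤ)) * q = -(n • q) := by simp
        rw [this]
        exact GT_neg (AddSubmonoid.nsmul_mem _ hq n)
    refine add_mem (hC _ _ ?_) (hC _ _ ?_)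
    · have := gen_mem 0 (i := 0) (j := 3) (d := 3) (by omega)
      simpa using this
    · have := gen_mem 0 (i := 1) (j := 1) (d := 3) (by omega)
      simpa using this
  · rw [ha, hn]
    simp only [map_natCast]
    ring

/-- **rank four** -/
theorem EP.tm4 {W : Finset α} (h : EP H 4 W)
    (h2 : 5 * W.card ≤ ((cl H W).filter (fun σ => σ.card = 2)).card + 16) : TM H 4 W := by
  refine ⟨fun σ hσ => h.card_le hσ, fun σ κ hdis hcl e he => ?_⟩
  rw [D_eq_link]
  have hκ := mem_cl_link hdis hcl
  rcases σ.eq_empty_or_nonempty with rfl | hne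
  · rw [Finset.card_empty, add_zero] at he
    subst he
    rw [lkF_empty] at hκ ⊢
    obtain ⟨n, q, hq, hFP⟩ := h.four h2
    -- all other terms are divisible by `y`
    have key : ∃ r ∈ GT 0 3, D H W ∅ κ = (n : ℤ[X]) * w ^ 2 + y * r := by
      have h3 : D H W ∅ κ = FP H W + y * ∑ G ∈ κ.powerset.erase ∅,
          (-1) ^ G.card * (y ^ (G.card - 1) * FP H (lkF H W G)) := by
        rw [D, ← Finset.add_sum_erase _ _ (Finset.empty_mem_powerset κ), Finset.union_empty,
          lkF_empty, Finset.card_empty, pow_zero, one_mul, Finset.mul_sum]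
        congr 1
        refine Finset.sum_congr rfl (fun G hG => ?_)
        have hpos : 0 < G.card := Finset.card_pos.2
          (Finset.nonempty_iff_ne_empty.2 (Finset.mem_erase.1 hG).1)
        obtain ⟨k, hk⟩ : ∃ k, G.card = k + 1 := ⟨G.card - 1, by omega⟩
        rw [Finset.empty_union, hk, Nat.add_sub_cancel, neg_pow, pow_succ y k]
        generalize FP H (lkF H W G) = r
        ring
      rw [h3, hFP]
      refine ⟨q + ∑ G ∈ κ.powerset.erase ∅,
          (-1) ^ G.card * (y ^ (G.card - 1) * FP H (lkF H W G)), add_mem hq (sum_mem ?_), ?_⟩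
      · intro G hG
        obtain ⟨hG0, hG⟩ := Finset.mem_erase.1 hG
        have hGcl : G ∈ cl H W := cl_of_subset hκ (Finset.mem_powerset.1 hG)
        have hc := h.card_le hGcl
        have hpos : 0 < G.card := Finset.card_pos.2 (Finset.nonempty_iff_ne_empty.2 hG0)
        have h5 := (h.link (e := 4 - G.card) hGcl (by omega)).FP_mem
        have h6 := GT_ypow h5 (G.card - 1)
        have h7 : 4 - G.card + (G.card - 1) = 3 := by omega
        rw [h7] at h6
        exact neg_one_pow_mem h6
      · rw [mul_add, add_assoc]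
    obtain ⟨r, hr, hD⟩ := key
    have e0 := D_eval_zero (H := H) W κ
    have e1 := h.D_deriv_ge hκ
    rw [hD] at e0 e1
    have g0 : ((n : ℤ[X]) * w ^ 2 + y * r).eval 0 = r.eval 0 := by
      simp [w_eval_zero, y_eval_zero]
    have g1 : (derivative ((n : ℤ[X]) * w ^ 2 + y * r)).eval 0 =
        2 * r.eval 0 + (derivative r).eval 0 := by
      simp [w, y, derivative_pow]
    rw [g0] at e0
    rw [g1, g0] at e1
    have hr0 : 0 ≤ r.eval 0 := by
      rw [e0]; split_ifs <;> norm_num
    rw [hD]
    refine add_mem ?_ (GT_y (low (le_refl 3) hr hr0 ?_))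
    · have h8 := gen_mem ⊤ (i := 2) (j := 0) (d := 4) (by omega)
      rw [pow_zero, mul_one] at h8
      rw [← nsmul_eq_mul]
      exact AddSubmonoid.nsmul_mem _ h8 n
    · push_cast at e1 ⊢
      linarith
  · have hpos := Finset.card_pos.2 hne
    exact (h.link (mem_cl_union hcl).1 he).D_low (by omega) hκ

/-- two vertices that are not joined -/
theorem tm_pair {a b : α} (hab : a ≠ b) (h : ¬ H.Adj a b) : TM H 1 {a, b} := by
  have hcl : cl H {a, b} = {∅, {a}, {b}} := by
    ext σ
    rw [mem_cl]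
    simp only [Finset.mem_insert, Finset.mem_singleton]
    constructor
    · rintro ⟨h1, h2⟩
      have h3 : ¬ (a ∈ σ ∧ b ∈ σ) := fun h3 => h (h2 a h3.1 b h3.2 hab)
      by_cases ha : a ∈ σ
      · have hb : b ∉ σ := fun hb => h3 ⟨ha, hb⟩
        right; left
        ext x
        rw [Finset.mem_singleton]
        constructor
        · intro hx
          rcases Finset.mem_insert.1 (h1 hx) with h4 | h4
          · exact h4
          · exact absurd (Finset.mem_singleton.1 h4 ▸ hx) hb
        · rintro rfl; exact ha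
      · by_cases hb : b ∈ σ
        · right; right
          ext x
          rw [Finset.mem_singleton]
          constructor
          · intro hx
            rcases Finset.mem_insert.1 (h1 hx) with h4 | h4
            · exact absurd (h4 ▸ hx) ha
            · exact Finset.mem_singleton.1 h4
          · rintro rfl; exact hb
        · left
          apply Finset.eq_empty_of_forall_notMem
          intro x hx
          rcases Finset.mem_insert.1 (h1 hx) with h4 | h4
          · exact ha (h4 ▸ hx)
          · exact hb (Finset.mem_singleton.1 h4 ▸ hx)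
    · rintro (rfl | rfl | rfl)
      · exact ⟨Finset.empty_subset _, fun x hx => absurd hx (Finset.notMem_empty x)⟩
      · refine ⟨by simp, fun x hx z hz hxz => ?_⟩
        rw [Finset.mem_singleton] at hx hz
        exact absurd (hx.trans hz.symm) hxz
      · refine ⟨by simp, fun x hx z hz hxz => ?_⟩
        rw [Finset.mem_singleton] at hx hz
        exact absurd (hx.trans hz.symm) hxz
  refine EP.tm (by norm_num) ⟨?_, ?_⟩
  · intro σ hσ
    rw [hcl] at hσ ⊢
    simp only [Finset.mem_insert, Finset.mem_singleton] at hσ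
    rcases hσ with rfl | rfl | rfl
    · exact ⟨{a}, by simp, by simp, by simp⟩
    · exact ⟨{a}, by simp, by simp, by simp⟩
    · exact ⟨{b}, by simp, by simp, by simp⟩
  · rw [eul_def, hcl]
    intro σ hσ
    have hne1 : ({a} : Finset α) ≠ {b} := fun h' => hab (Finset.singleton_injective h')
    simp only [Finset.mem_insert, Finset.mem_singleton] at hσ
    rcases hσ with rfl | rfl | rfl
    · rw [Finset.filter_true_of_mem (fun x _ => Finset.empty_subset x)]
      rw [Finset.sum_insert (by simp), Finset.sum_insert (by simpa using hab),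
        Finset.sum_singleton]
      simp
    · have : ({∅, {a}, {b}} : Finset (Finset α)).filter (fun τ => {a} ⊆ τ) = {{a}} := by
        ext τ
        simp only [Finset.mem_filter, Finset.mem_insert, Finset.mem_singleton,
          Finset.singleton_subset_iff]
        constructor
        · rintro ⟨rfl | rfl | rfl, h2⟩
          · exact absurd h2 (Finset.notMem_empty a)
          · rfl
          · exact absurd (Finset.mem_singleton.1 h2) hab
        · rintro rfl
          exact ⟨Or.inr (Or.inl rfl), Finset.mem_singleton_self a⟩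
      rw [this]; simp
    · have : ({∅, {a}, {b}} : Finset (Finset α)).filter (fun τ => {b} ⊆ τ) = {{b}} := by
        ext τ
        simp only [Finset.mem_filter, Finset.mem_insert, Finset.mem_singleton,
          Finset.singleton_subset_iff]
        constructor
        · rintro ⟨rfl | rfl | rfl, h2⟩
          · exact absurd h2 (Finset.notMem_empty b)
          · exact absurd (Finset.mem_singleton.1 h2).symm hab
          · rfl
        · rintro rfl
          exact ⟨Or.inr (Or.inr rfl), Finset.mem_singleton_self b⟩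
      rw [this]; simp

end Pool.Agent.TH709.GG
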