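import Pool.Agent.W497.FS.Defs
import Pool.Agent.W497.FS.Sphere
import Pool.Agent.W497.FS.Far

set_option autoImplicit false

/-!
# A class of flag complexes

A flag complex is given by its 1-skeleton: a simple graph `H` on a type `α` and a finite set `W` of
vertices stand for the complex whose faces are the cliques of `H` inside `W` (`cl H W`).  The link
of a face `σ` is the complex on the set `lkF H W σ` of the common neighbours of `σ` in `W`.
-/

namespace Pool.Agent.TH709.GG

open Pool.Agent.W497.FS

/-- The complex on `W` is a flag Eulerian complex of rank `d` (dimension `d - 1`): every face lies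
in a face with `d` vertices and no face has more, and the faces containing a given face satisfy the
Euler relation (`Eul`).  Every flag homology `(d-1)`-sphere is one. -/
structure FlagEul {α : Type*} (H : SimpleGraph α) (d : ℕ) (W : Finset α) : Prop where
  pure : ∀ σ ∈ cl H W, ∃ τ ∈ cl H W, σ ⊆ τ ∧ τ.card = d
  le : ∀ σ ∈ cl H W, σ.card ≤ d
  eul : Eul H d W

open scoped Classical in
/-- The class.  `Cls d α H W` says that the flag complex on `W`, of rank `d`, can be built by the
following rules. -/
inductive Cls : ℕ → (α : Type) → SimpleGraph α → Finset α → Prop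
  /-- every flag Eulerian complex of rank at most three -/
  | small {d : ℕ} {α : Type} {H : SimpleGraph α} {W : Finset α} :
      d ≤ 3 → FlagEul H d W → Cls d α H W
  /-- every flag Eulerian complex of rank four with `f₁ - 5 f₀ + 16 ≥ 0` -/
  | four {α : Type} {H : SimpleGraph α} {W : Finset α} :
      FlagEul H 4 W → 5 * W.card ≤ ((cl H W).filter (fun σ => σ.card = 2)).card + 16 →
      Cls 4 α H W
  /-- isomorphic copies -/
  | iso {d : ℕ} {α β : Type} {H : SimpleGraph α} {K : SimpleGraph β} {W : Finset α} (f : α → β) :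
      Cls d α H W → Set.InjOn f W → (∀ a ∈ W, ∀ b ∈ W, H.Adj a b ↔ K.Adj (f a) (f b)) →
      Cls d β K (W.image f)
  /-- links of faces -/
  | link {d : ℕ} {α : Type} {H : SimpleGraph α} {W σ : Finset α} :
      Cls (d + σ.card) α H W → σ ∈ cl H W → Cls d α H (lkF H W σ)
  /-- joins -/
  | join {d e : ℕ} {α : Type} {H : SimpleGraph α} {A B : Finset α} :
      Cls d α H A → Cls e α H B → (∀ a ∈ A, ∀ b ∈ B, H.Adj a b) → Cls (d + e) α H (A ∪ B)
  /-- gluing two complexes after removing from each of them a vertex, along the links of the two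
  vertices: no edge joins `A \ B` to `B \ A`, the vertex `c` is joined exactly to `A ∩ B`, and the
  complexes on `A ∪ {c}` and `B ∪ {c}` are in the class -/
  | glue {d : ℕ} {α : Type} {H : SimpleGraph α} {A B : Finset α} {c : α} :
      c ∉ A ∪ B → (∀ x ∈ A ∪ B, H.Adj c x ↔ x ∈ A ∧ x ∈ B) →
      (∀ a ∈ A, ∀ b ∈ B, H.Adj a b → a ∈ B ∨ b ∈ A) →
      Cls d α H (insert c A) → Cls d α H (insert c B) → Cls d α H (A ∪ B)
  /-- inverse edge contractions: the edge `uv` of the complex on `B ∪ {u, v}` lies in no induced
  4-cycle, its contraction to the vertex `m` gives the complex on `B ∪ {m}`, which is in the class,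
  and the links of `u` and `v` are in the class -/
  | split {d : ℕ} {α : Type} {H : SimpleGraph α} {B : Finset α} {u v m : α} :
      u ∉ B → v ∉ B → m ∉ B → H.Adj u v → (∀ x ∈ B, H.Adj m x ↔ H.Adj u x ∨ H.Adj v x) →
      (∀ x ∈ B, ∀ z ∈ B, H.Adj u x → ¬ H.Adj v x → H.Adj v z → ¬ H.Adj u z → ¬ H.Adj x z) →
      Cls (d + 1) α H (insert m B) → Cls d α H (lk H (insert u (insert v B)) u) →
      Cls d α H (lk H (insert u (insert v B)) v) → Cls (d + 1) α H (insert u (insert v B))
  /-- edge subdivisions: the edge `mt` of the complex on `B ∪ {m}` is subdivided by the vertex `v`;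
  the vertex `m` of the new complex is called `u` -/
  | subdivide {d : ℕ} {α : Type} {H : SimpleGraph α} {B : Finset α} {u v m t : α} :
      u ∉ B → v ∉ B → m ∉ B → t ∈ B → H.Adj m t → H.Adj u v →
      (∀ x ∈ B, H.Adj u x ↔ H.Adj m x ∧ x ≠ t) →
      (∀ x ∈ B, H.Adj v x ↔ x = t ∨ (H.Adj m x ∧ H.Adj t x)) →
      Cls d α H (insert m B) → Cls d α H (insert u (insert v B))
  /-- complexes with all vertex links in the class in which every facet contains a vertex `v` such
  that no face with three vertices consists of non-neighbours of `v` -/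
  | facet {d : ℕ} {α : Type} {H : SimpleGraph α} {W : Finset α} :
      Eul H (d + 1) W → (∀ v ∈ W, Cls d α H (lk H W v)) →
      (∀ κ ∈ cl H W, ∃ v, insert v κ ∈ cl H W ∧
        ∀ τ ∈ cl H W, (∀ x ∈ τ, x ≠ v ∧ ¬ H.Adj v x) → τ.card ≤ 2) → Cls (d + 1) α H W

/-- `g` is the gamma-vector of the complex on `W`, of rank `d`, extended by zero -/
def IsGam {α : Type*} (H : SimpleGraph α) (d : ℕ) (W : Finset α) (g : ℕ → ℤ) : Prop :=
  (∀ i, d < 2 * i → g i = 0) ∧
  ∑ j ∈ Finset.range (d + 1), Polynomial.C ((((cl H W).filter (fun σ => σ.card = j)).card : ℕ) : ℤ)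
      * Polynomial.X ^ j * (1 - Polynomial.X) ^ (d - j)
    = ∑ i ∈ Finset.range (d / 2 + 1),
      Polynomial.C (g i) * Polynomial.X ^ i * (1 + Polynomial.X) ^ (d - 2 * i)

end Pool.Agent.TH709.GG
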