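import Pool.Agent.W497.FS.Gamma

set_option autoImplicit false
set_option linter.unusedSectionVars false

/-! # Total monotonicity: definition, links, joins, transport -/

namespace Pool.Agent.TH709.GG

open Polynomial
open Pool.Agent.W497.FS

variable {α : Type*} {H : SimpleGraph α} [DecidableEq α]

/-- the alternating sum of the face polynomials of the links of `σ ∪ G`, `G ⊆ κ` -/
noncomputable def D (H : SimpleGraph α) (W σ κ : Finset α) : ℤ[X] :=
  ∑ G ∈ κ.powerset, (-y) ^ G.card * FP H (lkF H W (σ ∪ G))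

/-- total monotonicity in rank `d` -/
structure TM (H : SimpleGraph α) (d : ℕ) (W : Finset α) : Prop where
  le : ∀ σ ∈ cl H W, σ.card ≤ d
  mem : ∀ σ κ : Finset α, Disjoint σ κ → σ ∪ κ ∈ cl H W → ∀ e, e + σ.card = d →
    D H W σ κ ∈ GT ⊤ e

theorem D_empty (W σ : Finset α) : D H W σ ∅ = FP H (lkF H W σ) := by
  simp [D]

theorem D_insert {W σ κ : Finset α} {v : α} (hv : v ∉ κ) :
    D H W σ (insert v κ) = D H W σ κ - y * D H W (insert v σ) κ := by
  have h1 : D H W σ (insert v κ) = D H W σ κ +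
      ∑ G ∈ κ.powerset, (-y) ^ (insert v G).card * FP H (lkF H W (σ ∪ insert v G)) :=
    Finset.sum_powerset_insert hv _
  have h2 : ∑ G ∈ κ.powerset, (-y) ^ (insert v G).card * FP H (lkF H W (σ ∪ insert v G)) =
      -(y * D H W (insert v σ) κ) := by
    rw [D, Finset.mul_sum, ← Finset.sum_neg_distrib]
    refine Finset.sum_congr rfl (fun G hG => ?_)
    have hvG : v ∉ G := fun h => hv (Finset.mem_powerset.1 hG h)
    rw [Finset.card_insert_of_notMem hvG, pow_succ, Finset.union_insert, Finset.insert_union]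
    generalize FP H (lkF H W (insert v (σ ∪ G))) = q
    ring
  rw [h1, h2, sub_eq_add_neg]

theorem D_link (W ρ σ κ : Finset α) : D H (lkF H W ρ) σ κ = D H W (ρ ∪ σ) κ := by
  rw [D, D]
  refine Finset.sum_congr rfl (fun G _ => ?_)
  rw [lkF_lkF, Finset.union_assoc]

theorem mem_cl_union {W σ κ : Finset α} (h : σ ∪ κ ∈ cl H W) : σ ∈ cl H W ∧ κ ∈ cl H W :=
  ⟨cl_of_subset h Finset.subset_union_left, cl_of_subset h Finset.subset_union_right⟩

theorem TM.link {d e : ℕ} {W ρ : Finset α} (h : TM H d W) (hρ : ρ ∈ cl H W)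
    (he : e + ρ.card = d) : TM H e (lkF H W ρ) := by
  constructor
  · intro σ hσ
    have h1 := h.le _ (union_mem_cl hρ hσ)
    rw [Finset.card_union_of_disjoint (disjoint_of_mem_cl_lkF hσ)] at h1
    omega
  · intro σ κ hd hcl e' he'
    rw [D_link]
    have h1 := union_mem_cl hρ hcl
    have h2 := disjoint_of_mem_cl_lkF hcl
    rw [Finset.disjoint_union_right] at h2
    refine h.mem _ _ ?_ ?_ _ ?_
    · rw [Finset.disjoint_union_left]
      exact ⟨h2.2, hd⟩
    · rw [Finset.union_assoc]; exact h1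
    · rw [Finset.card_union_of_disjoint h2.1]; omega

/-- restriction of an alternating sum to the subsets inside `S` -/
theorem sum_restrict (f : Finset α → ℤ[X]) (σ κ S : Finset α) :
    ∑ G ∈ κ.powerset, (-y) ^ G.card * (if σ ∪ G ⊆ S then f G else 0) =
      if σ ⊆ S then ∑ G ∈ (κ ∩ S).powerset, (-y) ^ G.card * f G else 0 := by
  by_cases hσ : σ ⊆ S
  · rw [if_pos hσ]
    have h1 : (κ ∩ S).powerset = κ.powerset.filter (fun G => σ ∪ G ⊆ S) := by
      ext G
      rw [Finset.mem_powerset, Finset.mem_filter, Finset.mem_powerset, Finset.subset_inter_iff,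
        Finset.union_subset_iff]
      tauto
    rw [h1, Finset.sum_filter]
    refine Finset.sum_congr rfl (fun G _ => ?_)
    split_ifs <;> simp
  · rw [if_neg hσ]
    refine Finset.sum_eq_zero (fun G _ => ?_)
    rw [if_neg (fun h => hσ (Finset.union_subset_iff.1 h).1), mul_zero]

theorem lkF_empty (W : Finset α) : lkF H W ∅ = W := by
  ext x
  rw [mem_lkF]
  simp

/-! ## Joins -/

theorem lkF_join {A B ρ : Finset α} (hAB : Full H A B) (hρ : ρ ⊆ A ∪ B) :
    lkF H (A ∪ B) ρ = lkF H A (ρ ∩ A) ∪ lkF H B (ρ ∩ B) := by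
  ext x
  simp only [mem_lkF, Finset.mem_union, Finset.mem_inter]
  constructor
  · rintro ⟨h1 | h1, h2⟩
    · exact Or.inl ⟨h1, fun z hz => h2 z hz.1⟩
    · exact Or.inr ⟨h1, fun z hz => h2 z hz.1⟩
  · rintro (⟨h1, h2⟩ | ⟨h1, h2⟩)
    · refine ⟨Or.inl h1, fun z hz => ?_⟩
      rcases Finset.mem_union.1 (hρ hz) with h | h
      · exact h2 z ⟨hz, h⟩
      · exact (hAB x h1 z h).symm
    · refine ⟨Or.inr h1, fun z hz => ?_⟩
      rcases Finset.mem_union.1 (hρ hz) with h | h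
      · exact hAB z h x h1
      · exact h2 z ⟨hz, h⟩

theorem FP_join' {A B : Finset α} (hAB : Full H A B) : FP H (A ∪ B) = FP H A * FP H B := by
  rw [FP_eq, FP_eq, FP_eq]
  exact fe_join hAB X

theorem D_join {A B : Finset α} (hAB : Full H A B) (κ : Finset α) :
    ∀ σ : Finset α, σ ⊆ A ∪ B → κ ⊆ A ∪ B → Disjoint σ κ →
      D H (A ∪ B) σ κ = D H A (σ ∩ A) (κ ∩ A) * D H B (σ ∩ B) (κ ∩ B) := by
  have hd := hAB.disjoint
  rw [Finset.disjoint_left] at hd
  induction κ using Finset.induction_on with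
  | empty =>
    intro σ hσ _ _
    rw [Finset.empty_inter, Finset.empty_inter, D_empty, D_empty, D_empty, lkF_join hAB hσ]
    refine FP_join' (hAB.mono ?_ ?_)
    · exact fun x hx => (mem_lkF.1 hx).1
    · exact fun x hx => (mem_lkF.1 hx).1
  | insert v κ hv ih =>
    intro σ hσ hκ hdis
    rw [Finset.disjoint_insert_right] at hdis
    have hvAB : v ∈ A ∪ B := hκ (Finset.mem_insert_self v κ)
    have hκ' : κ ⊆ A ∪ B := (Finset.subset_insert v κ).trans hκ
    have hσ' : insert v σ ⊆ A ∪ B := Finset.insert_subset hvAB hσ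
    have hdis' : Disjoint (insert v σ) κ := Finset.disjoint_insert_left.2 ⟨hv, hdis.2⟩
    rw [D_insert hv, ih σ hσ hκ' hdis.2, ih (insert v σ) hσ' hκ' hdis']
    by_cases hvA : v ∈ A
    · have hvB : v ∉ B := hd hvA
      rw [Finset.insert_inter_of_mem hvA, Finset.insert_inter_of_mem hvA,
        Finset.insert_inter_of_notMem hvB, Finset.insert_inter_of_notMem hvB,
        D_insert (fun h => hv (Finset.mem_inter.1 h).1)]
      ring
    · have hvB : v ∈ B := (Finset.mem_union.1 hvAB).resolve_left hvA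
      rw [Finset.insert_inter_of_mem hvB, Finset.insert_inter_of_mem hvB,
        Finset.insert_inter_of_notMem hvA, Finset.insert_inter_of_notMem hvA,
        D_insert (fun h => hv (Finset.mem_inter.1 h).1)]
      ring

theorem card_join {A B σ : Finset α} (hAB : Full H A B) (hσ : σ ⊆ A ∪ B) :
    (σ ∩ A).card + (σ ∩ B).card = σ.card := by
  rw [← Finset.card_union_of_disjoint, ← Finset.inter_union_distrib_left,
    Finset.inter_eq_left.2 hσ]
  exact hAB.disjoint.mono Finset.inter_subset_right Finset.inter_subset_right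

theorem inter_mem_cl {A W σ : Finset α} (hσ : σ ∈ cl H W) : σ ∩ A ∈ cl H A := by
  rw [mem_cl] at hσ ⊢
  exact ⟨Finset.inter_subset_right, fun p hp q hq hpq =>
    hσ.2 p (Finset.mem_inter.1 hp).1 q (Finset.mem_inter.1 hq).1 hpq⟩

theorem TM.join {d₁ d₂ : ℕ} {A B : Finset α} (hAB : Full H A B) (hA : TM H d₁ A)
    (hB : TM H d₂ B) : TM H (d₁ + d₂) (A ∪ B) := by
  constructor
  · intro σ hσ
    have h1 := hA.le _ (inter_mem_cl (A := A) hσ)
    have h2 := hB.le _ (inter_mem_cl (A := B) hσ)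
    have h3 := card_join hAB (mem_cl.1 hσ).1
    omega
  · intro σ κ hdis hcl e he
    obtain ⟨hσ, hκ⟩ := mem_cl_union hcl
    rw [D_join hAB κ σ (mem_cl.1 hσ).1 (mem_cl.1 hκ).1 hdis]
    have h1 := hA.le _ (inter_mem_cl (A := A) hσ)
    have h2 := hB.le _ (inter_mem_cl (A := B) hσ)
    have h3 := card_join hAB (mem_cl.1 hσ).1
    obtain ⟨e₁, he₁⟩ : ∃ e₁, e₁ + (σ ∩ A).card = d₁ := ⟨d₁ - (σ ∩ A).card, by omega⟩
    obtain ⟨e₂, he₂⟩ : ∃ e₂, e₂ + (σ ∩ B).card = d₂ := ⟨d₂ - (σ ∩ B).card, by omega⟩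
    have he' : e = e₁ + e₂ := by omega
    rw [he']
    refine GT_mul (hA.mem _ _ ?_ ?_ e₁ he₁) (hB.mem _ _ ?_ ?_ e₂ he₂)
    · exact hdis.mono Finset.inter_subset_left Finset.inter_subset_left
    · rw [← Finset.union_inter_distrib_right]; exact inter_mem_cl hcl
    · exact hdis.mono Finset.inter_subset_left Finset.inter_subset_left
    · rw [← Finset.union_inter_distrib_right]; exact inter_mem_cl hcl

/-! ## Transport along injective maps -/

section transport

variable {β : Type*} [DecidableEq β] {H' : SimpleGraph β} {f : α → β}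

theorem cl_image {W : Finset α} (hf : Set.InjOn f W)
    (hadj : ∀ a ∈ W, ∀ b ∈ W, H.Adj a b ↔ H'.Adj (f a) (f b)) {σ : Finset α} (hσ : σ ⊆ W) :
    σ.image f ∈ cl H' (W.image f) ↔ σ ∈ cl H W := by
  rw [mem_cl, mem_cl]
  constructor
  · rintro ⟨-, h⟩
    refine ⟨hσ, fun a ha b hb hab => ?_⟩
    rw [hadj a (hσ ha) b (hσ hb)]
    exact h _ (Finset.mem_image_of_mem f ha) _ (Finset.mem_image_of_mem f hb)
      (fun h' => hab (hf (hσ ha) (hσ hb) h'))
  · rintro ⟨-, h⟩
    refine ⟨Finset.image_subset_image hσ, fun a ha b hb hab => ?_⟩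
    obtain ⟨a, ha1, rfl⟩ := Finset.mem_image.1 ha
    obtain ⟨b, hb1, rfl⟩ := Finset.mem_image.1 hb
    rw [← hadj a (hσ ha1) b (hσ hb1)]
    exact h a ha1 b hb1 (fun h' => hab (h' ▸ rfl))

theorem FP_image {W : Finset α} (hf : Set.InjOn f W)
    (hadj : ∀ a ∈ W, ∀ b ∈ W, H.Adj a b ↔ H'.Adj (f a) (f b)) :
    FP H' (W.image f) = FP H W := by
  rw [FP, FP]
  symm
  refine Finset.sum_bij (fun σ _ => σ.image f) ?_ ?_ ?_ ?_
  · intro σ hσ
    exact (cl_image hf hadj (mem_cl.1 hσ).1).2 hσ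
  · intro σ hσ τ hτ h
    have h1 := (mem_cl.1 hσ).1
    have h2 := (mem_cl.1 hτ).1
    ext x
    constructor
    · intro hx
      have : f x ∈ τ.image f := h ▸ Finset.mem_image_of_mem f hx
      obtain ⟨z, hz, hzx⟩ := Finset.mem_image.1 this
      rwa [← hf (h2 hz) (h1 hx) hzx]
    · intro hx
      have : f x ∈ σ.image f := h.symm ▸ Finset.mem_image_of_mem f hx
      obtain ⟨z, hz, hzx⟩ := Finset.mem_image.1 this
      rwa [← hf (h1 hz) (h2 hx) hzx]
  · intro τ hτ
    have h1 := (mem_cl.1 hτ).1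
    obtain ⟨σ, hσ, rfl⟩ := Finset.subset_image_iff.1 h1
    have hσ' : σ ⊆ W := hσ
    exact ⟨σ, (cl_image hf hadj hσ').1 hτ, rfl⟩
  · intro σ hσ
    rw [Finset.card_image_of_injOn (hf.mono (by exact_mod_cast (mem_cl.1 hσ).1))]

theorem lkF_image {W ρ : Finset α} (hf : Set.InjOn f W)
    (hadj : ∀ a ∈ W, ∀ b ∈ W, H.Adj a b ↔ H'.Adj (f a) (f b)) (hρ : ρ ⊆ W) :
    lkF H' (W.image f) (ρ.image f) = (lkF H W ρ).image f := by
  ext b
  rw [mem_lkF, Finset.mem_image, Finset.mem_image]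
  constructor
  · rintro ⟨⟨a, ha, rfl⟩, h⟩
    refine ⟨a, mem_lkF.2 ⟨ha, fun z hz => ?_⟩, rfl⟩
    rw [hadj z (hρ hz) a ha]
    exact h _ (Finset.mem_image_of_mem f hz)
  · rintro ⟨a, ha, rfl⟩
    obtain ⟨ha, h⟩ := mem_lkF.1 ha
    refine ⟨⟨a, ha, rfl⟩, fun z hz => ?_⟩
    obtain ⟨z, hz1, rfl⟩ := Finset.mem_image.1 hz
    rw [← hadj z (hρ hz1) a ha]
    exact h z hz1

theorem D_image {W : Finset α} (hf : Set.InjOn f W)
    (hadj : ∀ a ∈ W, ∀ b ∈ W, H.Adj a b ↔ H'.Adj (f a) (f b)) (κ : Finset α) :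
    ∀ σ : Finset α, σ ⊆ W → κ ⊆ W → D H' (W.image f) (σ.image f) (κ.image f) = D H W σ κ := by
  induction κ using Finset.induction_on with
  | empty =>
    intro σ hσ _
    rw [Finset.image_empty, D_empty, D_empty, lkF_image hf hadj hσ]
    have hsub : lkF H W σ ⊆ W := fun x hx => (mem_lkF.1 hx).1
    exact FP_image (hf.mono (by exact_mod_cast hsub))
      (fun a ha b hb => hadj a (hsub ha) b (hsub hb))
  | insert v κ hv ih =>
    intro σ hσ hκ
    have hvW : v ∈ W := hκ (Finset.mem_insert_self v κ)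
    have hκ' : κ ⊆ W := (Finset.subset_insert v κ).trans hκ
    have hfv : f v ∉ κ.image f := by
      intro h
      obtain ⟨z, hz, hzv⟩ := Finset.mem_image.1 h
      exact hv (hf (hκ' hz) hvW hzv ▸ hz)
    rw [Finset.image_insert, D_insert hfv, D_insert hv, ih σ hσ hκ', ← Finset.image_insert,
      ih _ (Finset.insert_subset hvW hσ) hκ']

theorem TM.image {d : ℕ} {W : Finset α} (h : TM H d W) (hf : Set.InjOn f W)
    (hadj : ∀ a ∈ W, ∀ b ∈ W, H.Adj a b ↔ H'.Adj (f a) (f b)) : TM H' d (W.image f) := by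
  have key : ∀ τ ∈ cl H' (W.image f), ∃ σ ∈ cl H W, τ = σ.image f ∧ σ.card = τ.card := by
    intro τ hτ
    obtain ⟨σ, hσ, rfl⟩ := Finset.subset_image_iff.1 (mem_cl.1 hτ).1
    have hσ' : σ ⊆ W := hσ
    exact ⟨σ, (cl_image hf hadj hσ').1 hτ, rfl,
      (Finset.card_image_of_injOn (hf.mono (by exact_mod_cast hσ'))).symm⟩
  constructor
  · intro τ hτ
    obtain ⟨σ, hσ, -, hc⟩ := key τ hτ
    rw [← hc]
    exact h.le σ hσ
  · intro τ κ' hdis hcl e he
    obtain ⟨hτ, hκ⟩ := mem_cl_union hcl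
    obtain ⟨σ, hσ, rfl, hc⟩ := key τ hτ
    obtain ⟨κ, hκ', rfl, -⟩ := key κ' hκ
    have h1 := (mem_cl.1 hσ).1
    have h2 := (mem_cl.1 hκ').1
    rw [D_image hf hadj κ σ h1 h2]
    refine h.mem σ κ ?_ ?_ e (by omega)
    · rw [Finset.disjoint_left] at hdis ⊢
      exact fun x hx hx' => hdis (Finset.mem_image_of_mem f hx) (Finset.mem_image_of_mem f hx')
    · rw [← Finset.image_union] at hcl
      exact (cl_image hf hadj (Finset.union_subset h1 h2)).1 hcl

end transport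

end Pool.Agent.TH709.GG
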