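import Pool.Agent.TH709.GG.Main
import Pool.Agent.W497.FS.FarThm
import Pool.Agent.W216.FS.BB
import Pool.Agent.W216.FS.HR

set_option autoImplicit false
set_option linter.unusedSectionVars false
set_option linter.unusedVariables false

/-! # Unions of acyclic complexes; a matching of far triangles with far edges -/

namespace Pool.Agent.TH709.GG.F3

open Pool.Agent.W497.FS

variable {k : Type} [Field k] {α : Type} [LinearOrder α] [Fintype α] {H : SimpleGraph α}

/-- a chain supported on the sets with `j` elements satisfying `P` -/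
def OnP (P : Finset α → Prop) (j : ℕ) (c : Finset α → k) : Prop :=
  ∀ A, c A ≠ 0 → P A ∧ A.card = j

/-- no homology in degree `j - 1` -/
def ExP (k : Type) [Field k] (P : Finset α → Prop) (j : ℕ) : Prop :=
  ∀ c : Finset α → k, OnP P j c → bd c = 0 → ∃ b : Finset α → k, OnP P (j + 1) b ∧ bd b = c

theorem bd_bd (c : Finset α → k) : bd (bd c) = 0 := Pool.Agent.W216.FS.BB.main k α c

theorem OnP.bd {P : Finset α → Prop} (hP : ∀ A B, A ⊆ B → P B → P A) {j : ℕ}
    {c : Finset α → k} (h : OnP P (j + 1) c) : OnP P j (bd c) := by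
  intro A hA
  rw [Pool.Agent.W497.FS.bd] at hA
  obtain ⟨v, hv, hne⟩ := Finset.exists_ne_zero_of_sum_ne_zero hA
  rw [Finset.mem_compl] at hv
  obtain ⟨h1, h2⟩ := h (insert v A) (fun h' => hne (by rw [h', mul_zero]))
  rw [Finset.card_insert_of_notMem hv] at h2
  exact ⟨hP _ _ (Finset.subset_insert v A) h1, by omega⟩

theorem OnP.add {P : Finset α → Prop} {j : ℕ} {b c : Finset α → k} (hb : OnP P j b)
    (hc : OnP P j c) : OnP P j (b + c) := by
  intro A hA
  by_cases h : b A = 0
  · exact hc A (fun h' => hA (by rw [Pi.add_apply, h, h', add_zero]))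
  · exact hb A h

theorem OnP.smul {P : Finset α → Prop} {j : ℕ} {c : Finset α → k} (hc : OnP P j c) (a : k) :
    OnP P j (a • c) := by
  intro A hA
  exact hc A (fun h' => hA (by rw [Pi.smul_apply, h', smul_zero]))

theorem OnP.mono {P Q : Finset α → Prop} (hPQ : ∀ A, P A → Q A) {j : ℕ} {c : Finset α → k}
    (hc : OnP P j c) : OnP Q j c := fun A hA => ⟨hPQ A (hc A hA).1, (hc A hA).2⟩

/-- Mayer-Vietoris -/
theorem ExP.union {P Q : Finset α → Prop} (hP : ∀ A B, A ⊆ B → P B → P A)
    (hQ : ∀ A B, A ⊆ B → Q B → Q A) (eP : ∀ j, ExP k P j) (eQ : ∀ j, ExP k Q j)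
    (ePQ : ∀ j, ExP k (fun A => P A ∧ Q A) j) (j : ℕ) : ExP k (fun A => P A ∨ Q A) j := by
  classical
  intro c hc h0
  rcases j with _ | j
  · have he : ∀ A, c A ≠ 0 → A = ∅ := fun A hA => Finset.card_eq_zero.1 (hc A hA).2
    by_cases hPe : P ∅
    · obtain ⟨b, hb, hbc⟩ := eP 0 c (fun A hA => ⟨by rw [he A hA]; exact hPe, (hc A hA).2⟩) h0
      exact ⟨b, hb.mono (fun A h => Or.inl h), hbc⟩
    · obtain ⟨b, hb, hbc⟩ := eQ 0 c (fun A hA => ⟨by
        have h1 := (hc A hA).1
        rw [he A hA] at h1 ⊢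
        exact h1.resolve_left hPe, (hc A hA).2⟩) h0
      exact ⟨b, hb.mono (fun A h => Or.inr h), hbc⟩
  · set cP : Finset α → k := fun A => if P A then c A else 0 with hcPdef
    set cQ : Finset α → k := fun A => if P A then 0 else c A with hcQdef
    have hsum : cP + cQ = c := by
      funext A
      simp only [hcPdef, hcQdef, Pi.add_apply]
      split_ifs <;> simp
    have hcP : OnP P (j + 1) cP := by
      intro A hA
      simp only [hcPdef] at hA
      split_ifs at hA with h
      · exact ⟨h, (hc A hA).2⟩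
      · exact absurd rfl hA
    have hcQ : OnP Q (j + 1) cQ := by
      intro A hA
      simp only [hcQdef] at hA
      split_ifs at hA with h
      · exact absurd rfl hA
      · exact ⟨(hc A hA).1.resolve_left h, (hc A hA).2⟩
    have hb : Pool.Agent.W497.FS.bd cP + Pool.Agent.W497.FS.bd cQ = 0 := by rw [← bd_add, hsum, h0]
    have h1 : OnP (fun A => P A ∧ Q A) j (Pool.Agent.W497.FS.bd cP) := by
      intro A hA
      obtain ⟨h2, h3⟩ := hcP.bd hP A hA
      have h4 : Pool.Agent.W497.FS.bd cQ A ≠ 0 := by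
        intro h5
        have h6 := congrFun hb A
        rw [Pi.add_apply, h5, add_zero, Pi.zero_apply] at h6
        exact hA h6
      exact ⟨⟨h2, (hcQ.bd hQ A h4).1⟩, h3⟩
    obtain ⟨e, he, hbe⟩ := ePQ j (Pool.Agent.W497.FS.bd cP) h1 (bd_bd cP)
    obtain ⟨b1, hb1, hbc1⟩ := eP (j + 1) (cP + (-1 : k) • e)
      (hcP.add ((he.mono (fun A h => h.1)).smul _))
      (by rw [bd_add, bd_smul, hbe]; simp)
    obtain ⟨b2, hb2, hbc2⟩ := eQ (j + 1) (cQ + e)
      (hcQ.add (he.mono (fun A h => h.2))) (by rw [bd_add, hbe, add_comm]; exact hb)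
    refine ⟨b1 + b2, (hb1.mono (fun A h => Or.inl h)).add (hb2.mono (fun A h => Or.inr h)), ?_⟩
    rw [bd_add, hbc1, hbc2, ← hsum]
    funext A
    simp only [Pi.add_apply, Pi.smul_apply, smul_eq_mul]
    ring

theorem mem_far {W G A : Finset α} {v : α} : A ∈ cl H (nn H (lkF H W G) v) ↔
    A ∈ cl H (nn H W v) ∧ ∀ g ∈ G, ∀ a ∈ A, H.Adj g a := by
  rw [mem_cl, mem_cl]
  constructor
  · rintro ⟨h1, h2⟩
    refine ⟨⟨fun a ha => ?_, h2⟩, fun g hg a ha => ?_⟩
    · obtain ⟨h3, h4⟩ := mem_nn.1 (h1 ha)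
      exact mem_nn.2 ⟨(mem_lkF.1 h3).1, h4⟩
    · exact (mem_lkF.1 (mem_nn.1 (h1 ha)).1).2 g hg
  · rintro ⟨⟨h1, h2⟩, h3⟩
    refine ⟨fun a ha => ?_, h2⟩
    obtain ⟨h4, h5⟩ := mem_nn.1 (h1 ha)
    exact mem_nn.2 ⟨mem_lkF.2 ⟨h4, fun g hg => h3 g hg a ha⟩, h5⟩

/-- the faces far from `v` in the link of `G` -/
theorem exFar {d : ℕ} {W G : Finset α} {v : α} (hS : HS k H d W) (hN : NP H d W) (hv : v ∉ G)
    (hG : insert v G ∈ cl H W) (j : ℕ) :
    ExP k (fun A => A ∈ cl H (nn H (lkF H W G) v)) j := by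
  have hGcl : G ∈ cl H W := cl_of_subset hG (Finset.subset_insert v G)
  obtain ⟨e, he, hNP, -, -⟩ := hN.lkF hGcl
  have hm := mem_cl.1 hG
  have hvm : v ∈ lkF H W G := mem_lkF.2 ⟨hm.1 (Finset.mem_insert_self v G), fun z hz =>
    hm.2 z (Finset.mem_insert_of_mem hz) v (Finset.mem_insert_self v G) (fun h => hv (h ▸ hz))⟩
  exact acyclic_nn (hS.lkF hGcl he) hNP hvm j

/-- the union of the sets of faces far from `v` in the links of `G ∪ {z}`, `z ∈ Z` -/
theorem exUnion {d : ℕ} {W : Finset α} {v : α} (hS : HS k H d W) (hN : NP H d W)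
    (Z : Finset α) : ∀ G : Finset α, Z.Nonempty → v ∉ Z → v ∉ G → insert v (Z ∪ G) ∈ cl H W →
      ∀ j, ExP k (fun A => ∃ z ∈ Z, A ∈ cl H (nn H (lkF H W (insert z G)) v)) j := by
  induction Z using Finset.induction_on with
  | empty => intro G h; exact absurd h Finset.not_nonempty_empty
  | insert z Z hz ih =>
    intro G _ hvZ hvG hcl j
    have hvz : v ≠ z := fun h => hvZ (h ▸ Finset.mem_insert_self z Z)
    have hvZ' : v ∉ Z := fun h => hvZ (Finset.mem_insert_of_mem h)
    have hvzG : v ∉ insert z G := by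
      rw [Finset.mem_insert]; rintro (h | h)
      · exact hvz h
      · exact hvG h
    have hzcl : insert v (insert z G) ∈ cl H W := by
      refine cl_of_subset hcl (Finset.insert_subset_insert v ?_)
      intro x hx
      rcases Finset.mem_insert.1 hx with h | h
      · rw [h]; exact Finset.mem_union_left _ (Finset.mem_insert_self z Z)
      · exact Finset.mem_union_right _ h
    rcases Z.eq_empty_or_nonempty with hZ | hZ
    · have heq : (fun A => ∃ z' ∈ insert z Z, A ∈ cl H (nn H (lkF H W (insert z' G)) v)) =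
          (fun A => A ∈ cl H (nn H (lkF H W (insert z G)) v)) := by
        funext A
        rw [hZ]
        simp
      rw [heq]
      exact exFar hS hN hvzG hzcl j
    · have h1 : insert v (Z ∪ G) ∈ cl H W := by
        refine cl_of_subset hcl (Finset.insert_subset_insert v ?_)
        exact Finset.union_subset_union_left (Finset.subset_insert z Z)
      have h2 : insert v (Z ∪ insert z G) ∈ cl H W := by
        rw [Finset.union_insert, ← Finset.insert_union]
        exact hcl
      have heq : (fun A => ∃ z' ∈ insert z Z, A ∈ cl H (nn H (lkF H W (insert z' G)) v)) =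
          (fun A => (∃ z' ∈ Z, A ∈ cl H (nn H (lkF H W (insert z' G)) v)) ∨
            A ∈ cl H (nn H (lkF H W (insert z G)) v)) := by
        funext A
        rw [Finset.exists_mem_insert, or_comm]
      rw [heq]
      refine ExP.union ?_ ?_ (ih G hZ hvZ' hvG h1) (exFar hS hN hvzG hzcl) ?_ j
      · rintro A B hAB ⟨z', hz', h⟩
        exact ⟨z', hz', cl_of_subset h hAB⟩
      · intro A B hAB h
        exact cl_of_subset h hAB
      · have heq2 : (fun A => (∃ z' ∈ Z, A ∈ cl H (nn H (lkF H W (insert z' G)) v)) ∧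
            A ∈ cl H (nn H (lkF H W (insert z G)) v)) =
            (fun A => ∃ z' ∈ Z, A ∈ cl H (nn H (lkF H W (insert z' (insert z G))) v)) := by
          funext A
          apply propext
          constructor
          · rintro ⟨⟨z', hz', h3⟩, h4⟩
            refine ⟨z', hz', ?_⟩
            rw [mem_far] at h3 h4 ⊢
            refine ⟨h3.1, fun g hg => ?_⟩
            rcases Finset.mem_insert.1 hg with h | h
            · rw [h]; exact h3.2 z' (Finset.mem_insert_self z' G)
            · exact h4.2 g h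
          · rintro ⟨z', hz', h3⟩
            rw [mem_far] at h3
            refine ⟨⟨z', hz', ?_⟩, ?_⟩
            · rw [mem_far]
              refine ⟨h3.1, fun g hg => h3.2 g ?_⟩
              rcases Finset.mem_insert.1 hg with h | h
              · rw [h]; exact Finset.mem_insert_self _ _
              · exact Finset.mem_insert_of_mem (Finset.mem_insert_of_mem h)
            · rw [mem_far]
              exact ⟨h3.1, fun g hg => h3.2 g (Finset.mem_insert_of_mem hg)⟩
        rw [heq2]
        exact ih (insert z G) hZ hvZ' hvzG h2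

end Pool.Agent.TH709.GG.F3
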