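import Pool.Agent.TH709.GG.Base

set_option autoImplicit false
set_option linter.unusedSectionVars false
set_option linter.unusedVariables false

/-! # From the vertex links to the complex -/

namespace Pool.Agent.TH709.GG

open Polynomial
open Pool.Agent.W497.FS

variable {α : Type*} {H : SimpleGraph α} [DecidableEq α]

/-- the edges of the complex on the non-neighbours of `v` -/
noncomputable def farE (H : SimpleGraph α) (W : Finset α) (v : α) : Finset (Finset α) :=
  (cl H (nn H W v)).filter (fun τ => τ.card = 2)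

theorem Bk_far {d : ℕ} {W G : Finset α} {v : α} (hfar : ∀ τ ∈ cl H (nn H W v), τ.card ≤ 2) :
    Bk H (lkF H W G) v =
      ∑ τ ∈ farE H W v, if τ ⊆ lkF H W G then FP H (lkF H W (G ∪ τ)) else 0 := by
  rw [Bk, ← Finset.sum_filter]
  have hsub : nn H (lkF H W G) v ⊆ nn H W v := fun x hx => by
    rw [mem_nn] at hx ⊢
    exact ⟨(mem_lkF.1 hx.1).1, hx.2⟩
  have h1 : ∀ τ ∈ cl H (nn H (lkF H W G) v), τ.card ≤ 2 := fun τ hτ => hfar τ (cl_mono hsub hτ)
  have h2 : (farE H W v).filter (fun τ => τ ⊆ lkF H W G) =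
      (cl H (nn H (lkF H W G) v)).filter (fun τ => τ.card = 2) := by
    ext τ
    rw [Finset.mem_filter, farE, Finset.mem_filter, Finset.mem_filter, mem_cl, mem_cl]
    constructor
    · rintro ⟨⟨⟨h3, h4⟩, h5⟩, h6⟩
      exact ⟨⟨fun x hx => mem_nn.2 ⟨h6 hx, (mem_nn.1 (h3 hx)).2⟩, h4⟩, h5⟩
    · rintro ⟨⟨h3, h4⟩, h5⟩
      exact ⟨⟨⟨h3.trans hsub, h4⟩, h5⟩, fun x hx => (mem_nn.1 (h3 hx)).1⟩
  rw [h2, Finset.sum_filter]
  refine Finset.sum_congr rfl (fun τ hτ => ?_)
  have h3 := h1 τ hτ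
  rw [lkF_lkF]
  have h4 : τ.card = 0 ∨ τ.card = 1 ∨ τ.card = 2 := by omega
  rcases h4 with h4 | h4 | h4 <;> rw [h4] <;> simp [sj_zero, sj_one]

theorem subset_lkF_comm {W G τ : Finset α} (hG : G ⊆ W) (hτ : τ ⊆ W) :
    τ ⊆ lkF H W G ↔ G ⊆ lkF H W τ := by
  constructor
  · intro h x hx
    exact mem_lkF.2 ⟨hG hx, fun z hz => ((mem_lkF.1 (h hz)).2 x hx).symm⟩
  · intro h x hx
    exact mem_lkF.2 ⟨hτ hx, fun z hz => ((mem_lkF.1 (h hz)).2 x hx).symm⟩

theorem D_far {d : ℕ} {W κ : Finset α} {v : α} (hE : Eul H d W) (hv : v ∉ κ)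
    (hcl : insert v κ ∈ cl H W) (hfar : ∀ τ ∈ cl H (nn H W v), τ.card ≤ 2) :
    D H W ∅ (insert v κ) = w * ∑ τ ∈ farE H W v, D H W τ (κ ∩ lkF H W τ) := by
  have hκ : κ ∈ cl H W := cl_of_subset hcl (Finset.subset_insert v κ)
  have hadj := allAdj_of_insert hcl hv
  have hvW : v ∈ W := (mem_cl.1 hcl).1 (Finset.mem_insert_self v κ)
  have h1 : ∀ G ∈ κ.powerset, (-y) ^ G.card * (FP H (lkF H W (∅ ∪ G)) -
      y * FP H (lkF H W (insert v (∅ ∪ G)))) = ∑ τ ∈ farE H W v,
        w * (if G ⊆ lkF H W τ then (-y) ^ G.card * FP H (lkF H W (τ ∪ G)) else 0) := by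
    intro G hG
    rw [Finset.mem_powerset] at hG
    have hGcl : G ∈ cl H W := cl_of_subset hκ hG
    have hGW := (mem_cl.1 hGcl).1
    have hvG : v ∈ lkF H W G := mem_lkF.2 ⟨hvW, fun z hz => (hadj z (hG hz)).symm⟩
    have h2 := FP_vertex (hE.lkF hGcl) hvG
    rw [Bk_far (d := d) hfar, ← lkF_insert] at h2
    rw [Finset.empty_union, h2, add_sub_cancel_left, Finset.mul_sum, Finset.mul_sum]
    refine Finset.sum_congr rfl (fun τ hτ => ?_)
    have hτW : τ ⊆ W := (mem_cl.1 (Finset.mem_filter.1 hτ).1).1.trans nn_subset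
    by_cases hc : τ ⊆ lkF H W G
    · rw [if_pos hc, if_pos ((subset_lkF_comm hGW hτW).1 hc), Finset.union_comm G τ]
      generalize FP H (lkF H W (τ ∪ G)) = q
      ring
    · rw [if_neg hc, if_neg (fun h' => hc ((subset_lkF_comm hGW hτW).2 h'))]
      ring
  rw [← sum_cone hv, Finset.sum_congr rfl h1, Finset.sum_comm, Finset.mul_sum]
  refine Finset.sum_congr rfl (fun τ _ => ?_)
  rw [← Finset.mul_sum, D, ← Finset.sum_filter]
  congr 1
  refine Finset.sum_congr ?_ (fun _ _ => rfl)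
  ext G
  rw [Finset.mem_filter, Finset.mem_powerset, Finset.mem_powerset, Finset.subset_inter_iff]

/-- **the local criterion** -/
theorem local_tm {d : ℕ} {W : Finset α} (hE : Eul H (d + 1) W)
    (hlk : ∀ v ∈ W, TM H d (lk H W v))
    (hloc : ∀ κ ∈ cl H W, ∃ v, insert v κ ∈ cl H W ∧ ∀ τ ∈ cl H (nn H W v), τ.card ≤ 2) :
    TM H (d + 1) W := by
  have hle : ∀ σ ∈ cl H W, σ.card ≤ d + 1 := by
    intro σ hσ
    rcases σ.eq_empty_or_nonempty with rfl | ⟨a, ha⟩
    · simp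
    · have h1 := card_le_of_link (hlk a ((mem_cl.1 hσ).1 ha)) (Finset.notMem_erase a σ)
        (by rwa [Finset.insert_erase ha])
      rw [Finset.card_erase_of_mem ha] at h1
      omega
  refine ⟨hle, ?_⟩
  -- faces containing a vertex: use its link
  have hne : ∀ σ κ : Finset α, σ.Nonempty → Disjoint σ κ → σ ∪ κ ∈ cl H W →
      ∀ e, e + σ.card = d + 1 → D H W σ κ ∈ GT ⊤ e := by
    rintro σ κ ⟨a, ha⟩ hdis hcl e he
    have haW : a ∈ W := (mem_cl.1 hcl).1 (Finset.mem_union_left _ ha)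
    have hc := Finset.card_erase_of_mem ha
    have hpos : 0 < σ.card := Finset.card_pos.2 ⟨a, ha⟩
    have h2 := mem_of_link (σ := σ.erase a) (κ := κ) (e := e) (hlk a haW)
      (Finset.notMem_erase a σ) (by rwa [Finset.insert_erase ha])
      (by rwa [Finset.insert_erase ha]) (by omega)
    rwa [Finset.insert_erase ha] at h2
  -- the main case
  have hmain : ∀ (κ : Finset α) (v : α), v ∉ κ → insert v κ ∈ cl H W →
      (∀ τ ∈ cl H (nn H W v), τ.card ≤ 2) → D H W ∅ (insert v κ) ∈ GT ⊤ (d + 1) := by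
    intro κ v hv hcl hfar
    rw [D_far hE hv hcl hfar, Finset.mul_sum]
    refine sum_mem (fun τ hτ => ?_)
    obtain ⟨hτ1, hτ2⟩ := Finset.mem_filter.1 hτ
    have hτcl : τ ∈ cl H W := cl_mono nn_subset hτ1
    have h2 := hle τ hτcl
    obtain ⟨e, rfl⟩ : ∃ e, d = e + 1 := ⟨d - 1, by omega⟩
    refine GT_w_top (hne τ _ ?_ ?_ ?_ e (by omega))
    · rw [← Finset.card_pos]; omega
    · rw [Finset.disjoint_left]
      intro x hx hx'
      exact ((mem_lkF.1 (Finset.mem_inter.1 hx').2).2 x hx).ne rfl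
    · have hκ : κ ∈ cl H W := cl_of_subset hcl (Finset.subset_insert v κ)
      refine union_mem_cl hτcl ?_
      rw [mem_cl] at hκ ⊢
      exact ⟨Finset.inter_subset_right, fun p hp q hq => hκ.2 p (Finset.mem_inter.1 hp).1 q
        (Finset.mem_inter.1 hq).1⟩
  intro σ κ hdis hcl e he
  rcases σ.eq_empty_or_nonempty with rfl | hσ
  · rw [Finset.card_empty, add_zero] at he
    subst he
    rw [Finset.empty_union] at hcl
    obtain ⟨v, hv1, hv2⟩ := hloc κ hcl
    by_cases hvκ : v ∈ κ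
    · have h1 := hmain (κ.erase v) v (Finset.notMem_erase v κ)
        (by rwa [Finset.insert_erase hvκ]) hv2
      rwa [Finset.insert_erase hvκ] at h1
    · have h1 := hmain κ v hvκ hv1 hv2
      have h2 := hne {v} κ ⟨v, Finset.mem_singleton_self v⟩
        (Finset.disjoint_singleton_left.2 hvκ) (by rwa [← Finset.insert_eq]) d (by simp)
      rw [D_insert hvκ] at h1
      have h3 := add_mem h1 (GT_y h2)
      rwa [insert_empty_eq, sub_add_cancel] at h3
  · exact hne σ κ hσ hdis hcl e he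

end Pool.Agent.TH709.GG
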