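import Pool.Agent.TH709.GG.Match3

set_option autoImplicit false
set_option linter.unusedSectionVars false
set_option linter.unusedVariables false

/-! # From the vertex links to the complex, far parts of dimension two -/

namespace Pool.Agent.TH709.GG.F3

open Polynomial
open Pool.Agent.W497.FS

section

variable {α : Type*} {H : SimpleGraph α} [DecidableEq α]

theorem Bk_general (W G : Finset α) (v : α) :
    Bk H (lkF H W G) v = ∑ τ ∈ cl H (nn H W v), if τ ⊆ lkF H W G then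
      (-1) ^ τ.card * sj X (τ.card - 1) * FP H (lkF H W (G ∪ τ)) else 0 := by
  rw [Bk, ← Finset.sum_filter]
  have h2 : (cl H (nn H W v)).filter (fun τ => τ ⊆ lkF H W G) = cl H (nn H (lkF H W G) v) := by
    ext τ
    rw [Finset.mem_filter, mem_cl, mem_cl]
    constructor
    · rintro ⟨⟨h3, h4⟩, h6⟩
      exact ⟨fun x hx => mem_nn.2 ⟨h6 hx, (mem_nn.1 (h3 hx)).2⟩, h4⟩
    · rintro ⟨h3, h4⟩
      exact ⟨⟨fun x hx => mem_nn.2 ⟨(mem_lkF.1 (mem_nn.1 (h3 hx)).1).1, (mem_nn.1 (h3 hx)).2⟩,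
        h4⟩, fun x hx => (mem_nn.1 (h3 hx)).1⟩
  rw [h2]
  refine Finset.sum_congr rfl (fun τ hτ => ?_)
  rw [lkF_lkF]

/-- the alternating sum of a face through `v`, by the faces far from `v` -/
theorem D_general {d : ℕ} {W κ : Finset α} {v : α} (hE : Eul H d W) (hv : v ∉ κ)
    (hcl : insert v κ ∈ cl H W) :
    D H W ∅ (insert v κ) = w * ∑ τ ∈ cl H (nn H W v),
      (-1) ^ τ.card * sj X (τ.card - 1) * D H W τ (κ ∩ lkF H W τ) := by
  have hκ : κ ∈ cl H W := cl_of_subset hcl (Finset.subset_insert v κ)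
  have hadj := allAdj_of_insert hcl hv
  have hvW : v ∈ W := (mem_cl.1 hcl).1 (Finset.mem_insert_self v κ)
  have h1 : ∀ G ∈ κ.powerset, (-y) ^ G.card * (FP H (lkF H W (∅ ∪ G)) -
      y * FP H (lkF H W (insert v (∅ ∪ G)))) = ∑ τ ∈ cl H (nn H W v),
        w * (if G ⊆ lkF H W τ then (-1) ^ τ.card * sj X (τ.card - 1) *
          ((-y) ^ G.card * FP H (lkF H W (τ ∪ G))) else 0) := by
    intro G hG
    rw [Finset.mem_powerset] at hG
    have hGcl : G ∈ cl H W := cl_of_subset hκ hG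
    have hGW := (mem_cl.1 hGcl).1
    have hvG : v ∈ lkF H W G := mem_lkF.2 ⟨hvW, fun z hz => (hadj z (hG hz)).symm⟩
    have h2 := FP_vertex (hE.lkF hGcl) hvG
    rw [Bk_general, ← lkF_insert] at h2
    rw [Finset.empty_union, h2, add_sub_cancel_left, Finset.mul_sum, Finset.mul_sum]
    refine Finset.sum_congr rfl (fun τ hτ => ?_)
    have hτW : τ ⊆ W := (mem_cl.1 hτ).1.trans nn_subset
    by_cases hc : τ ⊆ lkF H W G
    · rw [if_pos hc, if_pos ((subset_lkF_comm hGW hτW).1 hc), Finset.union_comm G τ]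
      generalize FP H (lkF H W (τ ∪ G)) = q
      ring
    · rw [if_neg hc, if_neg (fun h' => hc ((subset_lkF_comm hGW hτW).2 h'))]
      ring
  rw [← sum_cone hv, Finset.sum_congr rfl h1, Finset.sum_comm, Finset.mul_sum]
  refine Finset.sum_congr rfl (fun τ _ => ?_)
  rw [← Finset.mul_sum, D, ← Finset.sum_filter, ← Finset.mul_sum]
  congr 2
  refine Finset.sum_congr ?_ (fun _ _ => rfl)
  ext G
  rw [Finset.mem_filter, Finset.mem_powerset, Finset.mem_powerset, Finset.subset_inter_iff]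

end

variable {k : Type} [Field k] {α : Type} [LinearOrder α] [Fintype α] {H : SimpleGraph α}

/-- **the vertex criterion for flag homology spheres** -/
theorem pair3 {d : ℕ} {W : Finset α} (hE : Eul H (d + 2) W) (hN : NP H (d + 2) W)
    (hS : HS k H (d + 2) W) {κ : Finset α} {v : α} (hv1 : insert v κ ∈ cl H W)
    (hv2 : ∀ τ ∈ cl H (nn H W v), τ.card ≤ 3)
    (h1 : v ∉ κ → D H W {v} κ ∈ GT ⊤ (d + 1))
    (h2 : ∀ e ∈ cl H (nn H W v), e.card = 2 → D H W e (κ ∩ lkF H W e) ∈ GT ⊤ d)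
    (h3 : ∀ e ∈ cl H (nn H W v), e.card = 2 → ∀ t, t ∉ e → insert t e ∈ cl H (nn H W v) →
      D H W e (insert t (κ ∩ lkF H W (insert t e))) ∈ GT ⊤ d) :
    D H W ∅ κ ∈ GT ⊤ (d + 2) := by
  have hmain : ∀ (κ : Finset α), v ∉ κ → insert v κ ∈ cl H W →
      (∀ e ∈ cl H (nn H W v), e.card = 2 → D H W e (κ ∩ lkF H W e) ∈ GT ⊤ d) →
      (∀ e ∈ cl H (nn H W v), e.card = 2 → ∀ t, t ∉ e → insert t e ∈ cl H (nn H W v) →
        D H W e (insert t (κ ∩ lkF H W (insert t e))) ∈ GT ⊤ d) →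
      D H W ∅ (insert v κ) ∈ GT ⊤ (d + 2) := by
    intro κ hv hcl h2 h3
    obtain ⟨f, hf1, hf2⟩ := exists_match hS hN hv hcl hv2
    rw [D_general hE hv hcl]
    set E2 := (cl H (nn H W v)).filter (fun κ => κ.card = 2) with hE2
    set T3 := (cl H (nn H W v)).filter (fun κ => κ.card = 3) with hT3
    have hsum : ∑ τ ∈ cl H (nn H W v), (-1) ^ τ.card * sj X (τ.card - 1) *
        D H W τ (κ ∩ lkF H W τ) = ∑ e ∈ E2, D H W e (κ ∩ lkF H W e) -
          ∑ T ∈ T3, y * D H W T (κ ∩ lkF H W T) := by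
      rw [hE2, hT3, Finset.sum_filter, Finset.sum_filter, ← Finset.sum_sub_distrib]
      refine Finset.sum_congr rfl (fun τ hτ => ?_)
      have hle := hv2 τ hτ
      have hcases : τ.card = 0 ∨ τ.card = 1 ∨ τ.card = 2 ∨ τ.card = 3 := by omega
      rcases hcases with hc | hc | hc | hc
      · simp [hc, sj_zero]
      · simp [hc, sj_zero]
      · simp [hc, sj_one]
      · rw [hc]
        simp only [show ¬ (3 : ℕ) = 2 by norm_num, if_false, if_true, show 3 - 1 = 2 from rfl,
          sj_two, y]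
        ring
    have hfmem : ∀ T ∈ T3, f T ∈ E2 := by
      intro T hT
      obtain ⟨h1, h2⟩ := Finset.mem_filter.1 hT
      obtain ⟨h3, h5, -⟩ := hf1 T h1 h2
      exact Finset.mem_filter.2 ⟨cl_of_subset h1 h3, h5⟩
    have himg : T3.image f ⊆ E2 := by
      intro e he
      obtain ⟨T, hT, rfl⟩ := Finset.mem_image.1 he
      exact hfmem T hT
    have hinj : Set.InjOn f T3 := by
      intro T hT T' hT' heq
      obtain ⟨h1, h2⟩ := Finset.mem_filter.1 hT
      obtain ⟨h3, h5⟩ := Finset.mem_filter.1 hT'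
      exact hf2 T h1 h2 T' h3 h5 heq
    have hsum2 : ∑ e ∈ E2, D H W e (κ ∩ lkF H W e) - ∑ T ∈ T3, y * D H W T (κ ∩ lkF H W T) =
        ∑ e ∈ E2 \ T3.image f, D H W e (κ ∩ lkF H W e) +
        ∑ T ∈ T3, (D H W (f T) (κ ∩ lkF H W (f T)) - y * D H W T (κ ∩ lkF H W T)) := by
      rw [← Finset.sum_sdiff himg, Finset.sum_image hinj, Finset.sum_sub_distrib]
      ring
    rw [hsum, hsum2, mul_add, Finset.mul_sum, Finset.mul_sum]
    refine add_mem (sum_mem (fun e he => ?_)) (sum_mem (fun T hT => ?_))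
    · obtain ⟨h4, h5⟩ := Finset.mem_filter.1 (Finset.mem_sdiff.1 he).1
      exact GT_w_top (h2 e h4 h5)
    · obtain ⟨h4, h5⟩ := Finset.mem_filter.1 hT
      obtain ⟨h6, h7, h8⟩ := hf1 T h4 h5
      obtain ⟨t, ht, htf⟩ : ∃ t ∈ T, t ∉ f T := by
        by_contra hcon
        push Not at hcon
        have := Finset.card_le_card (show T ⊆ f T from hcon)
        omega
      have hTi : insert t (f T) = T := by
        refine Finset.eq_of_subset_of_card_le (Finset.insert_subset ht h6) ?_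
        rw [Finset.card_insert_of_notMem htf]
        omega
      have htK : t ∉ κ ∩ lkF H W T := fun h =>
        ((mem_lkF.1 (Finset.mem_inter.1 h).2).2 t ht).ne rfl
      have h9 : D H W (f T) (κ ∩ lkF H W (f T)) - y * D H W T (κ ∩ lkF H W T) =
          D H W (f T) (insert t (κ ∩ lkF H W T)) := by
        rw [D_insert htK, hTi, h8]
      rw [h9]
      have h10 := h3 (f T) (cl_of_subset h4 h6) h7 t htf (by rwa [hTi])
      rw [hTi] at h10
      exact GT_w_top h10
  by_cases hvκ : v ∈ κ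
  · have hnot : ∀ e ∈ cl H (nn H W v), e.Nonempty → κ.erase v ∩ lkF H W e = κ ∩ lkF H W e := by
      rintro e he ⟨a, ha⟩
      ext x
      rw [Finset.mem_inter, Finset.mem_inter, Finset.mem_erase]
      constructor
      · rintro ⟨⟨-, h4⟩, h5⟩; exact ⟨h4, h5⟩
      · rintro ⟨h4, h5⟩
        refine ⟨⟨?_, h4⟩, h5⟩
        rintro rfl
        exact (mem_nn.1 ((mem_cl.1 he).1 ha)).2.2 ((mem_lkF.1 h5).2 a ha).symm
    have h4 := hmain (κ.erase v) (Finset.notMem_erase v κ)
      (by rw [Finset.insert_erase hvκ]; exact cl_of_subset hv1 (Finset.subset_insert v κ))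
      (fun e he hc => by
        rw [hnot e he (by rw [← Finset.card_pos]; omega)]
        exact h2 e he hc)
      (fun e he hc t ht hte => by
        rw [hnot _ hte (Finset.insert_nonempty t e)]
        exact h3 e he hc t ht hte)
    rwa [Finset.insert_erase hvκ] at h4
  · have h4 := hmain κ hvκ hv1 h2 h3
    have h5 := h1 hvκ
    rw [D_insert hvκ] at h4
    have h6 := add_mem h4 (GT_y h5)
    rwa [insert_empty_eq, sub_add_cancel] at h6

end Pool.Agent.TH709.GG.F3
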