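import Pool.Agent.TH709.GG.Local
import Pool.Agent.TH709.GG.ClsDef
import Pool.Agent.W497.FS.Final

set_option autoImplicit false
set_option linter.unusedSectionVars false
set_option linter.unusedVariables false

/-! # Total monotonicity of the class -/

namespace Pool.Agent.TH709.GG

open Polynomial
open Pool.Agent.W497.FS

open scoped Classical in
theorem Cls.tm0 {d : ℕ} {α : Type} {H : SimpleGraph α} {W : Finset α} (h : Cls d α H W) :
    TM H d W := by
  induction h with
  | small hd h => exact EP.tm hd ⟨h.pure, h.eul⟩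
  | four h h2 => exact EP.tm4 ⟨h.pure, h.eul⟩ h2
  | iso f _ hf hadj ih => exact ih.image hf hadj
  | link _ hσ ih => exact ih.link hσ rfl
  | join _ _ hAB ih1 ih2 => exact TM.join hAB ih1 ih2
  | glue hc hN hAB _ _ ih1 ih2 => exact GlueD.tm ⟨hc, hN, hAB⟩ ih1 ih2
  | split hu hv hm huv hN h4 _ _ _ ih1 ih2 ih3 =>
    exact SplitD.tm ⟨hu, hv, hm, huv, hN, h4⟩ ih1 ih2 ih3
  | @subdivide d α H B u v m t hu hv hm ht hmt huv hNu hNv _ ih =>
    have hut : u ≠ t := fun h' => hu (h' ▸ ht)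
    have hnut : ¬ H.Adj u t := fun h' => ((hNu t ht).1 h').2 rfl
    rcases d with _ | d
    · have h1 : ({m} : Finset α) ∈ cl H (insert m B) :=
        singleton_mem_cl (Finset.mem_insert_self m B)
      have h2 := ih.le _ h1
      rw [Finset.card_singleton] at h2
      omega
    · exact SubD.tm ⟨hu, hv, hm, huv, ht, hmt, hNu, hNv⟩ ih (tm_pair hut hnut)
  | @facet d α H W hE _ hloc ih =>
    refine local_tm hE ih (fun κ hκ => ?_)
    obtain ⟨v, hv1, hv2⟩ := hloc κ hκ
    refine ⟨v, hv1, fun τ hτ => hv2 τ (cl_mono nn_subset hτ) (fun x hx => ?_)⟩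
    exact (mem_nn.1 ((mem_cl.1 hτ).1 hx)).2

variable {α : Type*} {H : SimpleGraph α} [DecidableEq α]

theorem Cls.tm {d : ℕ} {α : Type} [inst : DecidableEq α] {H : SimpleGraph α} {W : Finset α}
    (h : Cls d α H W) : TM H d W := by
  have h1 := h.tm0
  have e : (fun a b => Classical.propDecidable (a = b) : DecidableEq α) = inst :=
    Subsingleton.elim _ _
  rw [e] at h1
  exact h1

/-! ### Gamma-vectors -/

theorem FP_sum {d : ℕ} {W : Finset α} (hle : ∀ σ ∈ cl H W, σ.card ≤ d) :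
    FP H W = ∑ j ∈ Finset.range (d + 1),
      C ((((cl H W).filter (fun σ => σ.card = j)).card : ℕ) : ℤ) * X ^ j := by
  rw [FP]
  have h1 : ∀ σ ∈ cl H W, σ.card ∈ Finset.range (d + 1) := fun σ hσ => by
    rw [Finset.mem_range]
    have := hle σ hσ
    omega
  rw [← Finset.sum_fiberwise_of_maps_to h1]
  refine Finset.sum_congr rfl (fun j _ => ?_)
  have h2 : ∀ σ ∈ (cl H W).filter (fun G => G.card = j), (X : ℤ[X]) ^ σ.card = X ^ j :=
    fun σ hσ => by rw [(Finset.mem_filter.1 hσ).2]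
  rw [Finset.sum_congr rfl h2, Finset.sum_const, nsmul_eq_mul]
  simp

/-- from the expansion in `x` to the h-polynomial -/
theorem h_of_f (d : ℕ) (f : ℕ → ℕ) (a : ℕ → ℤ)
    (h2 : ∑ j ∈ Finset.range (d + 1), C ((f j : ℕ) : ℤ) * X ^ j
      = ∑ i ∈ Finset.range (d / 2 + 1), C (a i) * w ^ i * y ^ (d - 2 * i)) :
    ∑ j ∈ Finset.range (d + 1), C ((f j : ℕ) : ℤ) * X ^ j * (1 - X) ^ (d - j)
      = ∑ i ∈ Finset.range (d / 2 + 1), C (a i) * X ^ i * (1 + X) ^ (d - 2 * i) := by
  apply Polynomial.map_injective (Int.castRingHom ℚ) Int.cast_injective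
  apply Polynomial.eq_of_infinite_eval_eq
  refine Set.Infinite.mono (s := {z : ℚ | z ≠ 1}) ?_ (Set.finite_singleton (1 : ℚ)).infinite_compl
  intro z hz
  have hz1 : 1 - z ≠ 0 := sub_ne_zero.2 (Ne.symm hz)
  have e2 := congrArg (fun p => Polynomial.eval₂ (Int.castRingHom ℚ) (z / (1 - z)) p) h2
  simp only [Polynomial.eval₂_finsetSum, Polynomial.eval₂_mul, Polynomial.eval₂_pow,
    Polynomial.eval₂_C, Polynomial.eval₂_X, Polynomial.eval₂_sub, Polynomial.eval₂_add,
    Polynomial.eval₂_one, w, y, Polynomial.eval₂_ofNat] at e2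
  simp only [eq_intCast, Int.cast_natCast] at e2
  change Polynomial.eval z _ = Polynomial.eval z _
  rw [Polynomial.eval_map, Polynomial.eval_map]
  simp only [Polynomial.eval₂_finsetSum, Polynomial.eval₂_mul, Polynomial.eval₂_pow,
    Polynomial.eval₂_C, Polynomial.eval₂_X, Polynomial.eval₂_sub, Polynomial.eval₂_add,
    Polynomial.eval₂_one]
  simp only [eq_intCast, Int.cast_natCast]
  have e4 : ∑ j ∈ Finset.range (d + 1), (f j : ℚ) * z ^ j * (1 - z) ^ (d - j) = (1 - z) ^ d *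
      ∑ j ∈ Finset.range (d + 1), (f j : ℚ) * (z / (1 - z)) ^ j := by
    rw [Finset.mul_sum]
    refine Finset.sum_congr rfl fun j hj => ?_
    rw [Finset.mem_range] at hj
    have hd : (1 - z) ^ d = (1 - z) ^ j * (1 - z) ^ (d - j) := by
      rw [← pow_add]; congr 1; omega
    rw [hd, div_pow]
    field_simp
  have e6 : ∑ i ∈ Finset.range (d / 2 + 1), (a i : ℚ) * z ^ i * (1 + z) ^ (d - 2 * i) =
      (1 - z) ^ d * ∑ i ∈ Finset.range (d / 2 + 1),
        (a i : ℚ) * (z / (1 - z) * (1 + z / (1 - z))) ^ i *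
          (1 + 2 * (z / (1 - z))) ^ (d - 2 * i) := by
    rw [Finset.mul_sum]
    refine Finset.sum_congr rfl fun i hi => ?_
    rw [Finset.mem_range] at hi
    have hd : (1 - z) ^ d = (1 - z) ^ i * (1 - z) ^ i * (1 - z) ^ (d - 2 * i) := by
      rw [← pow_add, ← pow_add]; congr 1; omega
    have e5 : 1 + z / (1 - z) = 1 / (1 - z) := by field_simp; ring
    have e5' : 1 + 2 * (z / (1 - z)) = (1 + z) / (1 - z) := by field_simp; ring
    rw [e5', e5, hd, div_pow, mul_pow, div_pow, div_pow, one_pow]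
    field_simp
  rw [e4, e6, e2]

/-- uniqueness of the expansion -/
theorem exp_unique {d : ℕ} {a b : ℕ → ℤ}
    (h : ∑ i ∈ Finset.range (d / 2 + 1), C (a i) * w ^ i * y ^ (d - 2 * i) =
      ∑ i ∈ Finset.range (d / 2 + 1), C (b i) * w ^ i * y ^ (d - 2 * i)) :
    ∀ i ≤ d / 2, a i = b i := by
  have h1 := congrArg (Polynomial.map (Int.castRingHom ℚ)) h
  simp only [Polynomial.map_sum, Polynomial.map_mul, Polynomial.map_pow, w, y, Polynomial.map_add,
    Polynomial.map_one, Polynomial.map_X, Polynomial.map_C, Polynomial.map_ofNat] at h1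
  simp only [eq_intCast] at h1
  have h2 : ∑ i ∈ Finset.range (d / 2 + 1),
      (C ((a i : ℚ) - b i) * (X * (1 + X)) ^ i * (1 + 2 * X) ^ (d - 2 * i) : ℚ[X]) = 0 := by
    rw [← sub_eq_zero, ← Finset.sum_sub_distrib] at h1
    rw [← h1]
    refine Finset.sum_congr rfl fun i _ => ?_
    rw [C_sub]; ring
  intro i hi
  have h3 := Pool.Agent.W959.FS.B.unique_aux (d / 2) d (fun i => (a i : ℚ) - b i) h2 i hi
  have h4 : (a i : ℚ) = b i := by linarith
  exact_mod_cast h4

theorem TM.link_le {d : ℕ} {W σ : Finset α} (h : TM H d W) (hσ : σ ∈ cl H W) :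
    ∀ τ ∈ cl H (lkF H W σ), τ.card ≤ d - σ.card := by
  intro τ hτ
  have h1 := h.le _ (union_mem_cl hσ hτ)
  rw [Finset.card_union_of_disjoint (disjoint_of_mem_cl_lkF hτ)] at h1
  omega

theorem TM.FP_exp {d : ℕ} {W σ : Finset α} (h : TM H d W) (hσ : σ ∈ cl H W) :
    ∃ a : ℕ → ℤ, FP H (lkF H W σ) = ∑ i ∈ Finset.range ((d - σ.card) / 2 + 1),
      C (a i) * w ^ i * y ^ (d - σ.card - 2 * i) := by
  have h1 := h.le σ hσ
  have h2 := h.mem σ ∅ (Finset.disjoint_empty_right σ) (by rwa [Finset.union_empty])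
    (d - σ.card) (by omega)
  rw [D_empty] at h2
  obtain ⟨a, ha, -⟩ := GT_coeffs h2
  exact ⟨a, ha⟩

theorem TM.exists_gam {d : ℕ} {W σ : Finset α} (h : TM H d W) (hσ : σ ∈ cl H W) :
    ∃ g : ℕ → ℤ, IsGam H (d - σ.card) (lkF H W σ) g := by
  obtain ⟨a, ha⟩ := h.FP_exp hσ
  rw [FP_sum (h.link_le hσ)] at ha
  have h3 := h_of_f _ _ a ha
  refine ⟨fun i => if i ≤ (d - σ.card) / 2 then a i else 0, fun i hi => ?_, ?_⟩
  · dsimp only
    rw [if_neg]; omega
  · rw [h3]
    refine Finset.sum_congr rfl (fun i hi => ?_)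
    dsimp only
    rw [if_pos]
    rw [Finset.mem_range] at hi; omega

theorem TM.FP_of_gam {d : ℕ} {W σ : Finset α} (h : TM H d W) (hσ : σ ∈ cl H W) {g : ℕ → ℤ}
    (hg : IsGam H (d - σ.card) (lkF H W σ) g) :
    FP H (lkF H W σ) = ∑ i ∈ Finset.range ((d - σ.card) / 2 + 1),
      C (g i) * w ^ i * y ^ (d - σ.card - 2 * i) := by
  obtain ⟨a, ha⟩ := h.FP_exp hσ
  have ha' := ha
  rw [FP_sum (h.link_le hσ)] at ha'
  have h3 := stmB _ _ g a hg.2 ha'
  rw [ha]
  refine Finset.sum_congr rfl (fun i hi => ?_)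
  rw [Finset.mem_range] at hi
  rw [h3 i (by omega)]

/-- **total monotonicity of the gamma-vectors of the links** -/
theorem TM.total {d : ℕ} {W : Finset α} (h : TM H d W) {g : Finset α → ℕ → ℤ}
    (hg : ∀ σ ∈ cl H W, IsGam H (d - σ.card) (lkF H W σ) (g σ)) (σ κ : Finset α)
    (hdis : Disjoint σ κ) (hcl : σ ∪ κ ∈ cl H W) (i : ℕ) :
    0 ≤ ∑ G ∈ κ.powerset, (-1) ^ G.card * g (σ ∪ G) i := by
  have hσ := (mem_cl_union hcl).1
  have hσc := h.le σ hσ
  have hGcl : ∀ G ∈ κ.powerset, σ ∪ G ∈ cl H W := fun G hG =>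
    cl_of_subset hcl (Finset.union_subset_union_right (Finset.mem_powerset.1 hG))
  have hGc : ∀ G ∈ κ.powerset, (σ ∪ G).card = σ.card + G.card := fun G hG =>
    Finset.card_union_of_disjoint (hdis.mono_right (Finset.mem_powerset.1 hG))
  obtain ⟨e, he⟩ : ∃ e, e + σ.card = d := ⟨d - σ.card, by omega⟩
  by_cases hi : i ≤ e / 2
  · obtain ⟨b, hb, hb0⟩ := GT_coeffs (h.mem σ κ hdis hcl e he)
    have hD : D H W σ κ = ∑ i ∈ Finset.range (e / 2 + 1),
        C (∑ G ∈ κ.powerset, (-1) ^ G.card * g (σ ∪ G) i) * w ^ i * y ^ (e - 2 * i) := by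
      have h1 : ∀ G ∈ κ.powerset, (-y) ^ G.card * FP H (lkF H W (σ ∪ G)) =
          ∑ i ∈ Finset.range (e / 2 + 1),
            C ((-1) ^ G.card * g (σ ∪ G) i) * w ^ i * y ^ (e - 2 * i) := by
        intro G hG
        have hle := h.le _ (hGcl G hG)
        have hG' := hGc G hG
        rw [h.FP_of_gam (hGcl G hG) (hg _ (hGcl G hG)), Finset.mul_sum]
        have hsub : Finset.range ((d - (σ ∪ G).card) / 2 + 1) ⊆ Finset.range (e / 2 + 1) := by
          intro j hj
          rw [Finset.mem_range] at hj ⊢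
          omega
        rw [← Finset.sum_subset hsub]
        · refine Finset.sum_congr rfl (fun j hj => ?_)
          rw [Finset.mem_range] at hj
          have h2 : e - 2 * j = (d - (σ ∪ G).card - 2 * j) + G.card := by omega
          rw [h2, pow_add, neg_pow, C_mul, C_pow, C_neg, C_1]
          ring
        · intro j hj hj'
          rw [Finset.mem_range] at hj hj'
          rw [(hg _ (hGcl G hG)).1 j (by omega), mul_zero, C_0, zero_mul, zero_mul]
      rw [D, Finset.sum_congr rfl h1, Finset.sum_comm]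
      refine Finset.sum_congr rfl (fun j _ => ?_)
      rw [map_sum, Finset.sum_mul, Finset.sum_mul]
    rw [hD] at hb
    rw [exp_unique hb i hi]
    exact hb0 i (WithTop.coe_lt_top i)
  · refine le_of_eq (Finset.sum_eq_zero (fun G hG => ?_)).symm
    have hle := h.le _ (hGcl G hG)
    have hG' := hGc G hG
    rw [(hg _ (hGcl G hG)).1 i (by omega), mul_zero]

theorem link_cl' {n : ℕ} {H : SimpleGraph (Fin n)} {V E : Finset (Fin n)} (hE : E ∈ cl H V) :
    link (cl H V) E = cl H (lkF H V E) := by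
  ext G
  rw [link, Finset.mem_filter]
  constructor
  · rintro ⟨h1, h2, h3⟩
    obtain ⟨h4, h5⟩ := mem_cl.1 h3
    refine mem_cl.2 ⟨fun x hx => mem_lkF.2 ⟨h4 (Finset.mem_union_left _ hx), fun y hy => ?_⟩,
      (mem_cl.1 h1).2⟩
    exact h5 y (Finset.mem_union_right _ hy) x (Finset.mem_union_left _ hx)
      (fun h => Finset.disjoint_left.1 h2 hx (h ▸ hy))
  · intro h
    refine ⟨cl_mono (fun x hx => (mem_lkF.1 hx).1) h, (disjoint_of_mem_cl_lkF h).symm, ?_⟩
    rw [Finset.union_comm]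
    exact union_mem_cl hE h

/-- the class, for all its members -/
theorem cls_total {d : ℕ} {α : Type} [DecidableEq α] {H : SimpleGraph α} {W : Finset α}
    (h : Cls d α H W) :
    (∀ σ ∈ cl H W, σ.card ≤ d ∧ ∃ g : ℕ → ℤ, IsGam H (d - σ.card) (lkF H W σ) g) ∧
    ∀ g : Finset α → ℕ → ℤ, (∀ σ ∈ cl H W, IsGam H (d - σ.card) (lkF H W σ) (g σ)) →
      ∀ σ κ : Finset α, Disjoint σ κ → σ ∪ κ ∈ cl H W → ∀ i,
        0 ≤ ∑ G ∈ κ.powerset, (-1) ^ G.card * g (σ ∪ G) i :=
  ⟨fun σ hσ => ⟨h.tm.le σ hσ, h.tm.exists_gam hσ⟩, fun _ hg σ κ hdis hcl i =>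
    h.tm.total hg σ κ hdis hcl i⟩

/-- the flag homology spheres in the class -/
theorem sphere_total {k : Type} [Field k] {n d : ℕ} {S : Finset (Finset (Fin n))}
    (hS : IsFlagSphere k d S) (hC : Cls d (Fin n) (skel S) (vert S))
    (g : Finset (Fin n) → ℕ → ℤ)
    (hg : ∀ F ∈ S, IsGamma (d - F.card) (link S F) (g F)) :
    (∀ i ≤ d / 2, 0 ≤ g ∅ i) ∧ ∀ F ∈ S, ∀ i ≤ (d - F.card) / 2, g F i ≤ g ∅ i := by
  have hcl := hS.cl_eq
  -- the truncated gamma-vectors
  let g' : Finset (Fin n) → ℕ → ℤ := fun F i => if i ≤ (d - F.card) / 2 then g F i else 0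
  have hg' : ∀ σ ∈ cl (skel S) (vert S),
      IsGam (skel S) (d - σ.card) (lkF (skel S) (vert S) σ) (g' σ) := by
    intro σ hσ
    have h1 := hg σ (by rwa [hcl] at hσ)
    rw [IsGamma, ← hcl, link_cl' hσ] at h1
    refine ⟨fun i hi => ?_, ?_⟩
    · simp only [g']
      rw [if_neg]; omega
    · rw [h1]
      refine Finset.sum_congr rfl (fun i hi => ?_)
      rw [Finset.mem_range] at hi
      simp only [g']
      rw [if_pos (by omega)]
  have htot := hC.tm.total hg'
  have hempty : (∅ : Finset (Fin n)) ∈ cl (skel S) (vert S) := empty_mem_cl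
  have h0 : ∀ i, 0 ≤ g' ∅ i := by
    intro i
    have := htot ∅ ∅ (Finset.disjoint_empty_left _) (by simpa using hempty) i
    simpa using this
  -- monotonicity
  have hmono : ∀ F : Finset (Fin n), F ∈ cl (skel S) (vert S) → ∀ i, g' F i ≤ g' ∅ i := by
    intro F
    induction F using Finset.induction_on with
    | empty => intro _ i; exact le_rfl
    | insert v F hv ih =>
      intro hF i
      have hF' : F ∈ cl (skel S) (vert S) := cl_of_subset hF (Finset.subset_insert v F)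
      refine le_trans ?_ (ih hF' i)
      have h1 := htot F {v} (Finset.disjoint_singleton_right.2 hv)
        (by rwa [Finset.union_comm, ← Finset.insert_eq]) i
      have h2 : ({v} : Finset (Fin n)).powerset = {∅, {v}} := by
        ext G
        rw [Finset.mem_powerset, Finset.subset_singleton_iff, Finset.mem_insert,
          Finset.mem_singleton]
      rw [h2, Finset.sum_pair (Finset.singleton_ne_empty v).symm] at h1
      simp only [Finset.card_empty, pow_zero, one_mul, Finset.union_empty, Finset.card_singleton,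
        pow_one] at h1
      rw [Finset.union_comm F {v}, ← Finset.insert_eq] at h1
      linarith
  have e1 : ∀ i ≤ d / 2, g' ∅ i = g ∅ i := fun i hi =>
    if_pos (by rw [Finset.card_empty, Nat.sub_zero]; exact hi)
  refine ⟨fun i hi => ?_, fun F hF i hi => ?_⟩
  · rw [← e1 i hi]
    exact h0 i
  · have h1 := hmono F (by rwa [hcl]) i
    have e2 : g' F i = g F i := if_pos hi
    rwa [e2, e1 i (by omega)] at h1

end Pool.Agent.TH709.GG
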