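import Pool.Agent.TH709.GG.Far3

set_option autoImplicit false
set_option linter.unusedSectionVars false
set_option linter.unusedVariables false

/-! # The matching of far triangles with far edges, compatible with the links of a face -/

namespace Pool.Agent.TH709.GG.F3

open Pool.Agent.W497.FS

variable {k : Type} [Field k] {α : Type} [LinearOrder α] [Fintype α] {H : SimpleGraph α}

theorem lkF_anti {W σ τ : Finset α} (h : σ ⊆ τ) : lkF H W τ ⊆ lkF H W σ := fun x hx =>
  mem_lkF.2 ⟨(mem_lkF.1 hx).1, fun z hz => (mem_lkF.1 hx).2 z (h hz)⟩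

theorem mem_far_of {W κ G A : Finset α} {v : α} (hA : A ∈ cl H (nn H W v))
    (hG : G ⊆ κ ∩ lkF H W A) : A ∈ cl H (nn H (lkF H W G) v) := by
  rw [mem_far]
  exact ⟨hA, fun g hg a ha => ((mem_lkF.1 (Finset.mem_inter.1 (hG hg)).2).2 a ha).symm⟩

theorem sub_of_mem_far {W κ G A : Finset α} {v : α} (hκ : κ ⊆ W) (hGκ : G ⊆ κ)
    (hA : A ∈ cl H (nn H (lkF H W G) v)) : G ⊆ κ ∩ lkF H W A := by
  intro g hg
  rw [mem_far] at hA
  exact Finset.mem_inter.2 ⟨hGκ hg, mem_lkF.2 ⟨hκ (hGκ hg), fun a ha => (hA.2 g hg a ha).symm⟩⟩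

/-- the matching for the triangles `T` with `κ ∩ lk T = G` -/
theorem exists_matchG {d : ℕ} {W κ G : Finset α} {v : α} (hS : HS k H d W) (hN : NP H d W)
    (hv : v ∉ κ) (hcl : insert v κ ∈ cl H W) (h4 : ∀ τ ∈ cl H (nn H W v), τ.card ≤ 3)
    (hGκ : G ⊆ κ) :
    ∃ f : Finset α → Finset α,
      (∀ T ∈ cl H (nn H W v), T.card = 3 → κ ∩ lkF H W T = G →
        f T ⊆ T ∧ (f T).card = 2 ∧ κ ∩ lkF H W (f T) = G) ∧
      ∀ T ∈ cl H (nn H W v), T.card = 3 → κ ∩ lkF H W T = G →
        ∀ T' ∈ cl H (nn H W v), T'.card = 3 → κ ∩ lkF H W T' = G → f T = f T' → T = T' := by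
  classical
  have hκW : κ ⊆ W := fun x hx => (mem_cl.1 hcl).1 (Finset.mem_insert_of_mem hx)
  let 𝒯 : Finset (Finset α) :=
    (cl H (nn H W v)).filter (fun T => T.card = 3 ∧ κ ∩ lkF H W T = G)
  let ι : Type := {T : Finset α // T ∈ 𝒯}
  let t : ι → Finset (Finset α) := fun T =>
    (T.1.powersetCard 2).filter (fun e => κ ∩ lkF H W e = G)
  have hHall : ∀ s : Finset ι, s.card ≤ (s.biUnion t).card := by
    intro s
    by_contra hlt
    push Not at hlt
    set B := s.biUnion t with hB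
    let ext : (s → k) →ₗ[k] (Finset α → k) :=
      { toFun := fun x A => ∑ T : s, if T.1.1 = A then x T else 0
        map_add' := fun x y => by
          funext A
          simp only [Pi.add_apply]
          rw [← Finset.sum_add_distrib]
          exact Finset.sum_congr rfl (fun T _ => by split_ifs <;> simp)
        map_smul' := fun a x => by
          funext A
          simp only [Pi.smul_apply, smul_eq_mul, RingHom.id_apply, Finset.mul_sum]
          exact Finset.sum_congr rfl (fun T _ => by split_ifs <;> simp) }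
    let res : (Finset α → k) →ₗ[k] (B → k) :=
      { toFun := fun c e => c e.1
        map_add' := fun _ _ => rfl
        map_smul' := fun _ _ => rfl }
    have hker : LinearMap.ker (res ∘ₗ bdL ∘ₗ ext) ≠ ⊥ := by
      apply LinearMap.ker_ne_bot_of_finrank_lt
      rw [Module.finrank_fintype_fun_eq_card, Module.finrank_fintype_fun_eq_card,
        Fintype.card_coe, Fintype.card_coe]
      exact hlt
    obtain ⟨x, hx, hxne⟩ := (Submodule.ne_bot_iff _).1 hker
    rw [LinearMap.mem_ker] at hx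
    have hval : ∀ T : s, ext x T.1.1 = x T := by
      intro T
      change (∑ T' : s, if T'.1.1 = T.1.1 then x T' else 0) = x T
      rw [Finset.sum_eq_single T]
      · rw [if_pos rfl]
      · intro T' _ hT'
        rw [if_neg]
        intro h
        exact hT' (Subtype.ext (Subtype.ext h))
      · intro h; exact absurd (Finset.mem_univ _) h
    have hsupp : ∀ A, ext x A ≠ 0 → ∃ T : s, T.1.1 = A := by
      intro A hA
      change (∑ T' : s, if T'.1.1 = A then x T' else 0) ≠ 0 at hA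
      obtain ⟨T, -, hT⟩ := Finset.exists_ne_zero_of_sum_ne_zero hA
      refine ⟨T, ?_⟩
      by_contra h
      rw [if_neg h] at hT
      exact hT rfl
    have h𝒯 : ∀ T : ι, T.1 ∈ cl H (nn H W v) ∧ T.1.card = 3 ∧ κ ∩ lkF H W T.1 = G := fun T =>
      Finset.mem_filter.1 T.2
    have hvG : v ∉ G := fun h => hv (hGκ h)
    have hclG : insert v G ∈ cl H W := cl_of_subset hcl (Finset.insert_subset_insert v hGκ)
    have hOn : OnP (fun A => A ∈ cl H (nn H (lkF H W G) v)) 3 (ext x) := by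
      intro A hA
      obtain ⟨T, rfl⟩ := hsupp A hA
      obtain ⟨h1, h2, h3⟩ := h𝒯 T.1
      exact ⟨mem_far_of h1 h3.symm.subset, h2⟩
    -- the boundary lives on the faces whose link contains more of `κ`
    have hbU : OnP (fun A => ∃ z ∈ κ \ G, A ∈ cl H (nn H (lkF H W (insert z G)) v)) 2
        (Pool.Agent.W497.FS.bd (ext x)) := by
      intro A hA
      have hA' := hA
      rw [Pool.Agent.W497.FS.bd] at hA'
      obtain ⟨u, hu, hne⟩ := Finset.exists_ne_zero_of_sum_ne_zero hA'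
      rw [Finset.mem_compl] at hu
      obtain ⟨T, hT⟩ := hsupp (insert u A) (fun h' => hne (by rw [h', mul_zero]))
      obtain ⟨h1, h2, h3⟩ := h𝒯 T.1
      have hAT : A ⊆ T.1.1 := by rw [hT]; exact Finset.subset_insert u A
      have hAc : A.card = 2 := by
        rw [hT, Finset.card_insert_of_notMem hu] at h2
        omega
      have hAcl : A ∈ cl H (nn H W v) := cl_of_subset h1 hAT
      have hAB : A ∉ B := fun h => hA (congrFun hx ⟨A, h⟩)
      have hAG : κ ∩ lkF H W A ≠ G := by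
        intro h
        apply hAB
        rw [hB, Finset.mem_biUnion]
        exact ⟨T.1, T.2, Finset.mem_filter.2 ⟨Finset.mem_powersetCard.2 ⟨hAT, hAc⟩, h⟩⟩
      have hGA : G ⊆ κ ∩ lkF H W A := by
        rw [← h3]
        exact Finset.inter_subset_inter_left (lkF_anti hAT)
      obtain ⟨z, hz, hzG⟩ : ∃ z ∈ κ ∩ lkF H W A, z ∉ G := by
        by_contra hcon
        push Not at hcon
        exact hAG (Finset.Subset.antisymm hcon hGA)
      refine ⟨⟨z, Finset.mem_sdiff.2 ⟨(Finset.mem_inter.1 hz).1, hzG⟩,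
        mem_far_of (κ := κ) hAcl ?_⟩, hAc⟩
      exact Finset.insert_subset hz hGA
    have hfill : ∃ b : Finset α → k,
        OnP (fun A => ∃ z ∈ κ \ G, A ∈ cl H (nn H (lkF H W (insert z G)) v)) 3 b ∧
          Pool.Agent.W497.FS.bd b = Pool.Agent.W497.FS.bd (ext x) := by
      rcases (κ \ G).eq_empty_or_nonempty with hZ | hZ
      · refine ⟨0, fun A hA => absurd rfl hA, ?_⟩
        rw [bd_zero]
        funext A
        by_contra hne
        obtain ⟨⟨z, hz, -⟩, -⟩ := hbU A (fun h => hne h.symm)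
        rw [hZ] at hz
        exact absurd hz (Finset.notMem_empty z)
      · refine exUnion hS hN (κ \ G) G hZ (fun h => hv (Finset.mem_sdiff.1 h).1) hvG ?_ 2 _ hbU
          (bd_bd _)
        rw [Finset.sdiff_union_of_subset hGκ]
        exact hcl
    obtain ⟨b, hb, hbb⟩ := hfill
    have hsubG : ∀ A, (∃ z ∈ κ \ G, A ∈ cl H (nn H (lkF H W (insert z G)) v)) →
        A ∈ cl H (nn H (lkF H W G) v) := by
      rintro A ⟨z, hz, h⟩
      rw [mem_far] at h ⊢
      exact ⟨h.1, fun g hg => h.2 g (Finset.mem_insert_of_mem hg)⟩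
    obtain ⟨b', hb', hbb'⟩ := exFar hS hN hvG hclG 3 (ext x + (-1 : k) • b)
      (hOn.add ((hb.mono hsubG).smul _)) (by rw [bd_add, bd_smul, hbb]; simp)
    have hb0 : b' = 0 := by
      funext A
      by_contra hne
      obtain ⟨h5, h6⟩ := hb' A hne
      have := h4 A (mem_far.1 h5).1
      omega
    rw [hb0, bd_zero] at hbb'
    apply hxne
    funext T
    rw [← hval T]
    have h7 := congrFun hbb' T.1.1
    simp only [Pi.add_apply, Pi.smul_apply, Pi.zero_apply, smul_eq_mul] at h7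
    by_cases hbT : b T.1.1 = 0
    · rw [hbT, mul_zero, add_zero] at h7
      exact h7.symm
    · exfalso
      obtain ⟨⟨z, hz, h8⟩, -⟩ := hb _ hbT
      obtain ⟨hzκ, hzG⟩ := Finset.mem_sdiff.1 hz
      have h9 := sub_of_mem_far hκW (Finset.insert_subset hzκ hGκ) h8
      rw [(h𝒯 T.1).2.2] at h9
      exact hzG (h9 (Finset.mem_insert_self z G))
  obtain ⟨g, hg1, hg2⟩ := (Finset.all_card_le_biUnion_card_iff_exists_injective t).1 hHall
  refine ⟨fun T => if h : T ∈ 𝒯 then g ⟨T, h⟩ else ∅, ?_, ?_⟩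
  · intro T hT hc hK
    have hT' : T ∈ 𝒯 := Finset.mem_filter.2 ⟨hT, hc, hK⟩
    simp only [dif_pos hT']
    obtain ⟨h1, h2⟩ := Finset.mem_filter.1 (hg2 ⟨T, hT'⟩)
    obtain ⟨h3, h5⟩ := Finset.mem_powersetCard.1 h1
    exact ⟨h3, h5, h2⟩
  · intro T hT hc hK T₂ hT₂ hc₂ hK₂ heq
    have h1 : T ∈ 𝒯 := Finset.mem_filter.2 ⟨hT, hc, hK⟩
    have h2 : T₂ ∈ 𝒯 := Finset.mem_filter.2 ⟨hT₂, hc₂, hK₂⟩
    simp only [dif_pos h1, dif_pos h2] at heq
    exact congrArg Subtype.val (hg1 heq)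

/-- **the matching** -/
theorem exists_match {d : ℕ} {W κ : Finset α} {v : α} (hS : HS k H d W) (hN : NP H d W)
    (hv : v ∉ κ) (hcl : insert v κ ∈ cl H W) (h4 : ∀ τ ∈ cl H (nn H W v), τ.card ≤ 3) :
    ∃ f : Finset α → Finset α,
      (∀ T ∈ cl H (nn H W v), T.card = 3 →
        f T ⊆ T ∧ (f T).card = 2 ∧ κ ∩ lkF H W (f T) = κ ∩ lkF H W T) ∧
      ∀ T ∈ cl H (nn H W v), T.card = 3 → ∀ T' ∈ cl H (nn H W v), T'.card = 3 →
        f T = f T' → T = T' := by
  classical
  have h1 : ∀ G : Finset α, ∃ f : Finset α → Finset α, G ⊆ κ →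
      (∀ T ∈ cl H (nn H W v), T.card = 3 → κ ∩ lkF H W T = G →
        f T ⊆ T ∧ (f T).card = 2 ∧ κ ∩ lkF H W (f T) = G) ∧
      ∀ T ∈ cl H (nn H W v), T.card = 3 → κ ∩ lkF H W T = G →
        ∀ T' ∈ cl H (nn H W v), T'.card = 3 → κ ∩ lkF H W T' = G → f T = f T' → T = T' := by
    intro G
    by_cases hG : G ⊆ κ
    · obtain ⟨f, hf⟩ := exists_matchG hS hN hv hcl h4 hG
      exact ⟨f, fun _ => hf⟩
    · exact ⟨id, fun h => absurd h hG⟩
  choose F hF using h1
  have hsub : ∀ T : Finset α, κ ∩ lkF H W T ⊆ κ := fun T => Finset.inter_subset_left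
  refine ⟨fun T => F (κ ∩ lkF H W T) T, ?_, ?_⟩
  · intro T hT hc
    exact (hF _ (hsub T)).1 T hT hc rfl
  · intro T hT hc T' hT' hc' heq
    have e1 := ((hF _ (hsub T)).1 T hT hc rfl).2.2
    have e2 := ((hF _ (hsub T')).1 T' hT' hc' rfl).2.2
    simp only at heq
    have e3 : κ ∩ lkF H W T' = κ ∩ lkF H W T := by rw [← e1, ← e2, heq]
    rw [e3] at heq
    exact (hF _ (hsub T)).2 T hT hc rfl T' hT' hc' e3 heq

end Pool.Agent.TH709.GG.F3
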