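import Pool.Agent.TH709.GG.Core

set_option autoImplicit false
set_option linter.unusedSectionVars false
set_option linter.unusedVariables false

/-! # Gluing and vertex splitting preserve total monotonicity -/

namespace Pool.Agent.TH709.GG

open Polynomial
open Pool.Agent.W497.FS

variable {α : Type*} {H : SimpleGraph α} [DecidableEq α]

/-- adding a vertex -/
theorem FP_insert {V : Finset α} {c : α} (hc : c ∉ V) :
    FP H (insert c V) = FP H V + X * FP H (lk H V c) := by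
  have hcW : c ∈ insert c V := Finset.mem_insert_self c V
  have h2 : (cl H (insert c V)).filter (fun σ => ¬ {c} ⊆ σ) = cl H V := by
    ext σ
    rw [Finset.mem_filter, mem_cl, mem_cl, Finset.singleton_subset_iff]
    constructor
    · rintro ⟨⟨ha, hb⟩, hn⟩
      exact ⟨fun z hz => (Finset.mem_insert.1 (ha hz)).resolve_left (fun h => hn (h ▸ hz)), hb⟩
    · rintro ⟨ha, hb⟩
      exact ⟨⟨ha.trans (Finset.subset_insert _ _), hb⟩, fun hn => hc (ha hn)⟩
  have h3 := sum_sup (H := H) (singleton_mem_cl hcW) (fun n => (X : ℤ[X]) ^ n)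
  rw [lkF_singleton, Finset.card_singleton] at h3
  have h4 : lk H (insert c V) c = lk H V c := by
    ext x
    rw [mem_lk, mem_lk, Finset.mem_insert]
    constructor
    · rintro ⟨h | h, h'⟩
      · exact absurd h' (by rw [h]; exact H.irrefl)
      · exact ⟨h, h'⟩
    · rintro ⟨h, h'⟩
      exact ⟨Or.inr h, h'⟩
  rw [FP, ← Finset.sum_filter_add_sum_filter_not (cl H (insert c V)) (fun σ => {c} ⊆ σ), h3, h2,
    h4, FP, FP, Finset.mul_sum, add_comm]
  congr 1
  refine Finset.sum_congr rfl (fun σ _ => ?_)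
  rw [pow_succ, mul_comm]

/-- union of two parts without edges across -/
theorem FP_union {A B : Finset α}
    (hAB : ∀ a ∈ A, ∀ b ∈ B, H.Adj a b → a ∈ B ∨ b ∈ A) :
    FP H (A ∪ B) = FP H A + FP H B - FP H (A ∩ B) := by
  have h1 : cl H (A ∪ B) = cl H A ∪ cl H B := by
    ext σ
    rw [Finset.mem_union, mem_cl, mem_cl, mem_cl]
    constructor
    · rintro ⟨h1, h2⟩
      by_cases hA : σ ⊆ A
      · exact Or.inl ⟨hA, h2⟩
      · right
        obtain ⟨p, hp, hpA⟩ := Finset.not_subset.1 hA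
        have hpB : p ∈ B := (Finset.mem_union.1 (h1 hp)).resolve_left hpA
        refine ⟨fun z hz => ?_, h2⟩
        by_cases hzp : z = p
        · rw [hzp]; exact hpB
        · rcases Finset.mem_union.1 (h1 hz) with h | h
          · exact (hAB z h p hpB (h2 z hz p hp hzp)).resolve_right hpA
          · exact h
    · rintro (⟨h1, h2⟩ | ⟨h1, h2⟩)
      · exact ⟨h1.trans Finset.subset_union_left, h2⟩
      · exact ⟨h1.trans Finset.subset_union_right, h2⟩
  have h2 : cl H A ∩ cl H B = cl H (A ∩ B) := by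
    ext σ
    rw [Finset.mem_inter, mem_cl, mem_cl, mem_cl, Finset.subset_inter_iff]
    tauto
  have h3 := Finset.sum_union_inter (s₁ := cl H A) (s₂ := cl H B)
    (f := fun σ => (X : ℤ[X]) ^ σ.card)
  rw [← h1, h2] at h3
  rw [FP, FP, FP, FP]
  linear_combination h3

/-! ## Gluing -/

/-- the data of a gluing: `c` is a new vertex joined exactly to `A ∩ B`, and no edge joins
`A \ B` to `B \ A` -/
structure GlueD (H : SimpleGraph α) (A B : Finset α) (c : α) : Prop where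
  hc : c ∉ A ∪ B
  hN : ∀ x ∈ A ∪ B, H.Adj c x ↔ x ∈ A ∧ x ∈ B
  hAB : ∀ a ∈ A, ∀ b ∈ B, H.Adj a b → a ∈ B ∨ b ∈ A

theorem GlueD.swap {A B : Finset α} {c : α} (h : GlueD H A B c) : GlueD H B A c where
  hc := by rw [Finset.union_comm]; exact h.hc
  hN := fun x hx => by
    rw [Finset.union_comm] at hx
    rw [h.hN x hx]; tauto
  hAB := fun a ha b hb hab => (h.hAB b hb a ha hab.symm).symm

theorem GlueD.FP_lkF {A B : Finset α} {c : α} (h : GlueD H A B c) {ρ : Finset α} (hρ : ρ ⊆ A) :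
    FP H (lkF H (A ∪ B) ρ) = FP H (lkF H (insert c A) ρ) +
      if ρ ⊆ B then FP H (lkF H (insert c B) ρ) - y * FP H (lkF H (insert c B) (insert c ρ))
      else 0 := by
  have hcA : c ∉ A := fun h' => h.hc (Finset.mem_union_left _ h')
  have hcB : c ∉ B := fun h' => h.hc (Finset.mem_union_right _ h')
  by_cases hB : ρ ⊆ B
  · rw [if_pos hB]
    have hcρ : ∀ z ∈ ρ, H.Adj z c := fun z hz =>
      ((h.hN z (Finset.mem_union_left _ (hρ hz))).2 ⟨hρ hz, hB hz⟩).symm
    have e1 : lkF H (A ∪ B) ρ = lkF H A ρ ∪ lkF H B ρ := by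
      ext x
      simp only [mem_lkF, Finset.mem_union]
      tauto
    have e2 : lkF H (insert c A) ρ = insert c (lkF H A ρ) := by
      ext x
      simp only [mem_lkF, Finset.mem_insert]
      constructor
      · rintro ⟨h1 | h1, h2⟩
        · exact Or.inl h1
        · exact Or.inr ⟨h1, h2⟩
      · rintro (h1 | ⟨h1, h2⟩)
        · exact ⟨Or.inl h1, by rw [h1]; exact hcρ⟩
        · exact ⟨Or.inr h1, h2⟩
    have e3 : lkF H (insert c B) ρ = insert c (lkF H B ρ) := by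
      ext x
      simp only [mem_lkF, Finset.mem_insert]
      constructor
      · rintro ⟨h1 | h1, h2⟩
        · exact Or.inl h1
        · exact Or.inr ⟨h1, h2⟩
      · rintro (h1 | ⟨h1, h2⟩)
        · exact ⟨Or.inl h1, by rw [h1]; exact hcρ⟩
        · exact ⟨Or.inr h1, h2⟩
    have e4 : lk H (lkF H A ρ) c = lkF H A ρ ∩ lkF H B ρ := by
      ext x
      rw [mem_lk, mem_lkF, Finset.mem_inter, mem_lkF, mem_lkF]
      constructor
      · rintro ⟨⟨h1, h2⟩, h3⟩
        have := (h.hN x (Finset.mem_union_left _ h1)).1 h3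
        exact ⟨⟨h1, h2⟩, this.2, h2⟩
      · rintro ⟨⟨h1, h2⟩, h3, -⟩
        exact ⟨⟨h1, h2⟩, (h.hN x (Finset.mem_union_left _ h1)).2 ⟨h1, h3⟩⟩
    have e5 : lk H (lkF H B ρ) c = lkF H A ρ ∩ lkF H B ρ := by
      ext x
      rw [mem_lk, mem_lkF, Finset.mem_inter, mem_lkF, mem_lkF]
      constructor
      · rintro ⟨⟨h1, h2⟩, h3⟩
        have := (h.hN x (Finset.mem_union_right _ h1)).1 h3
        exact ⟨⟨this.1, h2⟩, h1, h2⟩
      · rintro ⟨⟨h1, h2⟩, h3, -⟩
        exact ⟨⟨h3, h2⟩, (h.hN x (Finset.mem_union_right _ h3)).2 ⟨h1, h3⟩⟩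
    have e6 : lkF H (insert c B) (insert c ρ) = lkF H A ρ ∩ lkF H B ρ := by
      rw [← e5]
      ext x
      simp only [mem_lkF, mem_lk, Finset.mem_insert, forall_eq_or_imp]
      constructor
      · rintro ⟨h1 | h1, h2, h3⟩
        · exact absurd h2 (by rw [h1]; exact H.irrefl)
        · exact ⟨⟨h1, h3⟩, h2⟩
      · rintro ⟨⟨h1, h3⟩, h2⟩
        exact ⟨Or.inr h1, h2, h3⟩
    have hc1 : c ∉ lkF H A ρ := fun h' => hcA (mem_lkF.1 h').1
    have hc2 : c ∉ lkF H B ρ := fun h' => hcB (mem_lkF.1 h').1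
    rw [e1, e2, e3, e6, FP_insert hc1, FP_insert hc2, e4, e5, FP_union, y]
    · ring
    · intro a ha b hb hab
      rw [mem_lkF] at ha hb
      rcases h.hAB a ha.1 b hb.1 hab with h1 | h1
      · exact Or.inl (mem_lkF.2 ⟨h1, ha.2⟩)
      · exact Or.inr (mem_lkF.2 ⟨h1, hb.2⟩)
  · rw [if_neg hB, add_zero]
    obtain ⟨p, hp, hpB⟩ := Finset.not_subset.1 hB
    congr 1
    ext x
    simp only [mem_lkF, Finset.mem_union, Finset.mem_insert]
    constructor
    · rintro ⟨h1 | h1, h2⟩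
      · exact ⟨Or.inr h1, h2⟩
      · exact ⟨Or.inr ((h.hAB p (hρ hp) x h1 (h2 p hp)).resolve_left hpB), h2⟩
    · rintro ⟨h1 | h1, h2⟩
      · have h3 := h2 p hp
        rw [h1] at h3
        exact absurd ((h.hN p (Finset.mem_union_left _ (hρ hp))).1 h3.symm).2 hpB
      · exact ⟨Or.inl h1, h2⟩

theorem sum_cone {W σ κ : Finset α} {c : α} (hc : c ∉ κ) :
    ∑ G ∈ κ.powerset, (-y) ^ G.card * (FP H (lkF H W (σ ∪ G)) -
      y * FP H (lkF H W (insert c (σ ∪ G)))) = D H W σ (insert c κ) := by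
  rw [D_insert hc, D, D, Finset.mul_sum, ← Finset.sum_sub_distrib]
  refine Finset.sum_congr rfl (fun G _ => ?_)
  rw [Finset.insert_union]
  generalize FP H (lkF H W (insert c (σ ∪ G))) = q
  generalize FP H (lkF H W (σ ∪ G)) = r
  ring

theorem GlueD.D_eq {A B : Finset α} {c : α} (h : GlueD H A B c) {σ κ : Finset α} (hσ : σ ⊆ A)
    (hκ : κ ⊆ A) :
    D H (A ∪ B) σ κ = D H (insert c A) σ κ +
      if σ ⊆ B then D H (insert c B) σ (insert c (κ ∩ B)) else 0 := by
  have hcκ : c ∉ κ ∩ B := fun h' => h.hc (Finset.mem_union_right _ (Finset.mem_inter.1 h').2)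
  have h1 : D H (A ∪ B) σ κ = D H (insert c A) σ κ + ∑ G ∈ κ.powerset, (-y) ^ G.card *
      (if σ ∪ G ⊆ B then FP H (lkF H (insert c B) (σ ∪ G)) -
        y * FP H (lkF H (insert c B) (insert c (σ ∪ G))) else 0) := by
    rw [D, D, ← Finset.sum_add_distrib]
    refine Finset.sum_congr rfl (fun G hG => ?_)
    rw [h.FP_lkF (Finset.union_subset hσ ((Finset.mem_powerset.1 hG).trans hκ)), mul_add]
  have h2 := sum_restrict (fun G => FP H (lkF H (insert c B) (σ ∪ G)) -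
        y * FP H (lkF H (insert c B) (insert c (σ ∪ G)))) σ κ B
  rw [h1, h2, sum_cone hcκ]

theorem GlueD.mem_aux {d : ℕ} {A B : Finset α} {c : α} (h : GlueD H A B c)
    (hA : TM H d (insert c A)) (hB : TM H d (insert c B)) {σ κ : Finset α}
    (hdis : Disjoint σ κ) (hcl : σ ∪ κ ∈ cl H A) {e : ℕ} (he : e + σ.card = d) :
    D H (A ∪ B) σ κ ∈ GT ⊤ e := by
  obtain ⟨hσ, hκ⟩ := mem_cl_union hcl
  have hcA : c ∉ A := fun h' => h.hc (Finset.mem_union_left _ h')
  rw [h.D_eq (mem_cl.1 hσ).1 (mem_cl.1 hκ).1]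
  refine add_mem (hA.mem σ κ hdis (cl_mono (Finset.subset_insert c A) hcl) e he) ?_
  split_ifs with hσB
  · refine hB.mem σ _ ?_ ?_ e he
    · rw [Finset.disjoint_insert_right]
      exact ⟨fun h' => hcA ((mem_cl.1 hσ).1 h'), hdis.mono_right Finset.inter_subset_left⟩
    · rw [mem_cl] at hcl ⊢
      have hsub : ∀ z ∈ σ ∪ insert c (κ ∩ B), z = c ∨ (z ∈ A ∧ z ∈ B ∧ z ∈ σ ∪ κ) := by
        intro z hz
        rcases Finset.mem_union.1 hz with h1 | h1
        · exact Or.inr ⟨(mem_cl.1 hσ).1 h1, hσB h1, Finset.mem_union_left _ h1⟩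
        · rcases Finset.mem_insert.1 h1 with h2 | h2
          · exact Or.inl h2
          · obtain ⟨h3, h4⟩ := Finset.mem_inter.1 h2
            exact Or.inr ⟨(mem_cl.1 hκ).1 h3, h4, Finset.mem_union_right _ h3⟩
      refine ⟨fun z hz => ?_, fun p hp q hq hpq => ?_⟩
      · rcases hsub z hz with h1 | h1
        · rw [h1]; exact Finset.mem_insert_self c B
        · exact Finset.mem_insert_of_mem h1.2.1
      · rcases hsub p hp with h1 | h1 <;> rcases hsub q hq with h2 | h2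
        · exact absurd (h1.trans h2.symm) hpq
        · rw [h1]
          exact (h.hN q (Finset.mem_union_left _ h2.1)).2 ⟨h2.1, h2.2.1⟩
        · rw [h2]
          exact ((h.hN p (Finset.mem_union_left _ h1.1)).2 ⟨h1.1, h1.2.1⟩).symm
        · exact hcl.2 p h1.2.2 q h2.2.2 hpq
  · exact zero_mem _

theorem GlueD.cl_cases {A B : Finset α} {c : α} (h : GlueD H A B c) {σ : Finset α}
    (hσ : σ ∈ cl H (A ∪ B)) : σ ∈ cl H A ∨ σ ∈ cl H B := by
  rw [mem_cl] at hσ
  obtain ⟨h1, h2⟩ := hσ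
  by_cases hA : σ ⊆ A
  · exact Or.inl (mem_cl.2 ⟨hA, h2⟩)
  · right
    obtain ⟨p, hp, hpA⟩ := Finset.not_subset.1 hA
    have hpB : p ∈ B := (Finset.mem_union.1 (h1 hp)).resolve_left hpA
    refine mem_cl.2 ⟨fun z hz => ?_, h2⟩
    by_cases hzp : z = p
    · rw [hzp]; exact hpB
    · rcases Finset.mem_union.1 (h1 hz) with h' | h'
      · exact (h.hAB z h' p hpB (h2 z hz p hp hzp)).resolve_right hpA
      · exact h'

/-- **gluing preserves total monotonicity** -/
theorem GlueD.tm {d : ℕ} {A B : Finset α} {c : α} (h : GlueD H A B c)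
    (hA : TM H d (insert c A)) (hB : TM H d (insert c B)) : TM H d (A ∪ B) := by
  constructor
  · intro σ hσ
    rcases h.cl_cases hσ with h1 | h1
    · exact hA.le σ (cl_mono (Finset.subset_insert c A) h1)
    · exact hB.le σ (cl_mono (Finset.subset_insert c B) h1)
  · intro σ κ hdis hcl e he
    rcases h.cl_cases hcl with h1 | h1
    · exact h.mem_aux hA hB hdis h1 he
    · rw [Finset.union_comm A B]
      exact h.swap.mem_aux hB hA hdis h1 he

/-! ## Vertex splitting -/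

/-- the data of a splitting: the vertex `m` is replaced by the edge `uv`, which lies in no induced
4-cycle -/
structure SplitD (H : SimpleGraph α) (B : Finset α) (u v m : α) : Prop where
  hu : u ∉ B
  hv : v ∉ B
  hm : m ∉ B
  huv : H.Adj u v
  hN : ∀ x ∈ B, H.Adj m x ↔ H.Adj u x ∨ H.Adj v x
  h4 : ∀ x ∈ B, ∀ z ∈ B, H.Adj u x → ¬ H.Adj v x → H.Adj v z → ¬ H.Adj u z → ¬ H.Adj x z

theorem SplitD.swap {B : Finset α} {u v m : α} (h : SplitD H B u v m) : SplitD H B v u m where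
  hu := h.hv
  hv := h.hu
  hm := h.hm
  huv := h.huv.symm
  hN := fun x hx => by rw [h.hN x hx]; tauto
  h4 := fun x hx z hz h1 h2 h3 h4 h5 => h.h4 z hz x hx h3 h4 h1 h2 h5.symm

/-- all vertices of `ρ` are neighbours of `u` -/
def AllAdj (H : SimpleGraph α) (u : α) (ρ : Finset α) : Prop := ∀ z ∈ ρ, H.Adj u z

theorem lkF_insert_pos {V ρ : Finset α} {c : α} (h : AllAdj H c ρ) :
    lkF H (insert c V) ρ = insert c (lkF H V ρ) := by
  ext x
  simp only [mem_lkF, Finset.mem_insert]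
  constructor
  · rintro ⟨h1 | h1, h2⟩
    · exact Or.inl h1
    · exact Or.inr ⟨h1, h2⟩
  · rintro (h1 | ⟨h1, h2⟩)
    · exact ⟨Or.inl h1, by rw [h1]; exact fun z hz => (h z hz).symm⟩
    · exact ⟨Or.inr h1, h2⟩

theorem lkF_insert_neg {V ρ : Finset α} {c : α} (h : ¬ AllAdj H c ρ) :
    lkF H (insert c V) ρ = lkF H V ρ := by
  ext x
  simp only [mem_lkF, Finset.mem_insert]
  constructor
  · rintro ⟨h1 | h1, h2⟩
    · rw [h1] at h2
      exact absurd (fun z hz => (h2 z hz).symm) h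
    · exact ⟨h1, h2⟩
  · rintro ⟨h1, h2⟩
    exact ⟨Or.inr h1, h2⟩

theorem not_allAdj_insert {u : α} {ρ : Finset α} : ¬ AllAdj H u (insert u ρ) :=
  fun h => (h u (Finset.mem_insert_self u ρ)).ne rfl

theorem allAdj_insert {u v : α} {ρ : Finset α} (h : H.Adj u v) (hρ : AllAdj H u ρ) :
    AllAdj H u (insert v ρ) := by
  intro z hz
  rcases Finset.mem_insert.1 hz with rfl | hz
  · exact h
  · exact hρ z hz

theorem not_allAdj_insert' {u v : α} {ρ : Finset α} (hρ : ¬ AllAdj H u ρ) :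
    ¬ AllAdj H u (insert v ρ) :=
  fun h => hρ (fun z hz => h z (Finset.mem_insert_of_mem hz))

variable {B : Finset α} {u v m : α}

section

variable (h : SplitD H B u v m)

include h

theorem SplitD.m_of_u {ρ : Finset α} (hρ : ρ ⊆ B) (hu : AllAdj H u ρ) : AllAdj H m ρ :=
  fun z hz => (h.hN z (hρ hz)).2 (Or.inl (hu z hz))

theorem SplitD.u_or_v {ρ : Finset α} (hρ : ρ ∈ cl H B) (hm : AllAdj H m ρ) :
    AllAdj H u ρ ∨ AllAdj H v ρ := by
  by_contra hcon
  push Not at hcon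
  obtain ⟨h1, h2⟩ := hcon
  simp only [AllAdj, not_forall] at h1 h2
  obtain ⟨p, hp, hup⟩ := h1
  obtain ⟨q, hq, hvq⟩ := h2
  have hρ' := mem_cl.1 hρ
  have hvp : H.Adj v p := ((h.hN p (hρ'.1 hp)).1 (hm p hp)).resolve_left hup
  have huq : H.Adj u q := ((h.hN q (hρ'.1 hq)).1 (hm q hq)).resolve_right hvq
  have hpq : q ≠ p := fun h' => hup (h' ▸ huq)
  exact h.h4 q (hρ'.1 hq) p (hρ'.1 hp) huq hvq hvp hup (hρ'.2 q hq p hp hpq)

/-- the link of `m` in the link of `ρ` when `ρ` lies in the link of `u` only -/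
theorem SplitD.lk_m_one {ρ : Finset α} (hρ : ρ ⊆ B) (hu : AllAdj H u ρ)
    (hv : ¬ AllAdj H v ρ) : lk H (lkF H B ρ) m = lk H (lkF H B ρ) u := by
  simp only [AllAdj, not_forall] at hv
  obtain ⟨p, hp, hvp⟩ := hv
  ext x
  rw [mem_lk, mem_lk, mem_lkF]
  constructor
  · rintro ⟨⟨h1, h2⟩, h3⟩
    refine ⟨⟨h1, h2⟩, ?_⟩
    by_contra hux
    have hvx := ((h.hN x h1).1 h3).resolve_left hux
    exact h.h4 p (hρ hp) x h1 (hu p hp) hvp hvx hux (h2 p hp)
  · rintro ⟨⟨h1, h2⟩, h3⟩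
    exact ⟨⟨h1, h2⟩, (h.hN x h1).2 (Or.inl h3)⟩

/-- the link of `m` in the link of `ρ` when `ρ` lies in the links of `u` and `v` -/
theorem SplitD.FP_m_two (ρ : Finset α) :
    FP H (lk H (lkF H B ρ) m) = FP H (lk H (lkF H B ρ) u) + FP H (lk H (lkF H B ρ) v) -
      FP H (lk H (lk H (lkF H B ρ) u) v) := by
  have e1 : lk H (lkF H B ρ) m = lk H (lkF H B ρ) u ∪ lk H (lkF H B ρ) v := by
    ext x
    rw [Finset.mem_union, mem_lk, mem_lk, mem_lk]
    constructor
    · rintro ⟨h1, h2⟩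
      rcases (h.hN x (mem_lkF.1 h1).1).1 h2 with h3 | h3
      · exact Or.inl ⟨h1, h3⟩
      · exact Or.inr ⟨h1, h3⟩
    · rintro (⟨h1, h2⟩ | ⟨h1, h2⟩)
      · exact ⟨h1, (h.hN x (mem_lkF.1 h1).1).2 (Or.inl h2)⟩
      · exact ⟨h1, (h.hN x (mem_lkF.1 h1).1).2 (Or.inr h2)⟩
  have e2 : lk H (lk H (lkF H B ρ) u) v = lk H (lkF H B ρ) u ∩ lk H (lkF H B ρ) v := by
    ext x
    rw [Finset.mem_inter, mem_lk, mem_lk, mem_lk]
    tauto
  rw [e1, e2]
  refine FP_union (fun a ha b hb hab => ?_)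
  rw [mem_lk] at ha hb
  by_contra hcon
  push Not at hcon
  have h1 : ¬ H.Adj v a := fun h' => hcon.1 (mem_lk.2 ⟨ha.1, h'⟩)
  have h2 : ¬ H.Adj u b := fun h' => hcon.2 (mem_lk.2 ⟨hb.1, h'⟩)
  exact h.h4 a (mem_lkF.1 ha.1).1 b (mem_lkF.1 hb.1).1 ha.2 h1 hb.2 h2 hab

theorem SplitD.not_mem {ρ : Finset α} : u ∉ lkF H B ρ ∧ v ∉ lkF H B ρ ∧ m ∉ lkF H B ρ :=
  ⟨fun h' => h.hu (mem_lkF.1 h').1, fun h' => h.hv (mem_lkF.1 h').1,
    fun h' => h.hm (mem_lkF.1 h').1⟩

theorem lk_insert_self_adj {V : Finset α} {a b : α} (hab : H.Adj a b) :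
    lk H (insert b V) a = insert b (lk H V a) := by
  ext x
  simp only [mem_lk, Finset.mem_insert]
  constructor
  · rintro ⟨h1 | h1, h2⟩
    · exact Or.inl h1
    · exact Or.inr ⟨h1, h2⟩
  · rintro (h1 | ⟨h1, h2⟩)
    · exact ⟨Or.inl h1, by rw [h1]; exact hab⟩
    · exact ⟨Or.inr h1, h2⟩

/-- the big complex, links of `ρ` -/
theorem SplitD.big_two {ρ : Finset α} (hu : AllAdj H u ρ) (hv : AllAdj H v ρ) :
    FP H (lkF H (insert u (insert v B)) ρ) = FP H (lkF H B ρ) +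
      X * FP H (lk H (lkF H B ρ) u) + X * FP H (lk H (lkF H B ρ) v) +
      X ^ 2 * FP H (lk H (lk H (lkF H B ρ) u) v) := by
  obtain ⟨h1, h2, h3⟩ := h.not_mem (ρ := ρ)
  have h4 : u ∉ insert v (lkF H B ρ) := by
    rw [Finset.mem_insert, not_or]
    exact ⟨h.huv.ne, h1⟩
  rw [lkF_insert_pos hu, lkF_insert_pos hv, FP_insert h4, FP_insert h2,
    lk_insert_self_adj h h.huv, FP_insert (fun h' => h2 (lk_subset h'))]
  ring

theorem SplitD.big_one {ρ : Finset α} (hu : AllAdj H u ρ) (hv : ¬ AllAdj H v ρ) :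
    FP H (lkF H (insert u (insert v B)) ρ) = FP H (lkF H B ρ) +
      X * FP H (lk H (lkF H B ρ) u) := by
  obtain ⟨h1, h2, h3⟩ := h.not_mem (ρ := ρ)
  rw [lkF_insert_pos hu, lkF_insert_neg hv, FP_insert h1]

theorem SplitD.big_zero {ρ : Finset α} (hu : ¬ AllAdj H u ρ) (hv : ¬ AllAdj H v ρ) :
    lkF H (insert u (insert v B)) ρ = lkF H B ρ := by
  rw [lkF_insert_neg hu, lkF_insert_neg hv]

theorem SplitD.big_u_two {ρ : Finset α} (hv : AllAdj H v ρ) :
    FP H (lkF H (insert u (insert v B)) (insert u ρ)) = FP H (lk H (lkF H B ρ) u) +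
      X * FP H (lk H (lk H (lkF H B ρ) u) v) := by
  obtain ⟨h1, h2, h3⟩ := h.not_mem (ρ := ρ)
  rw [lkF_insert_neg not_allAdj_insert, lkF_insert_pos (allAdj_insert h.huv.symm hv),
    lkF_insert, FP_insert (fun h' => h2 (lk_subset h'))]

theorem SplitD.big_u_one {ρ : Finset α} (hv : ¬ AllAdj H v ρ) :
    lkF H (insert u (insert v B)) (insert u ρ) = lk H (lkF H B ρ) u := by
  rw [lkF_insert_neg not_allAdj_insert, lkF_insert_neg (not_allAdj_insert' hv), lkF_insert]

theorem SplitD.big_uv {ρ : Finset α} :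
    lkF H (insert u (insert v B)) (insert u (insert v ρ)) = lk H (lk H (lkF H B ρ) v) u := by
  rw [lkF_insert_neg not_allAdj_insert, lkF_insert_neg, lkF_insert, lkF_insert]
  exact not_allAdj_insert' not_allAdj_insert

theorem SplitD.small {ρ : Finset α} (hm : AllAdj H m ρ) :
    FP H (lkF H (insert m B) ρ) = FP H (lkF H B ρ) + X * FP H (lk H (lkF H B ρ) m) := by
  obtain ⟨h1, h2, h3⟩ := h.not_mem (ρ := ρ)
  rw [lkF_insert_pos hm, FP_insert h3]

theorem SplitD.small_m {ρ : Finset α} :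
    lkF H (insert m B) (insert m ρ) = lk H (lkF H B ρ) m := by
  rw [lkF_insert_neg not_allAdj_insert, lkF_insert]

end

theorem lk_lk_comm {V : Finset α} {a b : α} : lk H (lk H V a) b = lk H (lk H V b) a := by
  ext x
  simp only [mem_lk]
  tauto

theorem allAdj_iff {V ρ : Finset α} {a : α} (hρ : ρ ⊆ V) : AllAdj H a ρ ↔ ρ ⊆ lk H V a :=
  ⟨fun h z hz => mem_lk.2 ⟨hρ hz, h z hz⟩, fun h z hz => (mem_lk.1 (h hz)).2⟩

theorem allAdj_iff2 {V ρ : Finset α} {a b : α} (hρ : ρ ⊆ V) :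
    (AllAdj H a ρ ∧ AllAdj H b ρ) ↔ ρ ⊆ lk H (lk H V a) b := by
  constructor
  · rintro ⟨h1, h2⟩
    exact (allAdj_iff ((allAdj_iff hρ).1 h1)).1 h2
  · intro h
    have h1 : ρ ⊆ lk H V a := h.trans lk_subset
    exact ⟨(allAdj_iff hρ).2 h1, (allAdj_iff h1).2 h⟩

/-- **formula (F1)** -/
theorem SplitD.F1 (h : SplitD H B u v m) {ρ : Finset α} (hρ : ρ ∈ cl H B) :
    FP H (lkF H (insert u (insert v B)) ρ) = FP H (lkF H (insert m B) ρ) +
      if ρ ⊆ lk H (lk H B u) v then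
        w * FP H (lkF H (insert u (insert v B)) (insert u (insert v ρ))) else 0 := by
  have hρB := (mem_cl.1 hρ).1
  by_cases hu : AllAdj H u ρ
  · by_cases hv : AllAdj H v ρ
    · rw [if_pos ((allAdj_iff2 hρB).1 ⟨hu, hv⟩), h.big_two hu hv, h.small (h.m_of_u hρB hu),
        h.FP_m_two ρ, h.big_uv, lk_lk_comm (a := v) (b := u), w]
      ring
    · rw [if_neg (fun h' => hv ((allAdj_iff2 hρB).2 h').2), h.big_one hu hv,
        h.small (h.m_of_u hρB hu), h.lk_m_one hρB hu hv, add_zero]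
  · by_cases hv : AllAdj H v ρ
    · rw [if_neg (fun h' => hu ((allAdj_iff2 hρB).2 h').1), Finset.insert_comm,
        h.swap.big_one hv hu, h.small (h.swap.m_of_u hρB hv), h.swap.lk_m_one hρB hv hu, add_zero]
    · have hm : ¬ AllAdj H m ρ := fun hm => by
        rcases h.u_or_v hρ hm with h' | h'
        · exact hu h'
        · exact hv h'
      rw [if_neg (fun h' => hu ((allAdj_iff2 hρB).2 h').1), h.big_zero hu hv, lkF_insert_neg hm,
        add_zero]

/-- **formula (F2)** -/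
theorem SplitD.F2 (h : SplitD H B u v m) {ρ : Finset α} (hρ : ρ ⊆ B) (hu : AllAdj H u ρ) :
    FP H (lkF H (insert u (insert v B)) (insert u ρ)) =
      FP H (lkF H (insert m B) (insert m ρ)) -
      if ρ ⊆ lk H B v then
        FP H (lkF H (insert u (insert v B)) (insert v ρ)) -
        y * FP H (lkF H (insert u (insert v B)) (insert v (insert u ρ))) else 0 := by
  by_cases hv : AllAdj H v ρ
  · have e1 := h.swap.big_u_two (ρ := ρ) hu
    have e2 := h.swap.big_uv (ρ := ρ)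
    rw [Finset.insert_comm v u B] at e1 e2
    rw [if_pos ((allAdj_iff hρ).1 hv), h.big_u_two hv, h.small_m, h.FP_m_two ρ, e1, e2,
      lk_lk_comm (a := v) (b := u), y]
    ring
  · rw [if_neg (fun h' => hv ((allAdj_iff hρ).2 h')), h.big_u_one hv, h.small_m,
      h.lk_m_one hρ hu hv, sub_zero]

end Pool.Agent.TH709.GG
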