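import Pool.Agent.TH709.GG.Local3

set_option autoImplicit false
set_option linter.unusedSectionVars false
set_option linter.unusedVariables false

/-! # Flag homology spheres without far tetrahedra -/

namespace Pool.Agent.TH709.GG.F3

open Polynomial
open Pool.Agent.W497.FS

section

variable {α : Type*} {H : SimpleGraph α} [DecidableEq α]

theorem ep_of_np {d : ℕ} {W : Finset α} (hN : NP H d W) (hE : Eul H d W) : EP H d W := by
  refine ⟨fun σ hσ => ?_, hE⟩
  obtain ⟨e, he, hNP, -, -⟩ := hN.lkF hσ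
  obtain ⟨β, hβ, hc, -⟩ := hNP.exists_facet
  refine ⟨σ ∪ β, union_mem_cl hσ hβ, Finset.subset_union_left, ?_⟩
  rw [Finset.card_union_of_disjoint (disjoint_of_mem_cl_lkF hβ), hc]
  omega

theorem ep_FP_exp {d : ℕ} {W σ : Finset α} (h : EP H d W) (hσ : σ ∈ cl H W) :
    ∃ a : ℕ → ℤ, FP H (lkF H W σ) = ∑ i ∈ Finset.range ((d - σ.card) / 2 + 1),
      C (a i) * w ^ i * y ^ (d - σ.card - 2 * i) := by
  have h1 := h.card_le hσ
  have h2 := (h.link (e := d - σ.card) hσ (by omega)).FP_mem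
  obtain ⟨a, ha, -⟩ := GT_coeffs h2
  exact ⟨a, ha⟩

theorem ep_FP_of_gam {d : ℕ} {W σ : Finset α} (h : EP H d W) (hσ : σ ∈ cl H W) {g : ℕ → ℤ}
    (hg : IsGam H (d - σ.card) (lkF H W σ) g) :
    FP H (lkF H W σ) = ∑ i ∈ Finset.range ((d - σ.card) / 2 + 1),
      C (g i) * w ^ i * y ^ (d - σ.card - 2 * i) := by
  obtain ⟨a, ha⟩ := ep_FP_exp h hσ
  have hc := h.card_le hσ
  have ha' := ha
  rw [FP_sum (fun τ hτ => (h.link (e := d - σ.card) hσ (by omega)).card_le hτ)] at ha'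
  have h3 := stmB _ _ g a hg.2 ha'
  rw [ha]
  refine Finset.sum_congr rfl (fun i hi => ?_)
  rw [Finset.mem_range] at hi
  rw [h3 i (by omega)]

theorem D_expand {d : ℕ} {W : Finset α} (h : EP H d W) {g : Finset α → ℕ → ℤ}
    (hg : ∀ σ ∈ cl H W, IsGam H (d - σ.card) (lkF H W σ) (g σ)) (σ κ : Finset α)
    (hdis : Disjoint σ κ) (hcl : σ ∪ κ ∈ cl H W) (e : ℕ) (he : e + σ.card = d) :
    D H W σ κ = ∑ i ∈ Finset.range (e / 2 + 1),
        C (∑ G ∈ κ.powerset, (-1) ^ G.card * g (σ ∪ G) i) * w ^ i * y ^ (e - 2 * i) := by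
  have hGcl : ∀ G ∈ κ.powerset, σ ∪ G ∈ cl H W := fun G hG =>
    cl_of_subset hcl (Finset.union_subset_union_right (Finset.mem_powerset.1 hG))
  have hGc : ∀ G ∈ κ.powerset, (σ ∪ G).card = σ.card + G.card := fun G hG =>
    Finset.card_union_of_disjoint (hdis.mono_right (Finset.mem_powerset.1 hG))
  have h1 : ∀ G ∈ κ.powerset, (-y) ^ G.card * FP H (lkF H W (σ ∪ G)) =
      ∑ i ∈ Finset.range (e / 2 + 1),
        C ((-1) ^ G.card * g (σ ∪ G) i) * w ^ i * y ^ (e - 2 * i) := by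
    intro G hG
    have hle := h.card_le (hGcl G hG)
    have hG' := hGc G hG
    rw [ep_FP_of_gam h (hGcl G hG) (hg _ (hGcl G hG)), Finset.mul_sum]
    have hsub : Finset.range ((d - (σ ∪ G).card) / 2 + 1) ⊆ Finset.range (e / 2 + 1) := by
      intro j hj
      rw [Finset.mem_range] at hj ⊢
      omega
    rw [← Finset.sum_subset hsub]
    · refine Finset.sum_congr rfl (fun j hj => ?_)
      rw [Finset.mem_range] at hj
      have h2 : e - 2 * j = (d - (σ ∪ G).card - 2 * j) + G.card := by omega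
      rw [h2, pow_add, neg_pow, C_mul, C_pow, C_neg, C_1]
      ring
    · intro j hj hj'
      rw [Finset.mem_range] at hj hj'
      rw [(hg _ (hGcl G hG)).1 j (by omega), mul_zero, C_0, zero_mul, zero_mul]
  rw [D, Finset.sum_congr rfl h1, Finset.sum_comm]
  refine Finset.sum_congr rfl (fun j _ => ?_)
  rw [map_sum, Finset.sum_mul, Finset.sum_mul]

/-- from the polynomials to the coefficients -/
theorem total_of_D {d : ℕ} {W : Finset α} (h : EP H d W) {g : Finset α → ℕ → ℤ}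
    (hg : ∀ σ ∈ cl H W, IsGam H (d - σ.card) (lkF H W σ) (g σ)) (σ κ : Finset α)
    (hdis : Disjoint σ κ) (hcl : σ ∪ κ ∈ cl H W) {e : ℕ} (he : e + σ.card = d)
    (hD : D H W σ κ ∈ GT ⊤ e) (i : ℕ) :
    0 ≤ ∑ G ∈ κ.powerset, (-1) ^ G.card * g (σ ∪ G) i := by
  by_cases hi : i ≤ e / 2
  · obtain ⟨b, hb, hb0⟩ := GT_coeffs hD
    rw [D_expand h hg σ κ hdis hcl e he] at hb
    rw [exp_unique hb i hi]
    exact hb0 i (WithTop.coe_lt_top i)
  · refine le_of_eq (Finset.sum_eq_zero (fun G hG => ?_)).symm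
    have hG1 : σ ∪ G ∈ cl H W :=
      cl_of_subset hcl (Finset.union_subset_union_right (Finset.mem_powerset.1 hG))
    have hG' : (σ ∪ G).card = σ.card + G.card :=
      Finset.card_union_of_disjoint (hdis.mono_right (Finset.mem_powerset.1 hG))
    rw [(hg _ hG1).1 i (by omega), mul_zero]

/-- from the coefficients to the polynomials -/
theorem D_of_total {d : ℕ} {W : Finset α} (h : EP H d W) {g : Finset α → ℕ → ℤ}
    (hg : ∀ σ ∈ cl H W, IsGam H (d - σ.card) (lkF H W σ) (g σ)) (σ κ : Finset α)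
    (hdis : Disjoint σ κ) (hcl : σ ∪ κ ∈ cl H W) {e : ℕ} (he : e + σ.card = d)
    (hD : ∀ i, 0 ≤ ∑ G ∈ κ.powerset, (-1) ^ G.card * g (σ ∪ G) i) : D H W σ κ ∈ GT ⊤ e := by
  rw [D_expand h hg σ κ hdis hcl e he]
  exact GT_of_coeffs _ (fun i _ => hD i)

/-- rank five, from the vertex links -/
theorem five {W : Finset α} (hN : NP H 5 W) (hE : Eul H 5 W)
    (h : ∀ v ∈ W, FP H (lk H W v) ∈ GT ⊤ 4) : FP H W ∈ GT ⊤ 5 := by
  refine GT_improve_odd (n := 2) (t := 2) le_rfl (FP_mem_two hN hE) ?_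
  rw [aeval_derivative_FP, Finset.mul_sum]
  exact Finset.sum_nonneg (fun v hv => lam_nonneg_of_GT (n := 2) (h v hv))

theorem inter_mem_cl {W κ e : Finset α} (hκ : κ ∈ cl H W) :
    κ ∩ lkF H W e ∈ cl H (lkF H W e) := by
  rw [mem_cl] at hκ ⊢
  exact ⟨Finset.inter_subset_right, fun p hp q hq => hκ.2 p (Finset.mem_inter.1 hp).1 q
    (Finset.mem_inter.1 hq).1⟩

theorem insert_inter_mem_cl {W κ e : Finset α} {t : α} (hκ : κ ∈ cl H W)
    (hte : insert t e ∈ cl H W) (ht : t ∉ e) :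
    insert t (κ ∩ lkF H W (insert t e)) ∈ cl H (lkF H W e) := by
  have h1 := mem_cl.1 (inter_mem_cl (e := insert t e) hκ)
  have h2 := mem_cl.1 hte
  have h3 : ∀ x ∈ κ ∩ lkF H W (insert t e), H.Adj t x := fun x hx =>
    (mem_lkF.1 (Finset.mem_inter.1 hx).2).2 t (Finset.mem_insert_self t e)
  refine mem_cl.2 ⟨Finset.insert_subset ?_ (fun x hx => ?_), fun p hp q hq hne => ?_⟩
  · refine mem_lkF.2 ⟨h2.1 (Finset.mem_insert_self t e), fun z hz => ?_⟩
    exact h2.2 z (Finset.mem_insert_of_mem hz) t (Finset.mem_insert_self t e)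
      (fun h => ht (h ▸ hz))
  · have h4 := mem_lkF.1 (Finset.mem_inter.1 hx).2
    exact mem_lkF.2 ⟨h4.1, fun z hz => h4.2 z (Finset.mem_insert_of_mem hz)⟩
  · rcases Finset.mem_insert.1 hp with h | h <;> rcases Finset.mem_insert.1 hq with h' | h'
    · exact absurd (h.trans h'.symm) hne
    · rw [h]; exact h3 q h'
    · rw [h']; exact (h3 p h).symm
    · exact h1.2 p h q h' hne

end

variable {k : Type} [Field k]

/-- the induction on the rank of the link -/
theorem pairs3 {α : Type} [LinearOrder α] [Fintype α] {H : SimpleGraph α} {d : ℕ} (c : ℕ)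
    {W : Finset α} (hE : Eul H d W) (hN : NP H d W) (hS : HS k H d W)
    (h4 : ∀ σ ∈ cl H W, σ.card + 4 = d → 5 * (lkF H W σ).card ≤
      ((cl H (lkF H W σ)).filter (fun τ => τ.card = 2)).card + 16)
    (hv : ∀ σ ∈ cl H W, ∀ κ ∈ cl H (lkF H W σ), 2 * κ.card ≤ σ.card + c → σ.card + 5 ≤ d →
      (κ = ∅ → σ.card + 6 ≤ d) → (∀ e, e + σ.card = d → D H W σ κ ∈ GT ⊤ e) ∨
        ∃ v, insert v κ ∈ cl H (lkF H W σ) ∧
          ∀ τ ∈ cl H (nn H (lkF H W σ) v), τ.card ≤ 3)
    (e : ℕ) : ∀ σ ∈ cl H W, e + σ.card = d → ∀ κ ∈ cl H (lkF H W σ),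
      2 * κ.card ≤ σ.card + c → D H W σ κ ∈ GT ⊤ e := by
  have hEP := ep_of_np hN hE
  induction e using Nat.strong_induction_on with
  | _ e ih =>
  intro σ hσ he κ hκ hc
  have hEPσ := hEP.link hσ he
  by_cases h3 : e ≤ 3
  · rw [D_eq_link]
    exact hEPσ.D_low h3 hκ
  by_cases he4 : e = 4
  · subst he4
    rw [D_eq_link]
    exact (EP.tm4 hEPσ (h4 σ hσ (by omega))).mem ∅ κ (Finset.disjoint_empty_left _)
      (by rwa [Finset.empty_union]) 4 (by simp)
  obtain ⟨e', he', hNP, -, -⟩ := hN.lkF hσ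
  obtain rfl : e' = e := by omega
  have hnot : ∀ v ∈ lkF H W σ, v ∉ σ := fun v hv h => ((mem_lkF.1 hv).2 v h).ne rfl
  by_cases h5 : e' = 5 ∧ κ = ∅
  · obtain ⟨rfl, rfl⟩ := h5
    rw [D_empty]
    refine five hNP (hE.lkF_rank hσ he) (fun v hv => ?_)
    rw [← lkF_insert]
    have h1 : insert v σ ∈ cl H W := by
      have := union_mem_cl hσ (singleton_mem_cl hv)
      rwa [Finset.union_comm, ← Finset.insert_eq] at this
    have hc1 := Finset.card_insert_of_notMem (hnot v hv)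
    have h2 := ih 4 (by omega) (insert v σ) h1 (by omega) ∅ empty_mem_cl (by simp)
    rwa [D_empty] at h2
  have hcase : κ = ∅ → σ.card + 6 ≤ d := by
    intro h
    have : e' ≠ 5 := fun h' => h5 ⟨h', h⟩
    omega
  rcases hv σ hσ κ hκ hc (by omega) hcase with h | ⟨v, h1, h2⟩
  · exact h e' he
  obtain ⟨e, rfl⟩ : ∃ e, e' = e + 2 := ⟨e' - 2, by omega⟩
  have hvσ : v ∈ lkF H W σ := (mem_cl.1 h1).1 (Finset.mem_insert_self v κ)
  have key : ∀ ρ μ : Finset α, ρ ∈ cl H (lkF H W σ) → μ ∈ cl H (lkF H (lkF H W σ) ρ) →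
      ∀ r, r + ρ.card = e + 2 → ρ.Nonempty → 2 * μ.card ≤ σ.card + ρ.card + c →
        D H (lkF H W σ) ρ μ ∈ GT ⊤ r := by
    intro ρ μ hρ hμ r hr hne hcard
    rw [D_link]
    rw [lkF_lkF] at hμ
    have hdis : (σ ∪ ρ).card = σ.card + ρ.card :=
      Finset.card_union_of_disjoint (disjoint_of_mem_cl_lkF hρ)
    have hpos := Finset.card_pos.2 hne
    exact ih r (by omega) (σ ∪ ρ) (union_mem_cl hσ hρ) (by omega) μ hμ (by omega)
  rw [D_eq_link]
  refine pair3 (k := k) (hE.lkF_rank hσ he) hNP (hS.lkF hσ he) h1 h2 (fun hvκ => ?_)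
    (fun E hE2 hEc => ?_) (fun E hE2 hEc t ht hte => ?_)
  · refine key {v} κ (singleton_mem_cl hvσ) ?_ (e + 1) (by simp) (Finset.singleton_nonempty v) ?_
    · refine mem_cl_link (Finset.disjoint_singleton_left.2 hvκ) ?_
      rwa [← Finset.insert_eq]
    · omega
  · refine key E _ (cl_mono nn_subset hE2) (inter_mem_cl hκ) e (by omega)
      (by rw [← Finset.card_pos]; omega) ?_
    have := Finset.card_le_card (Finset.inter_subset_left (s₁ := κ)
      (s₂ := lkF H (lkF H W σ) E))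
    omega
  · refine key E _ (cl_mono nn_subset hE2)
      (insert_inter_mem_cl hκ (cl_mono nn_subset hte) ht) e (by omega)
      (by rw [← Finset.card_pos]; omega) ?_
    have h6 := Finset.card_le_card (Finset.inter_subset_left (s₁ := κ)
      (s₂ := lkF H (lkF H W σ) (insert t E)))
    have h7 := Finset.card_insert_le t (κ ∩ lkF H (lkF H W σ) (insert t E))
    omega

/-- **flag homology spheres, vertices from which no tetrahedron is far** -/
theorem sphere3 {n d : ℕ} (c : ℕ) {S : Finset (Finset (Fin n))} (hS : IsFlagSphere k d S)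
    {g : Finset (Fin n) → ℕ → ℤ}
    (hg : ∀ F ∈ S, IsGamma (d - F.card) (link S F) (g F) ∧ ∀ i, d < 2 * i + F.card → g F i = 0)
    (h4 : ∀ F ∈ S, F.card + 4 = d → 5 * ((link S F).filter (fun G => G.card = 1)).card ≤
      ((link S F).filter (fun G => G.card = 2)).card + 16)
    (hv : ∀ F ∈ S, ∀ T ∈ link S F, 2 * T.card ≤ F.card + c → F.card + 5 ≤ d →
      (T = ∅ → F.card + 6 ≤ d) →
      (∀ i, 0 ≤ ∑ G ∈ T.powerset, (-1) ^ G.card * g (F ∪ G) i) ∨
      ∃ v, insert v T ∈ link S F ∧ ∀ G, IsFar (link S F) v G → G.card ≤ 3) :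
    ∀ F ∈ S, ∀ T ∈ link S F, 2 * T.card ≤ F.card + c →
      ∀ i, 0 ≤ ∑ G ∈ T.powerset, (-1) ^ G.card * g (F ∪ G) i := by
  have hcl := hS.cl_eq
  have hN := hS.np
  have hE := hS.eul
  have hEP := ep_of_np hN hE
  obtain ⟨r, hr⟩ := hS
  have hHS : HS k (skel S) d (vert S) :=
    Pool.Agent.W216.FS.HR.main Pool.Agent.W216.FS.BB.main k n d S r hr
  have e1 : ∀ σ ∈ S, link S σ = cl (skel S) (lkF (skel S) (vert S) σ) := by
    intro σ hσ
    conv_lhs => rw [← hcl]
    exact link_cl (by rwa [hcl])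
  have hg' : ∀ σ ∈ cl (skel S) (vert S),
      IsGam (skel S) (d - σ.card) (lkF (skel S) (vert S) σ) (g σ) := by
    intro σ hσ
    have hc := hEP.card_le hσ
    rw [hcl] at hσ
    obtain ⟨h1, h2⟩ := hg σ hσ
    rw [IsGamma, e1 σ hσ] at h1
    exact ⟨fun i hi => h2 i (by omega), h1⟩
  have hpair : ∀ σ ∈ cl (skel S) (vert S), ∀ κ ∈ cl (skel S) (lkF (skel S) (vert S) σ),
      Disjoint σ κ ∧ σ ∪ κ ∈ cl (skel S) (vert S) := fun σ hσ κ hκ =>
    ⟨disjoint_of_mem_cl_lkF hκ, union_mem_cl hσ hκ⟩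
  have h4' : ∀ σ ∈ cl (skel S) (vert S), σ.card + 4 = d → 5 * (lkF (skel S) (vert S) σ).card ≤
      ((cl (skel S) (lkF (skel S) (vert S) σ)).filter (fun τ => τ.card = 2)).card + 16 := by
    intro σ hσ hc
    rw [hcl] at hσ
    have h1 := h4 σ hσ hc
    rw [e1 σ hσ] at h1
    have h2 : ((cl (skel S) (lkF (skel S) (vert S) σ)).filter (fun κ => κ.card = 1)).card =
        (lkF (skel S) (vert S) σ).card := by
      symm
      refine Finset.card_bij (fun a _ => {a}) ?_ ?_ ?_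
      · intro a ha
        exact Finset.mem_filter.2 ⟨singleton_mem_cl ha, Finset.card_singleton a⟩
      · intro a _ b _ hab
        exact Finset.singleton_injective hab
      · intro κ hκ
        obtain ⟨h5, h6⟩ := Finset.mem_filter.1 hκ
        obtain ⟨a, rfl⟩ := Finset.card_eq_one.1 h6
        exact ⟨a, (mem_cl.1 h5).1 (Finset.mem_singleton_self a), rfl⟩
    rwa [h2] at h1
  have hv' : ∀ σ ∈ cl (skel S) (vert S), ∀ κ ∈ cl (skel S) (lkF (skel S) (vert S) σ),
      2 * κ.card ≤ σ.card + c → σ.card + 5 ≤ d → (κ = ∅ → σ.card + 6 ≤ d) →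
      (∀ e, e + σ.card = d → D (skel S) (vert S) σ κ ∈ GT ⊤ e) ∨
        ∃ v, insert v κ ∈ cl (skel S) (lkF (skel S) (vert S) σ) ∧
          ∀ τ ∈ cl (skel S) (nn (skel S) (lkF (skel S) (vert S) σ) v), τ.card ≤ 3 := by
    intro σ hσ κ hκ hc h5 h6
    obtain ⟨h7, h8⟩ := hpair σ hσ κ hκ
    have hσ' : σ ∈ S := by rwa [hcl] at hσ
    rcases hv σ hσ' κ (by rwa [e1 σ hσ']) hc h5 h6 with h | ⟨v, h1, h2⟩
    · exact Or.inl (fun e he => D_of_total hEP hg' σ κ h7 h8 he h)
    · rw [e1 σ hσ'] at h1 h2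
      exact Or.inr ⟨v, h1, fun τ hτ => h2 τ ((far_iff
        ((mem_cl.1 h1).1 (Finset.mem_insert_self v κ))).2 hτ)⟩
  intro F hF T hT hc i
  have hF' : F ∈ cl (skel S) (vert S) := by rwa [hcl]
  rw [e1 F hF] at hT
  obtain ⟨h7, h8⟩ := hpair F hF' T hT
  have hle := hEP.card_le hF'
  have he : (d - F.card) + F.card = d := by omega
  exact total_of_D hEP hg' F T h7 h8 he
    (pairs3 (k := k) c hE hN hHS h4' hv' (d - F.card) F hF' he T hT hc) i

/-- the gamma-vectors of the links exist -/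
theorem exists_g {n d : ℕ} {S : Finset (Finset (Fin n))} (hS : IsFlagSphere k d S) :
    ∀ F ∈ S, ∃ g : ℕ → ℤ, IsGamma (d - F.card) (link S F) g ∧
      ∀ i, d < 2 * i + F.card → g i = 0 := by
  intro F hF
  have hEP := ep_of_np hS.np hS.eul
  have hcl := hS.cl_eq
  have hF' : F ∈ cl (skel S) (vert S) := by rwa [hcl]
  have hc := hEP.card_le hF'
  have e1 : link S F = cl (skel S) (lkF (skel S) (vert S) F) := by
    conv_lhs => rw [← hcl]
    exact link_cl hF'
  obtain ⟨a, ha⟩ := ep_FP_exp hEP hF'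
  rw [FP_sum (fun τ hτ => (hEP.link (e := d - F.card) hF' (by omega)).card_le hτ)] at ha
  have h3 := h_of_f _ _ a ha
  refine ⟨fun i => if i ≤ (d - F.card) / 2 then a i else 0, ?_, fun i hi => ?_⟩
  · rw [IsGamma, e1, h3]
    refine Finset.sum_congr rfl (fun i hi => ?_)
    rw [Finset.mem_range] at hi
    rw [if_pos (by omega)]
  · dsimp only
    rw [if_neg]
    omega

/-- **flag homology 5-spheres with a vertex from which no tetrahedron is far** -/
theorem sphere6 {n : ℕ} {S : Finset (Finset (Fin n))} (hS : IsFlagSphere k 6 S)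
    (h4 : ∀ F ∈ S, F.card = 2 → 5 * ((link S F).filter (fun G => G.card = 1)).card ≤
      ((link S F).filter (fun G => G.card = 2)).card + 16)
    (hv : ∃ v, ({v} : Finset (Fin n)) ∈ S ∧ ∀ G, IsFar S v G → G.card ≤ 3)
    {γ : ℕ → ℤ} (hγ : IsGamma 6 S γ) : ∀ i ≤ 3, 0 ≤ γ i := by
  have hempty : (∅ : Finset (Fin n)) ∈ S := by
    rw [← hS.cl_eq]; exact empty_mem_cl
  have hlink : link S ∅ = S := by
    ext G
    rw [link, Finset.mem_filter]
    simp
  have hex := exists_g hS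
  classical
  let g : Finset (Fin n) → ℕ → ℤ := fun F =>
    if F = ∅ then (fun i => if i ≤ 3 then γ i else 0) else
      if h : F ∈ S then (hex F h).choose else 0
  have hg : ∀ F ∈ S, IsGamma (6 - F.card) (link S F) (g F) ∧
      ∀ i, 6 < 2 * i + F.card → g F i = 0 := by
    intro F hF
    by_cases hF0 : F = ∅
    · subst hF0
      have hg0 : g ∅ = fun i => if i ≤ 3 then γ i else 0 := if_pos rfl
      rw [hg0, hlink]
      refine ⟨?_, fun i hi => ?_⟩
      · rw [IsGamma] at hγ ⊢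
        rw [Finset.card_empty, Nat.sub_zero, hγ]
        refine Finset.sum_congr rfl (fun i hi => ?_)
        rw [Finset.mem_range] at hi
        rw [if_pos (by omega)]
      · rw [Finset.card_empty] at hi
        dsimp only
        rw [if_neg (by omega)]
    · have hgF : g F = (hex F hF).choose := by
        simp only [g]
        rw [if_neg hF0, dif_pos hF]
      rw [hgF]
      exact (hex F hF).choose_spec
  have h5 := sphere3 0 hS hg (fun F hF hc => h4 F hF (by omega)) (fun F hF T hT h1 h2 h3 => ?_)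
    ∅ hempty ∅ (by rw [hlink]; exact hempty) (by simp)
  · intro i hi
    have h6 := h5 i
    rw [Finset.powerset_empty, Finset.sum_singleton, Finset.card_empty, pow_zero, one_mul,
      Finset.union_empty] at h6
    have h7 : g ∅ i = γ i := by
      simp only [g, if_true]
      rw [if_pos hi]
    rwa [h7] at h6
  · right
    have hT0 : T = ∅ := Finset.card_eq_zero.1 (by omega)
    have h4 := h3 hT0
    have hF0 : F = ∅ := Finset.card_eq_zero.1 (by omega)
    rw [hT0, hF0, hlink]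
    obtain ⟨v, hv1, hv2⟩ := hv
    exact ⟨v, by rwa [insert_empty_eq], hv2⟩

end Pool.Agent.TH709.GG.F3
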