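import Pool.Agent.TH709.GG.Sph3

set_option autoImplicit false
set_option linter.unusedSectionVars false
set_option linter.unusedVariables false

/-! # The criterion for a set of pairs -/

namespace Pool.Agent.TH709.GG.F3

open Polynomial
open Pool.Agent.W497.FS

variable {k : Type} [Field k]

/-- the induction on the rank of the link, for a set `P` of pairs -/
theorem pairsP {α : Type} [LinearOrder α] [Fintype α] {H : SimpleGraph α} {d : ℕ}
    {W : Finset α} (hE : Eul H d W) (hN : NP H d W) (hS : HS k H d W)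
    (h4 : ∀ σ ∈ cl H W, σ.card + 4 = d → 5 * (lkF H W σ).card ≤
      ((cl H (lkF H W σ)).filter (fun τ => τ.card = 2)).card + 16)
    (P : Finset α → Finset α → Prop)
    (hv : ∀ σ ∈ cl H W, ∀ κ ∈ cl H (lkF H W σ), P σ κ → σ.card + 5 ≤ d →
      (κ = ∅ → σ.card + 6 ≤ d) → (∀ e, e + σ.card = d → D H W σ κ ∈ GT ⊤ e) ∨
        ∃ v, insert v κ ∈ cl H (lkF H W σ) ∧
          (∀ τ ∈ cl H (nn H (lkF H W σ) v), τ.card ≤ 3) ∧
          (v ∉ κ → P (insert v σ) κ) ∧
          (∀ E ∈ cl H (nn H (lkF H W σ) v), E.card = 2 →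
            P (σ ∪ E) (κ ∩ lkF H (lkF H W σ) E)) ∧
          (∀ R ∈ cl H (nn H (lkF H W σ) v), R.card = 3 → ∀ t ∈ R,
            P (σ ∪ R.erase t) (insert t (κ ∩ lkF H (lkF H W σ) R))))
    (e : ℕ) : ∀ σ ∈ cl H W, e + σ.card = d → ∀ κ ∈ cl H (lkF H W σ),
      P σ κ ∨ e = 4 → D H W σ κ ∈ GT ⊤ e := by
  have hEP := ep_of_np hN hE
  induction e using Nat.strong_induction_on with
  | _ e ih =>
  intro σ hσ he κ hκ hP'
  have hEPσ := hEP.link hσ he
  by_cases h3 : e ≤ 3
  · rw [D_eq_link]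
    exact hEPσ.D_low h3 hκ
  by_cases he4 : e = 4
  · subst he4
    rw [D_eq_link]
    exact (EP.tm4 hEPσ (h4 σ hσ (by omega))).mem ∅ κ (Finset.disjoint_empty_left _)
      (by rwa [Finset.empty_union]) 4 (by simp)
  have hP : P σ κ := hP'.resolve_right he4
  obtain ⟨e', he', hNP, -, -⟩ := hN.lkF hσ
  obtain rfl : e' = e := by omega
  have hnot : ∀ v ∈ lkF H W σ, v ∉ σ := fun v hv h => ((mem_lkF.1 hv).2 v h).ne rfl
  by_cases h5 : e' = 5 ∧ κ = ∅
  · obtain ⟨rfl, rfl⟩ := h5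
    rw [D_empty]
    refine five hNP (hE.lkF_rank hσ he) (fun v hv => ?_)
    rw [← lkF_insert]
    have h1 : insert v σ ∈ cl H W := by
      have := union_mem_cl hσ (singleton_mem_cl hv)
      rwa [Finset.union_comm, ← Finset.insert_eq] at this
    have hc1 := Finset.card_insert_of_notMem (hnot v hv)
    have h2 := ih 4 (by omega) (insert v σ) h1 (by omega) ∅ empty_mem_cl (Or.inr rfl)
    rwa [D_empty] at h2
  have hcase : κ = ∅ → σ.card + 6 ≤ d := by
    intro h
    have : e' ≠ 5 := fun h' => h5 ⟨h', h⟩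
    omega
  rcases hv σ hσ κ hκ hP (by omega) hcase with h | ⟨v, h1, h2, p1, p2, p3⟩
  · exact h e' he
  obtain ⟨e, rfl⟩ : ∃ e, e' = e + 2 := ⟨e' - 2, by omega⟩
  have hvσ : v ∈ lkF H W σ := (mem_cl.1 h1).1 (Finset.mem_insert_self v κ)
  have key : ∀ ρ μ : Finset α, ρ ∈ cl H (lkF H W σ) → μ ∈ cl H (lkF H (lkF H W σ) ρ) →
      ∀ r, r + ρ.card = e + 2 → ρ.Nonempty → P (σ ∪ ρ) μ →
        D H (lkF H W σ) ρ μ ∈ GT ⊤ r := by
    intro ρ μ hρ hμ r hr hne hcard
    rw [D_link]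
    rw [lkF_lkF] at hμ
    have hdis : (σ ∪ ρ).card = σ.card + ρ.card :=
      Finset.card_union_of_disjoint (disjoint_of_mem_cl_lkF hρ)
    have hpos := Finset.card_pos.2 hne
    exact ih r (by omega) (σ ∪ ρ) (union_mem_cl hσ hρ) (by omega) μ hμ (Or.inl hcard)
  rw [D_eq_link]
  refine pair3 (k := k) (hE.lkF_rank hσ he) hNP (hS.lkF hσ he) h1 h2 (fun hvκ => ?_)
    (fun E hE2 hEc => ?_) (fun E hE2 hEc t ht hte => ?_)
  · refine key {v} κ (singleton_mem_cl hvσ) ?_ (e + 1) (by simp) (Finset.singleton_nonempty v) ?_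
    · refine mem_cl_link (Finset.disjoint_singleton_left.2 hvκ) ?_
      rwa [← Finset.insert_eq]
    · rw [Finset.union_comm, ← Finset.insert_eq]
      exact p1 hvκ
  · exact key E _ (cl_mono nn_subset hE2) (inter_mem_cl hκ) e (by omega)
      (by rw [← Finset.card_pos]; omega) (p2 E hE2 hEc)
  · refine key E _ (cl_mono nn_subset hE2)
      (insert_inter_mem_cl hκ (cl_mono nn_subset hte) ht) e (by omega)
      (by rw [← Finset.card_pos]; omega) ?_
    have h6 := p3 (insert t E) hte (by rw [Finset.card_insert_of_notMem ht, hEc]) t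
      (Finset.mem_insert_self t E)
    rwa [Finset.erase_insert ht] at h6

/-- the common neighbours of `E` in `T`, in terms of the complex -/
theorem filter_eq_inter {n : ℕ} {H : SimpleGraph (Fin n)} {W F T E : Finset (Fin n)} {v : Fin n}
    (hF : F ∈ cl H W) (hT : insert v T ∈ cl H (lkF H W F))
    (hE : E ∈ cl H (nn H (lkF H W F) v)) :
    T.filter (fun x => insert x (F ∪ E) ∈ cl H W) = T ∩ lkF H (lkF H W F) E := by
  have hEcl : E ∈ cl H (lkF H W F) := cl_mono nn_subset hE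
  have hT' := mem_cl.1 hT
  ext x
  rw [Finset.mem_filter, Finset.mem_inter]
  refine and_congr_right (fun hx => ?_)
  have hxF : x ∈ lkF H W F := hT'.1 (Finset.mem_insert_of_mem hx)
  constructor
  · intro h
    refine mem_lkF.2 ⟨hxF, fun e he => ?_⟩
    have hxe : e ≠ x := by
      rintro rfl
      obtain ⟨-, h1, h2⟩ := mem_nn.1 ((mem_cl.1 hE).1 he)
      exact h2 (hT'.2 v (Finset.mem_insert_self v T) e (Finset.mem_insert_of_mem hx) h1.symm)
    exact (mem_cl.1 h).2 e (Finset.mem_insert_of_mem (Finset.mem_union_right _ he)) x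
      (Finset.mem_insert_self _ _) hxe
  · intro h
    have h1 : {x} ∈ cl H (lkF H W (F ∪ E)) := by
      refine singleton_mem_cl ?_
      rw [← lkF_lkF]
      exact h
    have h2 := union_mem_cl (union_mem_cl hF hEcl) h1
    rwa [Finset.union_comm, ← Finset.insert_eq] at h2

/-- **the criterion for a set of pairs** -/
theorem sphereP {n d : ℕ} {S : Finset (Finset (Fin n))} (hS : IsFlagSphere k d S)
    {g : Finset (Fin n) → ℕ → ℤ}
    (hg : ∀ F ∈ S, IsGamma (d - F.card) (link S F) (g F) ∧ ∀ i, d < 2 * i + F.card → g F i = 0)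
    (h4 : ∀ F ∈ S, F.card + 4 = d → 5 * ((link S F).filter (fun G => G.card = 1)).card ≤
      ((link S F).filter (fun G => G.card = 2)).card + 16)
    (P : Finset (Fin n) → Finset (Fin n) → Prop)
    (hv : ∀ F ∈ S, ∀ T ∈ link S F, P F T → F.card + 5 ≤ d → (T = ∅ → F.card + 6 ≤ d) →
      (∀ i, 0 ≤ ∑ G ∈ T.powerset, (-1) ^ G.card * g (F ∪ G) i) ∨
      ∃ v, insert v T ∈ link S F ∧ (∀ G, IsFar (link S F) v G → G.card ≤ 3) ∧
        (v ∉ T → P (insert v F) T) ∧
        (∀ E, IsFar (link S F) v E → E.card = 2 →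
          P (F ∪ E) (T.filter (fun x => insert x (F ∪ E) ∈ S))) ∧
        (∀ R, IsFar (link S F) v R → R.card = 3 → ∀ t ∈ R,
          P (F ∪ R.erase t) (insert t (T.filter (fun x => insert x (F ∪ R) ∈ S))))) :
    ∀ F ∈ S, ∀ T ∈ link S F, P F T →
      ∀ i, 0 ≤ ∑ G ∈ T.powerset, (-1) ^ G.card * g (F ∪ G) i := by
  have hcl := hS.cl_eq
  have hN := hS.np
  have hE := hS.eul
  have hEP := ep_of_np hN hE
  obtain ⟨r, hr⟩ := hS
  have hHS : HS k (skel S) d (vert S) :=
    Pool.Agent.W216.FS.HR.main Pool.Agent.W216.FS.BB.main k n d S r hr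
  have e1 : ∀ σ ∈ S, link S σ = cl (skel S) (lkF (skel S) (vert S) σ) := by
    intro σ hσ
    conv_lhs => rw [← hcl]
    exact link_cl (by rwa [hcl])
  have hg' : ∀ σ ∈ cl (skel S) (vert S),
      IsGam (skel S) (d - σ.card) (lkF (skel S) (vert S) σ) (g σ) := by
    intro σ hσ
    have hc := hEP.card_le hσ
    rw [hcl] at hσ
    obtain ⟨h1, h2⟩ := hg σ hσ
    rw [IsGamma, e1 σ hσ] at h1
    exact ⟨fun i hi => h2 i (by omega), h1⟩
  have hpair : ∀ σ ∈ cl (skel S) (vert S), ∀ κ ∈ cl (skel S) (lkF (skel S) (vert S) σ),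
      Disjoint σ κ ∧ σ ∪ κ ∈ cl (skel S) (vert S) := fun σ hσ κ hκ =>
    ⟨disjoint_of_mem_cl_lkF hκ, union_mem_cl hσ hκ⟩
  have h4' : ∀ σ ∈ cl (skel S) (vert S), σ.card + 4 = d → 5 * (lkF (skel S) (vert S) σ).card ≤
      ((cl (skel S) (lkF (skel S) (vert S) σ)).filter (fun τ => τ.card = 2)).card + 16 := by
    intro σ hσ hc
    rw [hcl] at hσ
    have h1 := h4 σ hσ hc
    rw [e1 σ hσ] at h1
    have h2 : ((cl (skel S) (lkF (skel S) (vert S) σ)).filter (fun κ => κ.card = 1)).card =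
        (lkF (skel S) (vert S) σ).card := by
      symm
      refine Finset.card_bij (fun a _ => {a}) ?_ ?_ ?_
      · intro a ha
        exact Finset.mem_filter.2 ⟨singleton_mem_cl ha, Finset.card_singleton a⟩
      · intro a _ b _ hab
        exact Finset.singleton_injective hab
      · intro κ hκ
        obtain ⟨h5, h6⟩ := Finset.mem_filter.1 hκ
        obtain ⟨a, rfl⟩ := Finset.card_eq_one.1 h6
        exact ⟨a, (mem_cl.1 h5).1 (Finset.mem_singleton_self a), rfl⟩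
    rwa [h2] at h1
  have hfil : ∀ σ ∈ S, ∀ (v : Fin n) (κ E : Finset (Fin n)),
      insert v κ ∈ cl (skel S) (lkF (skel S) (vert S) σ) →
      E ∈ cl (skel S) (nn (skel S) (lkF (skel S) (vert S) σ) v) →
      κ.filter (fun x => insert x (σ ∪ E) ∈ S) =
        κ ∩ lkF (skel S) (lkF (skel S) (vert S) σ) E := by
    intro σ hσ v κ E h1 h2
    rw [← filter_eq_inter (by rwa [hcl]) h1 h2]
    refine Finset.filter_congr (fun x _ => ?_)
    rw [hcl]
  have hv' : ∀ σ ∈ cl (skel S) (vert S), ∀ κ ∈ cl (skel S) (lkF (skel S) (vert S) σ),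
      P σ κ → σ.card + 5 ≤ d → (κ = ∅ → σ.card + 6 ≤ d) →
      (∀ e, e + σ.card = d → D (skel S) (vert S) σ κ ∈ GT ⊤ e) ∨
        ∃ v, insert v κ ∈ cl (skel S) (lkF (skel S) (vert S) σ) ∧
          (∀ τ ∈ cl (skel S) (nn (skel S) (lkF (skel S) (vert S) σ) v), τ.card ≤ 3) ∧
          (v ∉ κ → P (insert v σ) κ) ∧
          (∀ E ∈ cl (skel S) (nn (skel S) (lkF (skel S) (vert S) σ) v), E.card = 2 →
            P (σ ∪ E) (κ ∩ lkF (skel S) (lkF (skel S) (vert S) σ) E)) ∧
          (∀ R ∈ cl (skel S) (nn (skel S) (lkF (skel S) (vert S) σ) v), R.card = 3 → ∀ t ∈ R,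
            P (σ ∪ R.erase t)
              (insert t (κ ∩ lkF (skel S) (lkF (skel S) (vert S) σ) R))) := by
    intro σ hσ κ hκ hc h5 h6
    obtain ⟨h7, h8⟩ := hpair σ hσ κ hκ
    have hσ' : σ ∈ S := by rwa [hcl] at hσ
    rcases hv σ hσ' κ (by rwa [e1 σ hσ']) hc h5 h6 with h | ⟨v, h1, h2, p1, p2, p3⟩
    · exact Or.inl (fun e he => D_of_total hEP hg' σ κ h7 h8 he h)
    · rw [e1 σ hσ'] at h1 h2 p2 p3
      have hfar : ∀ τ ∈ cl (skel S) (nn (skel S) (lkF (skel S) (vert S) σ) v),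
          IsFar (cl (skel S) (lkF (skel S) (vert S) σ)) v τ := fun τ hτ =>
        (far_iff ((mem_cl.1 h1).1 (Finset.mem_insert_self v κ))).2 hτ
      refine Or.inr ⟨v, h1, fun τ hτ => h2 τ (hfar τ hτ), p1, fun E hE2 hEc => ?_,
        fun R hR hRc t ht => ?_⟩
      · rw [← hfil σ hσ' v κ E h1 hE2]
        exact p2 E (hfar E hE2) hEc
      · rw [← hfil σ hσ' v κ R h1 hR]
        exact p3 R (hfar R hR) hRc t ht
  intro F hF T hT hc i
  have hF' : F ∈ cl (skel S) (vert S) := by rwa [hcl]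
  rw [e1 F hF] at hT
  obtain ⟨h7, h8⟩ := hpair F hF' T hT
  have hle := hEP.card_le hF'
  have he : (d - F.card) + F.card = d := by omega
  exact total_of_D hEP hg' F T h7 h8 he
    (pairsP (k := k) hE hN hHS h4' P hv' (d - F.card) F hF' he T hT (Or.inl hc)) i

end Pool.Agent.TH709.GG.F3
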