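import Pool.Agent.TH709.GG.Sph4

set_option autoImplicit false
set_option linter.unusedSectionVars false
set_option linter.unusedVariables false

/-! # Flag homology 6-spheres: averaging over the vertices of the links of far edges -/

namespace Pool.Agent.TH709.GG.F3

open Polynomial
open Pool.Agent.W497.FS

variable {k : Type} [Field k] {α : Type} [LinearOrder α] [Fintype α] {H : SimpleGraph α}

/-- rank seven: the bracket of a vertex from which no tetrahedron is far -/
theorem Bk_seven {W : Finset α} (hN : NP H 7 W) (hE : Eul H 7 W) (hS : HS k H 7 W) {v : α}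
    (hv : v ∈ W) (h3 : ∀ κ ∈ cl H (nn H W v), κ.card ≤ 3)
    (h4 : ∀ σ ∈ cl H W, σ.card = 3 → FP H (lkF H W σ) ∈ GT ⊤ 4) : Bk H W v ∈ GT ⊤ 5 := by
  classical
  obtain ⟨f, hf1, hf2⟩ := exists_matching (acyclic_nn hS hN hv 3) h3
  set E2 := (cl H (nn H W v)).filter (fun κ => κ.card = 2) with hE2
  set T3 := (cl H (nn H W v)).filter (fun κ => κ.card = 3) with hT3
  have hsum : Bk H W v = ∑ e ∈ E2, FP H (lkF H W e) - ∑ T ∈ T3, y * FP H (lkF H W T) := by
    rw [Bk, hE2, hT3, Finset.sum_filter, Finset.sum_filter, ← Finset.sum_sub_distrib]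
    refine Finset.sum_congr rfl (fun κ hκ => ?_)
    have hle := h3 κ hκ
    have hcases : κ.card = 0 ∨ κ.card = 1 ∨ κ.card = 2 ∨ κ.card = 3 := by omega
    rcases hcases with hc | hc | hc | hc
    · simp [hc, sj_zero]
    · simp [hc, sj_zero]
    · simp [hc, sj_one]
    · rw [hc]
      simp only [show ¬ (3 : ℕ) = 2 by norm_num, if_false, if_true, show 3 - 1 = 2 from rfl, sj_two,
        y]
      ring
  have hfmem : ∀ T ∈ T3, f T ∈ E2 := by
    intro T hT
    obtain ⟨h1, h2⟩ := Finset.mem_filter.1 hT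
    obtain ⟨h3, h5⟩ := hf1 T h1 h2
    exact Finset.mem_filter.2 ⟨cl_of_subset h1 h3, h5⟩
  have himg : T3.image f ⊆ E2 := by
    intro e he
    obtain ⟨T, hT, rfl⟩ := Finset.mem_image.1 he
    exact hfmem T hT
  have hinj : Set.InjOn f T3 := by
    intro T hT T' hT' heq
    obtain ⟨h1, h2⟩ := Finset.mem_filter.1 hT
    obtain ⟨h3, h5⟩ := Finset.mem_filter.1 hT'
    exact hf2 T h1 h2 T' h3 h5 heq
  have hsum2 : Bk H W v = ∑ e ∈ E2 \ T3.image f, FP H (lkF H W e) +
      ∑ T ∈ T3, (FP H (lkF H W (f T)) - y * FP H (lkF H W T)) := by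
    rw [hsum, ← Finset.sum_sdiff himg, Finset.sum_image hinj, Finset.sum_sub_distrib]
    ring
  have hE2cl : ∀ e ∈ E2, e ∈ cl H W ∧ e.card = 2 := fun e he =>
    ⟨cl_mono nn_subset (Finset.mem_filter.1 he).1, (Finset.mem_filter.1 he).2⟩
  have hT3cl : ∀ T ∈ T3, T ∈ cl H W ∧ T.card = 3 := fun T hT =>
    ⟨cl_mono nn_subset (Finset.mem_filter.1 hT).1, (Finset.mem_filter.1 hT).2⟩
  have hrank : ∀ e ∈ E2, NP H 5 (lkF H W e) ∧ Eul H 5 (lkF H W e) := by
    intro e he
    obtain ⟨h1, h2⟩ := hE2cl e he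
    obtain ⟨r, hr, hNP, -, -⟩ := hN.lkF h1
    obtain rfl : r = 5 := by omega
    exact ⟨hNP, hE.lkF_rank h1 (by omega)⟩
  -- the coefficients with i < 2
  have hmem : Bk H W v ∈ GT 2 5 := by
    rw [hsum2]
    refine add_mem (sum_mem (fun e he => ?_)) (sum_mem (fun T hT => ?_))
    · obtain ⟨h1, h2⟩ := hrank e (Finset.mem_sdiff.1 he).1
      exact FP_mem_two h1 h2
    · obtain ⟨h1, h2⟩ := Finset.mem_filter.1 hT
      obtain ⟨h6, h5⟩ := hf1 T h1 h2
      obtain ⟨hX, hEX⟩ := hrank (f T) (hfmem T hT)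
      obtain ⟨t, ht, htf⟩ : ∃ t ∈ T, t ∉ f T := by
        by_contra hcon
        push Not at hcon
        have := Finset.card_le_card (show T ⊆ f T from hcon)
        omega
      have hTi : insert t (f T) = T := by
        refine Finset.eq_of_subset_of_card_le (Finset.insert_subset ht h6) ?_
        rw [Finset.card_insert_of_notMem htf]
        omega
      have htX : t ∈ lkF H W (f T) := by
        have hTW := mem_cl.1 (cl_mono nn_subset h1)
        exact mem_lkF.2 ⟨hTW.1 ht, fun z hz => hTW.2 z (h6 hz) t ht (fun h => htf (h ▸ hz))⟩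
      have hlk : lkF H W T = lk H (lkF H W (f T)) t := by
        conv_lhs => rw [← hTi]
        rw [lkF_insert]
      have h7 := FP_vertex hEX htX
      rw [hlk, h7, add_sub_cancel_left]
      have h8 := GT_w (Bk_mem_one (d := 3) hX hEX htX)
      have h12 : (1 : ℕ∞) + 1 = 2 := by norm_num
      rwa [h12] at h8
  refine GT_improve_odd (n := 2) (t := 2) le_rfl hmem ?_
  -- the top coefficient
  have hnn : ∀ σ ∈ cl H W, σ.card = 3 → 0 ≤ lam H (lkF H W σ) := by
    intro σ hσ hc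
    have := lam_nonneg_of_GT (n := 2) (h4 σ hσ hc)
    simpa using this
  have hy2 : derivative y = 2 := by
    rw [y]
    simp only [derivative_mul, derivative_X, derivative_add, derivative_one, derivative_ofNat]
    ring
  have e2 : ∀ T ∈ T3, aeval (-1 / 2 : ℚ) (derivative (y * FP H (lkF H W T))) =
      2 * lam H (lkF H W T) := by
    intro T hT
    have h2 : aeval (-1 / 2 : ℚ) (2 : ℤ[X]) = 2 := map_ofNat _ 2
    rw [derivative_mul, map_add, map_mul, map_mul, aeval_y, hy2, h2, aeval_FP, zero_mul, add_zero]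
  have e1 : ∀ e ∈ E2, aeval (-1 / 2 : ℚ) (derivative (FP H (lkF H W e))) =
      ∑ x ∈ lkF H W e, lam H (lkF H W (insert x e)) := by
    intro e _
    rw [aeval_derivative_FP]
    exact Finset.sum_congr rfl (fun x _ => by rw [lkF_insert])
  have hkey : ∑ T ∈ T3, ∑ t ∈ T, lam H (lkF H W T) ≤
      ∑ e ∈ E2, ∑ x ∈ lkF H W e, lam H (lkF H W (insert x e)) := by
    rw [Finset.sum_sigma', Finset.sum_sigma']
    have hmaps : ∀ a ∈ T3.sigma (fun T => T), (⟨a.1.erase a.2, a.2⟩ : Σ _ : Finset α, α) ∈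
        E2.sigma (fun e => lkF H W e) := by
      rintro ⟨T, t⟩ ha
      obtain ⟨hT, ht⟩ := Finset.mem_sigma.1 ha
      simp only at hT ht
      obtain ⟨h1, h2⟩ := Finset.mem_filter.1 hT
      have hTW := mem_cl.1 (cl_mono nn_subset h1)
      refine Finset.mem_sigma.2 ⟨Finset.mem_filter.2 ⟨cl_of_subset h1 (Finset.erase_subset _ _), ?_⟩,
        mem_lkF.2 ⟨hTW.1 ht, fun z hz => ?_⟩⟩
      · simp only
        rw [Finset.card_erase_of_mem ht]; omega
      · simp only at hz
        exact hTW.2 z (Finset.mem_of_mem_erase hz) t ht (Finset.ne_of_mem_erase hz)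
    have hinj2 : Set.InjOn (fun a : Σ _ : Finset α, α => (⟨a.1.erase a.2, a.2⟩ :
        Σ _ : Finset α, α)) (T3.sigma (fun T => T)) := by
      rintro ⟨T, t⟩ ha ⟨T', t'⟩ ha' heq
      have ht := (Finset.mem_sigma.1 ha).2
      have ht' := (Finset.mem_sigma.1 ha').2
      simp only at ht ht'
      simp only [Sigma.mk.injEq] at heq
      obtain ⟨h1, h2⟩ := heq
      obtain rfl := eq_of_heq h2
      have : T = T' := by rw [← Finset.insert_erase ht, h1, Finset.insert_erase ht']
      rw [this]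
    have h5 : ∑ a ∈ T3.sigma (fun T => T), lam H (lkF H W a.1) =
        ∑ b ∈ (T3.sigma (fun T => T)).image (fun a : Σ _ : Finset α, α =>
          (⟨a.1.erase a.2, a.2⟩ : Σ _ : Finset α, α)), lam H (lkF H W (insert b.2 b.1)) := by
      rw [Finset.sum_image hinj2]
      refine Finset.sum_congr rfl (fun a ha => ?_)
      have ht := (Finset.mem_sigma.1 ha).2
      simp only at ht ⊢
      rw [Finset.insert_erase ht]
    rw [h5]
    refine Finset.sum_le_sum_of_subset_of_nonneg ?_ ?_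
    · intro b hb
      obtain ⟨a, ha, rfl⟩ := Finset.mem_image.1 hb
      exact hmaps a ha
    · rintro ⟨e, x⟩ hb _
      obtain ⟨he, hx⟩ := Finset.mem_sigma.1 hb
      simp only at he hx ⊢
      obtain ⟨h1, h2⟩ := hE2cl e he
      have hxe : x ∉ e := fun h => ((mem_lkF.1 hx).2 x h).ne rfl
      refine hnn _ ?_ (by rw [Finset.card_insert_of_notMem hxe, h2])
      have := union_mem_cl h1 (singleton_mem_cl hx)
      rwa [Finset.union_comm, ← Finset.insert_eq] at this
  have hthree : ∑ T ∈ T3, ∑ t ∈ T, lam H (lkF H W T) = ∑ T ∈ T3, 3 * lam H (lkF H W T) := by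
    refine Finset.sum_congr rfl (fun T hT => ?_)
    rw [Finset.sum_const, (hT3cl T hT).2, nsmul_eq_mul]
    norm_num
  have hpos : 0 ≤ ∑ T ∈ T3, lam H (lkF H W T) :=
    Finset.sum_nonneg (fun T hT => hnn T (hT3cl T hT).1 (hT3cl T hT).2)
  rw [hsum, derivative_sub, map_sub, derivative_sum, derivative_sum, map_sum, map_sum,
    Finset.sum_congr rfl e1, Finset.sum_congr rfl e2]
  rw [hthree, ← Finset.mul_sum] at hkey
  rw [← Finset.mul_sum]
  have : (-1 : ℚ) ^ 2 = 1 := by norm_num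
  rw [this, one_mul]
  linarith

/-- rank six, a vertex from which no tetrahedron is far -/
theorem six {W : Finset α} (hN : NP H 6 W) (hE : Eul H 6 W) (hS : HS k H 6 W)
    (h4 : ∀ σ ∈ cl H W, σ.card = 2 → 5 * (lkF H W σ).card ≤
      ((cl H (lkF H W σ)).filter (fun τ => τ.card = 2)).card + 16)
    {v : α} (hv : v ∈ W) (h3 : ∀ κ ∈ cl H (nn H W v), κ.card ≤ 3) : FP H W ∈ GT ⊤ 6 := by
  have h := pairs3 (k := k) 0 hE hN hS (fun σ hσ hc => h4 σ hσ (by omega))
    (fun σ hσ κ hκ h1 h2 h5 => Or.inr (by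
      have hκ0 : κ = ∅ := Finset.card_eq_zero.1 (by omega)
      have h6 := h5 hκ0
      have hσ0 : σ = ∅ := Finset.card_eq_zero.1 (by omega)
      rw [hκ0, hσ0, lkF_empty]
      exact ⟨v, by rw [insert_empty_eq]; exact singleton_mem_cl hv, h3⟩)) 6 ∅ empty_mem_cl
    (by simp) ∅ empty_mem_cl (by simp)
  rwa [D_empty, lkF_empty] at h

/-- **flag homology 6-spheres** -/
theorem sphere7 {n : ℕ} {S : Finset (Finset (Fin n))} (hS : IsFlagSphere k 7 S)
    (h4 : ∀ F ∈ S, F.card = 3 → 5 * ((link S F).filter (fun G => G.card = 1)).card ≤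
      ((link S F).filter (fun G => G.card = 2)).card + 16)
    (hv : ∃ v, ({v} : Finset (Fin n)) ∈ S ∧ (∀ G, IsFar S v G → G.card ≤ 3) ∧
      ∃ u, ({u} : Finset (Fin n)) ∈ link S {v} ∧ ∀ G, IsFar (link S {v}) u G → G.card ≤ 3)
    {γ : ℕ → ℤ} (hγ : IsGamma 7 S γ) : ∀ i ≤ 3, 0 ≤ γ i := by
  refine hS.gamma_nonneg ?_ hγ
  have hcl := hS.cl_eq
  have hN := hS.np
  have hE := hS.eul
  obtain ⟨r, hr⟩ := hS
  have hHS : HS k (skel S) 7 (vert S) :=
    Pool.Agent.W216.FS.HR.main Pool.Agent.W216.FS.BB.main k n 7 S r hr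
  have e1 : ∀ σ ∈ S, link S σ = cl (skel S) (lkF (skel S) (vert S) σ) := by
    intro σ hσ
    conv_lhs => rw [← hcl]
    exact link_cl (by rwa [hcl])
  have h4' : ∀ σ ∈ cl (skel S) (vert S), σ.card = 3 → 5 * (lkF (skel S) (vert S) σ).card ≤
      ((cl (skel S) (lkF (skel S) (vert S) σ)).filter (fun τ => τ.card = 2)).card + 16 := by
    intro σ hσ hc
    rw [hcl] at hσ
    have h1 := h4 σ hσ hc
    rw [e1 σ hσ] at h1
    have h2 : ((cl (skel S) (lkF (skel S) (vert S) σ)).filter (fun κ => κ.card = 1)).card =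
        (lkF (skel S) (vert S) σ).card := by
      symm
      refine Finset.card_bij (fun a _ => {a}) ?_ ?_ ?_
      · intro a ha
        exact Finset.mem_filter.2 ⟨singleton_mem_cl ha, Finset.card_singleton a⟩
      · intro a _ b _ hab
        exact Finset.singleton_injective hab
      · intro κ hκ
        obtain ⟨h5, h6⟩ := Finset.mem_filter.1 hκ
        obtain ⟨a, rfl⟩ := Finset.card_eq_one.1 h6
        exact ⟨a, (mem_cl.1 h5).1 (Finset.mem_singleton_self a), rfl⟩
    rwa [h2] at h1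
  obtain ⟨v, hv1, hv2, u, hu1, hu2⟩ := hv
  have hvV : v ∈ vert S := mem_vert.2 hv1
  have e2 : link S {v} = cl (skel S) (lk (skel S) (vert S) v) := by
    rw [e1 _ hv1, lkF_singleton]
  rw [e2] at hu1 hu2
  have huV : u ∈ lk (skel S) (vert S) v := (mem_cl.1 hu1).1 (Finset.mem_singleton_self u)
  have h6 : FP (skel S) (lk (skel S) (vert S) v) ∈ GT ⊤ 6 := by
    refine six (k := k) (hN.lk hvV) (hE.lk_succ hvV) (hHS.lk hvV) (fun σ hσ hc => ?_) huV
      (fun κ hκ => hu2 κ ((far_iff huV).2 hκ))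
    rw [lkF_insert']
    obtain ⟨h7, hvσ⟩ := Pool.Agent.W497.FS.insert_mem_cl hvV hσ
    exact h4' _ h7 (by rw [Finset.card_insert_of_notMem hvσ, hc])
  rw [FP_vertex hE hvV]
  refine add_mem (GT_y h6) (GT_w_top (Bk_seven (k := k) hN hE hHS hvV (fun κ hκ => ?_)
    (fun σ hσ hc => ?_)))
  · refine hv2 κ ?_
    have := (far_iff hvV).2 hκ
    rwa [hcl] at this
  · have h7 := (EP.tm4 ((ep_of_np hN hE).link (e := 4) hσ (by omega)) (h4' σ hσ hc)).mem ∅ ∅
      (Finset.disjoint_empty_left _) (by rw [Finset.union_empty]; exact empty_mem_cl) 4 (by simp)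
    rwa [D_empty, lkF_empty] at h7

end Pool.Agent.TH709.GG.F3
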