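import Pool.Agent.TH709.GG.Ops

set_option autoImplicit false
set_option linter.unusedSectionVars false
set_option linter.unusedVariables false

/-! # Vertex splitting preserves total monotonicity -/

namespace Pool.Agent.TH709.GG

open Polynomial
open Pool.Agent.W497.FS

variable {α : Type*} {H : SimpleGraph α} [DecidableEq α] {B : Finset α} {u v m : α}

theorem insert_mem_cl {W τ : Finset α} {a : α} (hτ : τ ∈ cl H W) (ha : a ∈ W)
    (h : AllAdj H a τ) : insert a τ ∈ cl H W := by
  rw [mem_cl] at hτ ⊢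
  refine ⟨Finset.insert_subset ha hτ.1, fun p hp q hq hpq => ?_⟩
  rcases Finset.mem_insert.1 hp with h1 | h1 <;> rcases Finset.mem_insert.1 hq with h2 | h2
  · exact absurd (h1.trans h2.symm) hpq
  · rw [h1]; exact h q h2
  · rw [h2]; exact (h p h1).symm
  · exact hτ.2 p h1 q h2 hpq

theorem allAdj_of_insert {W τ : Finset α} {a : α} (hτ : insert a τ ∈ cl H W) (ha : a ∉ τ) :
    AllAdj H a τ := fun z hz =>
  (mem_cl.1 hτ).2 a (Finset.mem_insert_self a τ) z (Finset.mem_insert_of_mem hz)
    (fun h => ha (h ▸ hz))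

theorem AllAdj.mono {a : α} {σ τ : Finset α} (h : AllAdj H a τ) (hs : σ ⊆ τ) : AllAdj H a σ :=
  fun z hz => h z (hs hz)

/-- (i) -/
theorem SplitD.D1 (h : SplitD H B u v m) {σ κ : Finset α} (hcl : σ ∪ κ ∈ cl H B) :
    D H (insert u (insert v B)) σ κ = D H (insert m B) σ κ +
      if σ ⊆ lk H (lk H B u) v then
        w * D H (insert u (insert v B)) (insert u (insert v σ)) (κ ∩ lk H (lk H B u) v) else 0 := by
  have h1 : D H (insert u (insert v B)) σ κ = D H (insert m B) σ κ + ∑ G ∈ κ.powerset,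
      (-y) ^ G.card * (if σ ∪ G ⊆ lk H (lk H B u) v then
        w * FP H (lkF H (insert u (insert v B)) (insert u (insert v (σ ∪ G)))) else 0) := by
    rw [D, D, ← Finset.sum_add_distrib]
    refine Finset.sum_congr rfl (fun G hG => ?_)
    rw [h.F1 (cl_of_subset hcl (Finset.union_subset_union_right (Finset.mem_powerset.1 hG))),
      mul_add]
  have h2 := sum_restrict (fun G => w * FP H (lkF H (insert u (insert v B))
    (insert u (insert v (σ ∪ G))))) σ κ (lk H (lk H B u) v)
  rw [h1, h2]
  congr 1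
  split_ifs with hc
  · rw [D, Finset.mul_sum]
    refine Finset.sum_congr rfl (fun G _ => ?_)
    rw [Finset.insert_union, Finset.insert_union]
    generalize FP H (lkF H (insert u (insert v B)) (insert u (insert v (σ ∪ G)))) = q
    ring
  · rfl

/-- (ii) -/
theorem SplitD.D2 (h : SplitD H B u v m) {σ κ : Finset α} (hcl : σ ∪ κ ∈ cl H B)
    (hadj : AllAdj H u (σ ∪ κ)) :
    D H (insert u (insert v B)) σ (insert u κ) = D H (insert m B) σ (insert m κ) +
      (if σ ⊆ lk H (lk H B u) v then
        w * D H (insert u (insert v B)) (insert u (insert v σ)) (κ ∩ lk H (lk H B u) v) else 0) +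
      (if σ ⊆ lk H B v then
        y * D H (insert u (insert v B)) (insert v σ) (insert u (κ ∩ lk H B v)) else 0) := by
  obtain ⟨hσ, hκ⟩ := mem_cl_union hcl
  have huκ : u ∉ κ := fun h' => h.hu ((mem_cl.1 hκ).1 h')
  have hmκ : m ∉ κ := fun h' => h.hm ((mem_cl.1 hκ).1 h')
  have huκ' : u ∉ κ ∩ lk H B v := fun h' => huκ (Finset.mem_inter.1 h').1
  have h1 : D H (insert u (insert v B)) (insert u σ) κ = D H (insert m B) (insert m σ) κ -
      ∑ G ∈ κ.powerset, (-y) ^ G.card * (if σ ∪ G ⊆ lk H B v then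
        FP H (lkF H (insert u (insert v B)) (insert v σ ∪ G)) -
        y * FP H (lkF H (insert u (insert v B)) (insert u (insert v σ ∪ G))) else 0) := by
    rw [D, D, ← Finset.sum_sub_distrib]
    refine Finset.sum_congr rfl (fun G hG => ?_)
    have hs : σ ∪ G ⊆ σ ∪ κ := Finset.union_subset_union_right (Finset.mem_powerset.1 hG)
    rw [Finset.insert_union, h.F2 (hs.trans (mem_cl.1 hcl).1) (hadj.mono hs), mul_sub,
      Finset.insert_union, Finset.insert_union, Finset.insert_comm v u]
  have h2 := sum_restrict (fun G => FP H (lkF H (insert u (insert v B)) (insert v σ ∪ G)) -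
        y * FP H (lkF H (insert u (insert v B)) (insert u (insert v σ ∪ G)))) σ κ (lk H B v)
  rw [D_insert huκ, D_insert hmκ, h.D1 hcl, h1, h2, sum_cone huκ']
  split_ifs <;> ring

/-- (iv) -/
theorem SplitD.D3 (h : SplitD H B u v m) {σ κ : Finset α} (hcl : σ ∪ κ ∈ cl H B)
    (hadj : AllAdj H u (σ ∪ κ)) (hadj' : AllAdj H v (σ ∪ κ)) :
    D H (insert u (insert v B)) σ (insert v (insert u κ)) = D H (insert m B) σ (insert m κ) +
        w * D H (insert u (insert v B)) (insert u (insert v σ)) κ := by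
  obtain ⟨hσ, hκ⟩ := mem_cl_union hcl
  have hσB := (mem_cl.1 hσ).1
  have hκB := (mem_cl.1 hκ).1
  have hvκ : v ∉ insert u κ := by
    rw [Finset.mem_insert, not_or]
    exact ⟨h.huv.ne', fun h' => h.hv (hκB h')⟩
  have e1 : σ ⊆ lk H (lk H B u) v := (allAdj_iff2 hσB).1
    ⟨hadj.mono Finset.subset_union_left, hadj'.mono Finset.subset_union_left⟩
  have e2 : κ ⊆ lk H (lk H B u) v := (allAdj_iff2 hκB).1
    ⟨hadj.mono Finset.subset_union_right, hadj'.mono Finset.subset_union_right⟩
  have e3 : σ ⊆ lk H B v := (allAdj_iff hσB).1 (hadj'.mono Finset.subset_union_left)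
  have e4 : κ ⊆ lk H B v := (allAdj_iff hκB).1 (hadj'.mono Finset.subset_union_right)
  rw [D_insert hvκ, h.D2 hcl hadj, if_pos e1, if_pos e3, Finset.inter_eq_left.2 e2,
    Finset.inter_eq_left.2 e4]
  ring

/-- membership through the link of a vertex -/
theorem mem_of_link {d : ℕ} {W σ κ : Finset α} {a : α} (ha : TM H d (lk H W a)) (haσ : a ∉ σ)
    (hdis : Disjoint (insert a σ) κ) (hcl : insert a σ ∪ κ ∈ cl H W) {e : ℕ}
    (he : e + σ.card = d) : D H W (insert a σ) κ ∈ GT ⊤ e := by
  have h1 := D_link (H := H) W {a} σ κ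
  rw [lkF_singleton, ← Finset.insert_eq] at h1
  rw [← h1]
  rw [Finset.disjoint_insert_left] at hdis
  refine ha.mem σ κ hdis.2 ?_ e he
  rw [mem_cl] at hcl ⊢
  have hs : ∀ z ∈ σ ∪ κ, z ∈ insert a σ ∪ κ := fun z hz => by
    rw [Finset.insert_union]; exact Finset.mem_insert_of_mem hz
  refine ⟨fun z hz => mem_lk.2 ⟨hcl.1 (hs z hz), ?_⟩, fun p hp q hq => hcl.2 p (hs p hp) q (hs q hq)⟩
  refine hcl.2 a (Finset.mem_union_left _ (Finset.mem_insert_self a σ)) z (hs z hz) ?_
  rintro rfl
  rcases Finset.mem_union.1 hz with h2 | h2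
  · exact haσ h2
  · exact hdis.1 h2

theorem card_le_of_link {d : ℕ} {W σ : Finset α} {a : α} (ha : TM H d (lk H W a)) (haσ : a ∉ σ)
    (hcl : insert a σ ∈ cl H W) : σ.card ≤ d := by
  refine ha.le σ ?_
  rw [mem_cl] at hcl ⊢
  refine ⟨fun z hz => mem_lk.2 ⟨hcl.1 (Finset.mem_insert_of_mem hz), ?_⟩, fun p hp q hq =>
    hcl.2 p (Finset.mem_insert_of_mem hp) q (Finset.mem_insert_of_mem hq)⟩
  exact hcl.2 a (Finset.mem_insert_self a σ) z (Finset.mem_insert_of_mem hz)
    (fun h => haσ (h ▸ hz))

theorem GT_w_top {d : ℕ} {p : ℤ[X]} (hp : p ∈ GT ⊤ d) : w * p ∈ GT ⊤ (d + 2) := by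
  have := GT_w hp
  rwa [top_add] at this

theorem SplitD.mem_uv {d : ℕ} (h : SplitD H B u v m)
    (hu : TM H d (lk H (insert u (insert v B)) u)) {σ κ : Finset α} (hdis : Disjoint σ κ)
    (hcl : σ ∪ κ ∈ cl H B) (h1 : AllAdj H u (σ ∪ κ)) (h2 : AllAdj H v (σ ∪ κ)) {e : ℕ}
    (he : e + σ.card = d + 1) :
    w * D H (insert u (insert v B)) (insert u (insert v σ)) κ ∈ GT ⊤ e := by
  obtain ⟨hσ, hκ⟩ := mem_cl_union hcl
  have huB : ∀ τ ∈ cl H B, u ∉ τ := fun τ hτ h' => h.hu ((mem_cl.1 hτ).1 h')
  have hvB : ∀ τ ∈ cl H B, v ∉ τ := fun τ hτ h' => h.hv ((mem_cl.1 hτ).1 h')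
  have hBW : B ⊆ insert u (insert v B) :=
    (Finset.subset_insert v B).trans (Finset.subset_insert u _)
  have hcl' : insert u (insert v (σ ∪ κ)) ∈ cl H (insert u (insert v B)) := by
    refine insert_mem_cl (insert_mem_cl (cl_mono hBW hcl) ?_ h2) ?_ (allAdj_insert h.huv h1)
    · exact Finset.mem_insert_of_mem (Finset.mem_insert_self v B)
    · exact Finset.mem_insert_self u _
  have hcl'' : insert u (insert v σ) ∪ κ ∈ cl H (insert u (insert v B)) := by
    rw [Finset.insert_union, Finset.insert_union]; exact hcl'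
  have huσ : u ∉ insert v σ := by
    rw [Finset.mem_insert, not_or]
    exact ⟨h.huv.ne, huB σ hσ⟩
  have hc := card_le_of_link hu huσ (mem_cl_union hcl'').1
  rw [Finset.card_insert_of_notMem (hvB σ hσ)] at hc
  obtain ⟨e', rfl⟩ : ∃ e', e = e' + 2 := ⟨e - 2, by omega⟩
  refine GT_w_top (mem_of_link hu huσ ?_ hcl'' ?_)
  · rw [Finset.disjoint_insert_left, Finset.disjoint_insert_left]
    exact ⟨huB κ hκ, hvB κ hκ, hdis⟩
  · rw [Finset.card_insert_of_notMem (hvB σ hσ)]; omega

theorem SplitD.mem_v {d : ℕ} (h : SplitD H B u v m)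
    (hv : TM H d (lk H (insert u (insert v B)) v)) {σ κ : Finset α} (hdis : Disjoint σ κ)
    (hcl : σ ∪ κ ∈ cl H B) (h1 : AllAdj H u (σ ∪ κ)) (h2 : AllAdj H v (σ ∪ κ)) {e : ℕ}
    (he : e + σ.card = d + 1) :
    y * D H (insert u (insert v B)) (insert v σ) (insert u κ) ∈ GT ⊤ e := by
  obtain ⟨hσ, hκ⟩ := mem_cl_union hcl
  have huB : ∀ τ ∈ cl H B, u ∉ τ := fun τ hτ h' => h.hu ((mem_cl.1 hτ).1 h')
  have hvB : ∀ τ ∈ cl H B, v ∉ τ := fun τ hτ h' => h.hv ((mem_cl.1 hτ).1 h')
  have hBW : B ⊆ insert u (insert v B) :=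
    (Finset.subset_insert v B).trans (Finset.subset_insert u _)
  have hcl' : insert u (insert v (σ ∪ κ)) ∈ cl H (insert u (insert v B)) := by
    refine insert_mem_cl (insert_mem_cl (cl_mono hBW hcl) ?_ h2) ?_ (allAdj_insert h.huv h1)
    · exact Finset.mem_insert_of_mem (Finset.mem_insert_self v B)
    · exact Finset.mem_insert_self u _
  have hcl'' : insert v σ ∪ insert u κ ∈ cl H (insert u (insert v B)) := by
    rw [Finset.union_insert, Finset.insert_union]; exact hcl'
  have hc := card_le_of_link hv (hvB σ hσ) (mem_cl_union hcl'').1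
  obtain ⟨e', rfl⟩ : ∃ e', e = e' + 1 := ⟨e - 1, by omega⟩
  refine GT_y (mem_of_link hv (hvB σ hσ) ?_ hcl'' (by omega))
  rw [Finset.disjoint_insert_left, Finset.disjoint_insert_right, Finset.mem_insert, not_or]
  exact ⟨⟨h.huv.ne', hvB κ hκ⟩, huB σ hσ, hdis⟩

/-- the case `κ = insert u κ₁` -/
theorem SplitD.mem_u_case {d : ℕ} (h : SplitD H B u v m) (hm : TM H (d + 1) (insert m B))
    (hu : TM H d (lk H (insert u (insert v B)) u)) (hv : TM H d (lk H (insert u (insert v B)) v))
    {σ κ : Finset α} (hdis : Disjoint σ κ) (hcl : σ ∪ κ ∈ cl H B) (h1 : AllAdj H u (σ ∪ κ))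
    {e : ℕ} (he : e + σ.card = d + 1) :
    D H (insert u (insert v B)) σ (insert u κ) ∈ GT ⊤ e := by
  obtain ⟨hσ, hκ⟩ := mem_cl_union hcl
  have hσB := (mem_cl.1 hσ).1
  have hκB := (mem_cl.1 hκ).1
  rw [h.D2 hcl h1]
  refine add_mem (add_mem ?_ ?_) ?_
  · refine hm.mem σ (insert m κ) ?_ ?_ e he
    · rw [Finset.disjoint_insert_right]
      exact ⟨fun h' => h.hm (hσB h'), hdis⟩
    · rw [Finset.union_insert]
      exact insert_mem_cl (cl_mono (Finset.subset_insert m B) hcl) (Finset.mem_insert_self m B)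
        (h.m_of_u (Finset.union_subset hσB hκB) h1)
  · split_ifs with hc
    · have hs : σ ∪ κ ∩ lk H (lk H B u) v ⊆ σ ∪ κ :=
        Finset.union_subset_union_right Finset.inter_subset_left
      refine h.mem_uv hu (hdis.mono_right Finset.inter_subset_left) (cl_of_subset hcl hs)
        (h1.mono hs) ?_ he
      intro z hz
      rcases Finset.mem_union.1 hz with h2 | h2
      · exact (mem_lk.1 (hc h2)).2
      · exact (mem_lk.1 (Finset.mem_inter.1 h2).2).2
    · exact zero_mem _
  · split_ifs with hc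
    · have hs : σ ∪ κ ∩ lk H B v ⊆ σ ∪ κ :=
        Finset.union_subset_union_right Finset.inter_subset_left
      refine h.mem_v hv (hdis.mono_right Finset.inter_subset_left) (cl_of_subset hcl hs)
        (h1.mono hs) ?_ he
      intro z hz
      rcases Finset.mem_union.1 hz with h2 | h2
      · exact (mem_lk.1 (hc h2)).2
      · exact (mem_lk.1 (Finset.mem_inter.1 h2).2).2
    · exact zero_mem _

/-- a face of the big complex without `u` and `v` is a face of `B` -/
theorem mem_cl_of_notMem {W τ : Finset α} (hτ : τ ∈ cl H (insert u (insert v B))) (hu : u ∉ τ)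
    (hv : v ∉ τ) : τ ∈ cl H B := by
  rw [mem_cl] at hτ ⊢
  refine ⟨fun z hz => ?_, hτ.2⟩
  have h1 := hτ.1 hz
  rw [Finset.mem_insert, Finset.mem_insert] at h1
  rcases h1 with h1 | h1 | h1
  · exact absurd (h1 ▸ hz) hu
  · exact absurd (h1 ▸ hz) hv
  · exact h1

/-- **splitting preserves total monotonicity** -/
theorem SplitD.tm {d : ℕ} (h : SplitD H B u v m) (hm : TM H (d + 1) (insert m B))
    (hu : TM H d (lk H (insert u (insert v B)) u))
    (hv : TM H d (lk H (insert u (insert v B)) v)) : TM H (d + 1) (insert u (insert v B)) := by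
  have hle : ∀ σ ∈ cl H (insert u (insert v B)), σ.card ≤ d + 1 := by
    intro σ hσ
    by_cases h1 : u ∈ σ
    · have h2 := card_le_of_link hu (Finset.notMem_erase u σ) (by rwa [Finset.insert_erase h1])
      rw [Finset.card_erase_of_mem h1] at h2
      omega
    · by_cases h1' : v ∈ σ
      · have h2 := card_le_of_link hv (Finset.notMem_erase v σ) (by rwa [Finset.insert_erase h1'])
        rw [Finset.card_erase_of_mem h1'] at h2
        omega
      · exact hm.le σ (cl_mono (Finset.subset_insert m B) (mem_cl_of_notMem (W := B) hσ h1 h1'))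
  refine ⟨hle, ?_⟩
  intro σ κ hdis hcl e he
  by_cases huσ : u ∈ σ
  · have hc := Finset.card_erase_of_mem huσ
    have hpos : 0 < σ.card := Finset.card_pos.2 ⟨u, huσ⟩
    have h2 := mem_of_link (σ := σ.erase u) (κ := κ) (e := e) hu (Finset.notMem_erase u σ)
      (by rwa [Finset.insert_erase huσ]) (by rwa [Finset.insert_erase huσ]) (by omega)
    rwa [Finset.insert_erase huσ] at h2
  by_cases hvσ : v ∈ σ
  · have hc := Finset.card_erase_of_mem hvσ
    have hpos : 0 < σ.card := Finset.card_pos.2 ⟨v, hvσ⟩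
    have h2 := mem_of_link (σ := σ.erase v) (κ := κ) (e := e) hv (Finset.notMem_erase v σ)
      (by rwa [Finset.insert_erase hvσ]) (by rwa [Finset.insert_erase hvσ]) (by omega)
    rwa [Finset.insert_erase hvσ] at h2
  have huκ0 : u ∉ (κ.erase u).erase v := fun h' =>
    Finset.notMem_erase u κ (Finset.mem_of_mem_erase h')
  have hvκ0 : v ∉ (κ.erase u).erase v := Finset.notMem_erase v _
  have hs0 : (κ.erase u).erase v ⊆ κ := (Finset.erase_subset _ _).trans (Finset.erase_subset _ _)
  have hdis0 : Disjoint σ ((κ.erase u).erase v) := hdis.mono_right hs0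
  have hcl0 : σ ∪ (κ.erase u).erase v ∈ cl H B := by
    refine mem_cl_of_notMem (W := B) (cl_of_subset hcl (Finset.union_subset_union_right hs0)) ?_ ?_
    · rw [Finset.mem_union, not_or]; exact ⟨huσ, huκ0⟩
    · rw [Finset.mem_union, not_or]; exact ⟨hvσ, hvκ0⟩
  have hadju : u ∈ κ → AllAdj H u (σ ∪ (κ.erase u).erase v) := by
    intro hu' z hz
    refine (mem_cl.1 hcl).2 u (Finset.mem_union_right _ hu') z
      (Finset.union_subset_union_right hs0 hz) ?_
    rintro rfl
    rcases Finset.mem_union.1 hz with h1 | h1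
    · exact huσ h1
    · exact huκ0 h1
  have hadjv : v ∈ κ → AllAdj H v (σ ∪ (κ.erase u).erase v) := by
    intro hv' z hz
    refine (mem_cl.1 hcl).2 v (Finset.mem_union_right _ hv') z
      (Finset.union_subset_union_right hs0 hz) ?_
    rintro rfl
    rcases Finset.mem_union.1 hz with h1 | h1
    · exact hvσ h1
    · exact hvκ0 h1
  by_cases huκ : u ∈ κ
  · by_cases hvκ : v ∈ κ
    · have hk : κ = insert v (insert u ((κ.erase u).erase v)) := by
        rw [Finset.insert_comm, Finset.insert_erase, Finset.insert_erase huκ]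
        exact Finset.mem_erase.2 ⟨h.huv.ne', hvκ⟩
      rw [hk, h.D3 hcl0 (hadju huκ) (hadjv hvκ)]
      refine add_mem ?_ (h.mem_uv hu hdis0 hcl0 (hadju huκ) (hadjv hvκ) he)
      have hσB := (mem_cl.1 (mem_cl_union hcl0).1).1
      refine hm.mem σ _ ?_ ?_ e he
      · rw [Finset.disjoint_insert_right]
        exact ⟨fun h' => h.hm (hσB h'), hdis0⟩
      · rw [Finset.union_insert]
        exact insert_mem_cl (cl_mono (Finset.subset_insert m B) hcl0)
          (Finset.mem_insert_self m B) (h.m_of_u (mem_cl.1 hcl0).1 (hadju huκ))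
    · have hk : κ = insert u ((κ.erase u).erase v) := by
        rw [Finset.erase_eq_of_notMem (a := v) (fun h' => hvκ (Finset.mem_of_mem_erase h')),
          Finset.insert_erase huκ]
      rw [hk]
      exact h.mem_u_case hm hu hv hdis0 hcl0 (hadju huκ) he
  · by_cases hvκ : v ∈ κ
    · have hk : κ = insert v ((κ.erase u).erase v) := by
        rw [Finset.erase_eq_of_notMem huκ, Finset.insert_erase hvκ]
      rw [hk]
      rw [Finset.insert_comm u v B] at hu hv ⊢
      exact h.swap.mem_u_case hm hv hu hdis0 hcl0 (hadjv hvκ) he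
    · have hk : κ = (κ.erase u).erase v := by
        rw [Finset.erase_eq_of_notMem huκ, Finset.erase_eq_of_notMem hvκ]
      rw [← hk] at hcl0
      rw [h.D1 hcl0]
      refine add_mem (hm.mem σ κ hdis (cl_mono (Finset.subset_insert m B) hcl0) e he) ?_
      split_ifs with hc
      · have hs : σ ∪ κ ∩ lk H (lk H B u) v ⊆ σ ∪ κ :=
          Finset.union_subset_union_right Finset.inter_subset_left
        have hK : σ ∪ κ ∩ lk H (lk H B u) v ⊆ lk H (lk H B u) v :=
          Finset.union_subset hc Finset.inter_subset_right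
        refine h.mem_uv hu (hdis.mono_right Finset.inter_subset_left) (cl_of_subset hcl0 hs)
          ?_ ?_ he
        · exact fun z hz => (mem_lk.1 (lk_subset (hK hz))).2
        · exact fun z hz => (mem_lk.1 (hK hz)).2
      · exact zero_mem _

/-! ## Edge subdivisions -/

/-- the data of an edge subdivision: the edge from `m` to `t` of the complex on `insert m B` is
subdivided by the new vertex `v`; `u` is the vertex `m` of the new complex -/
structure SubD (H : SimpleGraph α) (B : Finset α) (u v m t : α) : Prop where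
  hu : u ∉ B
  hv : v ∉ B
  hm : m ∉ B
  huv : H.Adj u v
  ht : t ∈ B
  hmt : H.Adj m t
  hNu : ∀ x ∈ B, H.Adj u x ↔ H.Adj m x ∧ x ≠ t
  hNv : ∀ x ∈ B, H.Adj v x ↔ x = t ∨ (H.Adj m x ∧ H.Adj t x)

theorem SubD.split {t : α} (h : SubD H B u v m t) : SplitD H B u v m where
  hu := h.hu
  hv := h.hv
  hm := h.hm
  huv := h.huv
  hN := fun x hx => by
    rw [h.hNu x hx, h.hNv x hx]
    constructor
    · intro h1
      by_cases hxt : x = t
      · exact Or.inr (Or.inl hxt)
      · exact Or.inl ⟨h1, hxt⟩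
    · rintro (h1 | h1 | h1)
      · exact h1.1
      · rw [h1]; exact h.hmt
      · exact h1.1
  h4 := fun x hx z hz h1 h2 h3 h4 h5 => by
    rw [h.hNu x hx] at h1
    rw [h.hNv x hx, not_or] at h2
    rw [h.hNv z hz] at h3
    rw [h.hNu z hz] at h4
    rcases h3 with h3 | h3
    · rw [h3] at h5
      exact h2.2 ⟨h1.1, h5.symm⟩
    · exact h4 ⟨h3.1, fun h' => by rw [h'] at h3; exact h3.2.ne rfl⟩

theorem SubD.tm {d : ℕ} {t : α} (h : SubD H B u v m t) (hm : TM H (d + 1) (insert m B))
    (h1 : TM H 1 {u, t}) : TM H (d + 1) (insert u (insert v B)) := by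
  have hmt' : m ≠ t := h.hmt.ne
  have hmW : m ∈ insert m B := Finset.mem_insert_self m B
  have htW : t ∈ insert m B := Finset.mem_insert_of_mem h.ht
  have hcm : ({m} : Finset α) ∈ cl H (insert m B) := singleton_mem_cl hmW
  have hcmt : ({m, t} : Finset α) ∈ cl H (insert m B) := by
    refine insert_mem_cl (singleton_mem_cl htW) hmW (fun z hz => ?_)
    rw [Finset.mem_singleton.1 hz]
    exact h.hmt
  have hlm : TM H d (lk H (insert m B) m) := by
    have := hm.link (e := d) hcm (by rw [Finset.card_singleton])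
    rwa [lkF_singleton] at this
  have hut : u ≠ t := fun h' => h.hu (h' ▸ h.ht)
  refine h.split.tm hm ?_ ?_
  · -- the link of `u` is the link of `m` with `t` replaced by `v`
    have hvm : v ∉ lk H (insert m B) m := fun h' => by
      rcases Finset.mem_insert.1 (mem_lk.1 h').1 with h2 | h2
      · have := (mem_lk.1 h').2
        rw [h2] at this
        exact this.ne rfl
      · exact h.hv h2
    have e1 : (lk H (insert m B) m).image (fun x => if x = t then v else x) =
        lk H (insert u (insert v B)) u := by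
      ext x
      rw [Finset.mem_image]
      constructor
      · rintro ⟨z, hz, rfl⟩
        rw [mem_lk, Finset.mem_insert] at hz
        by_cases hzt : z = t
        · rw [if_pos hzt]
          exact mem_lk.2 ⟨Finset.mem_insert_of_mem (Finset.mem_insert_self v B), h.huv⟩
        · rw [if_neg hzt]
          rcases hz with ⟨hz | hz, hz'⟩
          · rw [hz] at hz'; exact absurd rfl hz'.ne
          · exact mem_lk.2 ⟨Finset.mem_insert_of_mem (Finset.mem_insert_of_mem hz),
              (h.hNu z hz).2 ⟨hz', hzt⟩⟩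
      · intro hx
        rw [mem_lk, Finset.mem_insert, Finset.mem_insert] at hx
        rcases hx with ⟨hx | hx | hx, hx'⟩
        · rw [hx] at hx'; exact absurd rfl hx'.ne
        · exact ⟨t, mem_lk.2 ⟨htW, h.hmt⟩, by rw [if_pos rfl, hx]⟩
        · have := (h.hNu x hx).1 hx'
          exact ⟨x, mem_lk.2 ⟨Finset.mem_insert_of_mem hx, this.1⟩, by rw [if_neg this.2]⟩
    rw [← e1]
    have hB : ∀ z ∈ lk H (insert m B) m, z ∈ B ∧ H.Adj m z := by
      intro z hz
      rw [mem_lk, Finset.mem_insert] at hz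
      rcases hz with ⟨hz | hz, hz'⟩
      · rw [hz] at hz'; exact absurd rfl hz'.ne
      · exact ⟨hz, hz'⟩
    refine hlm.image ?_ ?_
    · intro a ha b hb hab
      have ha' := hB a ha
      have hb' := hB b hb
      simp only at hab
      by_cases hat : a = t <;> by_cases hbt : b = t
      · rw [hat, hbt]
      · rw [if_pos hat, if_neg hbt] at hab
        exact absurd (hab ▸ hb'.1) h.hv
      · rw [if_neg hat, if_pos hbt] at hab
        exact absurd (hab ▸ ha'.1) h.hv
      · rwa [if_neg hat, if_neg hbt] at hab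
    · intro a ha b hb
      have ha' := hB a ha
      have hb' := hB b hb
      by_cases hat : a = t <;> by_cases hbt : b = t
      · rw [hat, hbt]
        simp
      · rw [if_pos hat, if_neg hbt, h.hNv b hb'.1, hat]
        constructor
        · exact fun h2 => Or.inr ⟨hb'.2, h2⟩
        · rintro (h2 | h2)
          · exact absurd h2 hbt
          · exact h2.2
      · rw [if_neg hat, if_pos hbt, H.adj_comm a v, h.hNv a ha'.1, hbt]
        constructor
        · exact fun h2 => Or.inr ⟨ha'.2, h2.symm⟩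
        · rintro (h2 | h2)
          · exact absurd h2 hat
          · exact h2.2.symm
      · rw [if_neg hat, if_neg hbt]
  · -- the link of `v` is the join of `{u, t}` and the link of the edge `mt`
    have e2 : lk H (insert u (insert v B)) v = {u, t} ∪ lkF H (insert m B) {m, t} := by
      ext x
      simp only [mem_lk, Finset.mem_insert, Finset.mem_union, mem_lkF, Finset.mem_singleton,
        forall_eq_or_imp, forall_eq]
      constructor
      · rintro ⟨hx | hx | hx, hx'⟩
        · exact Or.inl (Or.inl hx)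
        · rw [hx] at hx'; exact absurd rfl hx'.ne
        · rcases (h.hNv x hx).1 hx' with h2 | h2
          · exact Or.inl (Or.inr h2)
          · exact Or.inr ⟨Or.inr hx, h2⟩
      · rintro ((hx | hx) | ⟨hx | hx, hx'⟩)
        · exact ⟨Or.inl hx, by rw [hx]; exact h.huv.symm⟩
        · refine ⟨Or.inr (Or.inr (hx ▸ h.ht)), ?_⟩
          rw [hx]
          exact (h.hNv t h.ht).2 (Or.inl rfl)
        · rw [hx] at hx'
          exact absurd rfl hx'.1.ne
        · exact ⟨Or.inr (Or.inr hx), (h.hNv x hx).2 (Or.inr hx')⟩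
    rw [e2]
    have hfull : Full H {u, t} (lkF H (insert m B) {m, t}) := by
      intro a ha b hb
      simp only [mem_lkF, Finset.mem_insert, Finset.mem_singleton, forall_eq_or_imp,
        forall_eq] at ha hb
      rcases hb with ⟨hb | hb, hb1, hb2⟩
      · rw [hb] at hb1; exact absurd rfl hb1.ne
      · rcases ha with ha | ha
        · rw [ha]
          exact (h.hNu b hb).2 ⟨hb1, fun h' => by rw [h'] at hb2; exact hb2.ne rfl⟩
        · rw [ha]; exact hb2
    rcases d with _ | d
    · have := hm.le _ hcmt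
      rw [Finset.card_pair hmt'] at this
      omega
    have h3 := TM.join hfull h1 (hm.link (e := d) hcmt (by rw [Finset.card_pair hmt']))
    rwa [add_comm 1 d] at h3

end Pool.Agent.TH709.GG
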